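import Pool.Agent.Work.MP_69fea5_lc.PR.WM

set_option autoImplicit false

/-!
# Canonical relations
-/

namespace Pool.Agent.Work.MP_69fea5_lc.PR

open Pool.Agent.Work.MP_69fea5_lc Filter Topology
open Pool.Agent.Work.MP_69fea5_lc.PD

attribute [local instance] Ultrafilter.add Ultrafilter.addSemigroup

variable {k : ℕ}

/-- closed shift invariant relations on `M` -/
structure CIR (M : Set (ℕ → Fin k)) (S : Set ((ℕ → Fin k) × (ℕ → Fin k))) : Prop where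
  sub : S ⊆ M ×ˢ M
  closed : IsClosed S
  shift : ∀ p ∈ S, ((fun n => p.1 (n + 1)), (fun n => p.2 (n + 1))) ∈ S

theorem ICER.cir {M : Set (ℕ → Fin k)} {S : Set ((ℕ → Fin k) × (ℕ → Fin k))} (h : ICER M S) :
    CIR M S := ⟨h.sub, h.closed, h.shift⟩

/-- `T ^ x (a, b)` agrees with `q` below `n` -/
def Vis (n : ℕ) (q p : (ℕ → Fin k) × (ℕ → Fin k)) (x : ℕ) : Prop :=
  ∀ i < n, p.1 (x + i) = q.1 i ∧ p.2 (x + i) = q.2 i

/-- limits of `T ^ x (a, b)`, where `a, b` are related to one point and tend to each other -/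
def isoD (S : Set ((ℕ → Fin k) × (ℕ → Fin k))) : Set ((ℕ → Fin k) × (ℕ → Fin k)) :=
  {q | ∀ l, ∃ y a b, (a, y) ∈ S ∧ (b, y) ∈ S ∧ (∀ i < l, a i = b i) ∧ ∃ x, Vis l q (a, b) x}

/-- the closure of the almost periodic pairs in `S` -/
def apD (S : Set ((ℕ → Fin k) × (ℕ → Fin k))) : Set ((ℕ → Fin k) × (ℕ → Fin k)) :=
  {p | ∀ n, ∃ g, ∃ q ∈ S, ∀ t, ∃ x, t ≤ x ∧ x < t + g ∧ Vis n p q x}

theorem Vis.congr {n : ℕ} {q q' p : (ℕ → Fin k) × (ℕ → Fin k)} {x : ℕ} (h : Vis n q p x)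
    (hq : Agree n q' q) : Vis n q' p x :=
  fun i hi => ⟨(h i hi).1.trans (hq i hi).1.symm, (h i hi).2.trans (hq i hi).2.symm⟩

theorem Vis.mono {n m : ℕ} {q p : (ℕ → Fin k) × (ℕ → Fin k)} {x : ℕ} (h : Vis n q p x)
    (hm : m ≤ n) : Vis m q p x := fun i hi => h i (by omega)

theorem CIR.shift_mem {M : Set (ℕ → Fin k)} {S : Set ((ℕ → Fin k) × (ℕ → Fin k))}
    (hS : CIR M S) {p : (ℕ → Fin k) × (ℕ → Fin k)} (hp : p ∈ S) (x : ℕ) :
    ((fun n => p.1 (x + n)), (fun n => p.2 (x + n))) ∈ S := by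
  induction x with
  | zero => simpa using hp
  | succ x ih =>
    have h1 := hS.shift _ ih
    have e : ((fun n => p.1 (x + 1 + n)), (fun n => p.2 (x + 1 + n))) =
        ((fun n => p.1 (x + (n + 1))), (fun n => p.2 (x + (n + 1)))) := by
      refine Prod.ext (funext fun n => ?_) (funext fun n => ?_)
      · exact congrArg p.1 (by omega)
      · exact congrArg p.2 (by omega)
    rw [e]
    exact h1

/-- points visited by pairs in `S` are in `S` -/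
theorem CIR.mem_of_vis {M : Set (ℕ → Fin k)} {S : Set ((ℕ → Fin k) × (ℕ → Fin k))}
    (hS : CIR M S) {p : (ℕ → Fin k) × (ℕ → Fin k)}
    (h : ∀ n, ∃ q ∈ S, ∃ x, Vis n p q x) : p ∈ S := by
  refine mem_of_parts2 hS.closed fun n => ?_
  obtain ⟨q, hq, x, hx⟩ := h n
  exact ⟨_, hS.shift_mem hq x, fun i hi => ⟨(hx i hi).1.symm, (hx i hi).2.symm⟩⟩

theorem isoD_cir {M : Set (ℕ → Fin k)} (hM : IsClosed M)
    (hT : ∀ z ∈ M, (fun n => z (n + 1)) ∈ M) {S : Set ((ℕ → Fin k) × (ℕ → Fin k))}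
    (hS : CIR M S) : CIR M (isoD S) := by
  refine ⟨?_, ?_, ?_⟩
  · intro q hq
    have h1 : CIR M (M ×ˢ M) := (ICER_prod hM hT).cir
    refine h1.mem_of_vis fun n => ?_
    obtain ⟨y, a, b, ha, hb, -, x, hx⟩ := hq n
    exact ⟨(a, b), ⟨(hS.sub ha).1, (hS.sub hb).1⟩, x, hx⟩
  · refine isClosed_of_closure_subset fun p hp n => ?_
    obtain ⟨p', hp', hp''⟩ := mem_closure_iff.1 hp _ (isOpen_Agree n p) (Agree_self n p)
    obtain ⟨y, a, b, ha, hb, hab, x, hx⟩ := hp'' n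
    exact ⟨y, a, b, ha, hb, hab, x, hx.congr hp'⟩
  · intro q hq n
    obtain ⟨y, a, b, ha, hb, hab, x, hx⟩ := hq (n + 1)
    refine ⟨y, a, b, ha, hb, fun i hi => hab i (by omega), x + 1, fun i hi => ?_⟩
    have h1 := hx (i + 1) (by omega)
    have e : x + 1 + i = x + (i + 1) := by omega
    rw [e]
    exact h1

theorem apD_sub {M : Set (ℕ → Fin k)} {S : Set ((ℕ → Fin k) × (ℕ → Fin k))}
    (hS : CIR M S) : apD S ⊆ S := by
  intro p hp
  refine hS.mem_of_vis fun n => ?_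
  obtain ⟨g, q, hq, h⟩ := hp n
  obtain ⟨x, -, -, hx⟩ := h 0
  exact ⟨q, hq, x, hx⟩

theorem apD_cir {M : Set (ℕ → Fin k)} {S : Set ((ℕ → Fin k) × (ℕ → Fin k))}
    (hS : CIR M S) : CIR M (apD S) := by
  refine ⟨(apD_sub hS).trans hS.sub, ?_, ?_⟩
  · refine isClosed_of_closure_subset fun p hp n => ?_
    obtain ⟨p', hp', hp''⟩ := mem_closure_iff.1 hp _ (isOpen_Agree n p) (Agree_self n p)
    obtain ⟨g, q, hq, h⟩ := hp'' n
    refine ⟨g, q, hq, fun t => ?_⟩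
    obtain ⟨x, h1, h2, h3⟩ := h t
    exact ⟨x, h1, h2, h3.congr hp'⟩
  · intro p hp n
    obtain ⟨g, q, hq, h⟩ := hp (n + 1)
    refine ⟨g + 1, q, hq, fun t => ?_⟩
    obtain ⟨x, h1, h2, h3⟩ := h t
    refine ⟨x + 1, by omega, by omega, fun i hi => ?_⟩
    have h4 := h3 (i + 1) (by omega)
    have e : x + 1 + i = x + (i + 1) := by omega
    rw [e]
    exact h4

/-- monotonicity: isometric steps -/
theorem isoD_sub {M : Set (ℕ → Fin k)} {S R R' : Set ((ℕ → Fin k) × (ℕ → Fin k))}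
    (hR : ICER M R) (hI : IsoStep R R') (h : S ⊆ R) : isoD S ⊆ R' := by
  intro q hq
  refine hI q fun l => ?_
  obtain ⟨y, a, b, ha, hb, hab, x, hx⟩ := hq l
  exact ⟨(a, b), hR.trans _ _ _ (h ha) (hR.symm _ _ (h hb)), hab, x, hx⟩

/-- monotonicity: proximal steps -/
theorem apD_sub' {M : Set (ℕ → Fin k)} {S R R' : Set ((ℕ → Fin k) × (ℕ → Fin k))}
    (hR' : ICER M R') (hP : ProxStep R R') (h : S ⊆ R) : apD S ⊆ R' := by
  intro p hp
  refine hR'.cir.mem_of_vis fun n => ?_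
  obtain ⟨g, q, hq, h1⟩ := hp n
  obtain ⟨x, r, hr, hrx⟩ := hP q (h hq) (g + n)
  obtain ⟨x', h2, h3, h4⟩ := h1 x
  obtain ⟨d, rfl⟩ : ∃ d, x' = x + d := ⟨x' - x, by omega⟩
  refine ⟨r, hr, d, fun i hi => ?_⟩
  have h5 := hrx (d + i) (by omega)
  rw [h5.1, h5.2, ← Nat.add_assoc]
  exact h4 i hi

/-! ### uniformly recurrent pairs -/

/-- uniformly recurrent pairs -/
def UR (r : (ℕ → Fin k) × (ℕ → Fin k)) : Prop :=
  ∀ n, ∃ g, ∀ t, ∃ x, t ≤ x ∧ x < t + g ∧ Vis n r r x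

theorem exists_UR (p : (ℕ → Fin k) × (ℕ → Fin k)) :
    ∃ r : (ℕ → Fin k) × (ℕ → Fin k), UR r ∧ ∀ n N, ∃ x, N ≤ x ∧ Vis n r p x := by
  let e : Fin k × Fin k ≃ Fin (k * k) := finProdFinEquiv
  let c : ℕ → Fin (k * k) := fun i => e (p.1 i, p.2 i)
  obtain ⟨w, hw⟩ := MM_nonempty c
  refine ⟨(fun i => (e.symm (w i)).1, fun i => (e.symm (w i)).2), fun n => ?_, fun n N => ?_⟩
  · obtain ⟨G, hG⟩ := exists_return (MM_minimal c) hw n
    refine ⟨G, fun t => ?_⟩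
    obtain ⟨s, hs, hs'⟩ := hG _ (shift_mem (MM_shift c) hw t)
    refine ⟨t + s, by omega, by omega, fun i hi => ?_⟩
    have h1 : w (t + (s + i)) = w i := hs' i hi
    rw [← Nat.add_assoc] at h1
    simp only [h1, and_self]
  · obtain ⟨x, hx, hx'⟩ := MM_limit c w hw n N
    refine ⟨x, hx, fun i hi => ?_⟩
    have h1 : e (p.1 (x + i), p.2 (x + i)) = w i := hx' i hi
    simp only [← h1, Equiv.symm_apply_apply, and_self]

theorem UR.shift {r : (ℕ → Fin k) × (ℕ → Fin k)} (h : UR r) (s : ℕ) :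
    UR ((fun n => r.1 (s + n)), (fun n => r.2 (s + n))) := by
  intro n
  obtain ⟨g, hg⟩ := h (s + n)
  refine ⟨g, fun t => ?_⟩
  obtain ⟨x, h1, h2, h3⟩ := hg t
  refine ⟨x, h1, h2, fun i hi => ?_⟩
  have h4 := h3 (s + i) (by omega)
  show r.1 (s + (x + i)) = r.1 (s + i) ∧ r.2 (s + (x + i)) = r.2 (s + i)
  have e : s + (x + i) = x + (s + i) := by omega
  rw [e]
  exact h4

theorem UR.mem_apD {S : Set ((ℕ → Fin k) × (ℕ → Fin k))} {r : (ℕ → Fin k) × (ℕ → Fin k)}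
    (h : UR r) (hr : r ∈ S) : r ∈ apD S := by
  intro n
  obtain ⟨g, hg⟩ := h n
  exact ⟨g, r, hr, hg⟩

/-- every pair in `S` is proximal modulo `apD S` -/
theorem prox_apD {M : Set (ℕ → Fin k)} {S : Set ((ℕ → Fin k) × (ℕ → Fin k))}
    (hS : CIR M S) : ProxStep S (apD S) := by
  intro p hp m
  obtain ⟨r, hr, hrp⟩ := exists_UR p
  have h1 : r ∈ S := hS.mem_of_vis fun n => by
    obtain ⟨x, -, hx⟩ := hrp n 0
    exact ⟨p, hp, x, hx⟩
  obtain ⟨x, -, hx⟩ := hrp m 0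
  exact ⟨x, r, hr.mem_apD h1, fun i hi => ⟨(hx i hi).1.symm, (hx i hi).2.symm⟩⟩

/-! ### exact points -/

theorem CIR.near_shift {M : Set (ℕ → Fin k)} {S : Set ((ℕ → Fin k) × (ℕ → Fin k))}
    (hS : CIR M S) {a b : ℕ → Fin k} {x m n : ℕ} (h : Near S a b x (n + m)) :
    Near S a b (x + n) m := by
  obtain ⟨p, hp, h⟩ := h
  refine ⟨_, hS.shift_mem hp n, fun i hi => ?_⟩
  have := h (n + i) (by omega)
  rwa [← Nat.add_assoc] at this

/-- an exact point is related to a point proximal to `c` -/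
theorem exists_proximal' {M : Set (ℕ → Fin k)} (hM : MinimalSubshift M)
    {S : Set ((ℕ → Fin k) × (ℕ → Fin k))} (hS : CIR M S) {c y : ℕ → Fin k} (hy : y ∈ M)
    (h : Exact c S y) : ∃ a, (a, y) ∈ S ∧ Proximal a c := by
  let L : Set (Ultrafilter ℕ) := {p | (lm p c, lm p y) ∈ S}
  have hLc : IsClosed L := hS.closed.preimage ((continuous_lm c).prodMk (continuous_lm y))
  have hLl : ∀ q : Ultrafilter ℕ, ∀ p ∈ L, q + p ∈ L := by
    intro q p hp
    show (lm (q + p) c, lm (q + p) y) ∈ S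
    rw [lm_add, lm_add]
    refine mem_of_parts2 hS.closed fun l => ?_
    obtain ⟨x, hx⟩ := (lm_near (c := lm p c) (y := lm p y) (p := q) l).exists
    exact ⟨_, hS.shift_mem hp x, fun i hi => hx i hi⟩
  have hLn : L.Nonempty := by
    let G : ℕ → Set ℕ := fun m => {x | Near S c y x m}
    have hG : Antitone G := fun a b hab x hx => Near.mono hx hab
    have hne : (⨅ n, 𝓟 (G n)).NeBot := by
      refine iInf_neBot_of_directed' ?_ fun n => principal_neBot_iff.2 (h n)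
      intro a b
      exact ⟨max a b, principal_mono.2 (hG (le_max_left _ _)),
        principal_mono.2 (hG (le_max_right _ _))⟩
    refine ⟨Ultrafilter.of (⨅ n, 𝓟 (G n)), ?_⟩
    refine mem_of_parts2 hS.closed fun l => ?_
    have h1 : G l ∈ Ultrafilter.of (⨅ n, 𝓟 (G n)) :=
      Ultrafilter.of_le _ (mem_iInf_of_mem l (mem_principal_self _))
    obtain ⟨x, hx, p, hp, hpx⟩ := ((lm_near (c := c) (y := y)
      (p := Ultrafilter.of (⨅ n, 𝓟 (G n))) l).and h1).exists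
    refine ⟨p, hp, fun i hi => ?_⟩
    rw [(hpx i hi).1, (hpx i hi).2]
    exact hx i hi
  have hLy : (fun p : Ultrafilter ℕ => lm p y) '' L = M := by
    refine hM.minimal _ ?_ (hLn.image _) (hLc.isCompact.image (continuous_lm y)).isClosed ?_
    · rintro _ ⟨p, _, rfl⟩
      exact lm_mem hM.closed hM.shift p hy
    · rintro _ ⟨p, hp, rfl⟩
      refine ⟨pure 1 + p, hLl _ p hp, ?_⟩
      simp only
      rw [lm_add, lm_pure_one]
  obtain ⟨p0, hp0, hp0y⟩ : y ∈ (fun p : Ultrafilter ℕ => lm p y) '' L := hLy ▸ hy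
  let S' : Set (Ultrafilter ℕ) := L ∩ {p | lm p y = y}
  have hSc : IsClosed S' := hLc.inter (isClosed_eq (continuous_lm y) continuous_const)
  obtain ⟨u, hu, huu⟩ := exists_idempotent_in_compact_add_subsemigroup
    (fun r : Ultrafilter ℕ => Ultrafilter.continuous_add_left r) S' ⟨p0, hp0, hp0y⟩
    hSc.isCompact (by
      rintro p ⟨h1, h2⟩ q ⟨h3, h4⟩
      refine ⟨hLl p q h3, ?_⟩
      simp only [Set.mem_ofPred_eq] at h2 h4 ⊢
      rw [lm_add, h4, h2])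
  refine ⟨lm u c, ?_, fun l => ?_⟩
  · have h1 : (lm u c, lm u y) ∈ S := hu.1
    have h2 : lm u y = y := hu.2
    rwa [h2] at h1
  · have h1 : lm u (lm u c) = lm u c := by rw [← lm_add, huu]
    obtain ⟨x, hx, hx'⟩ := ((lm_spec_lt u c l).and (lm_spec_lt u (lm u c) l)).exists
    exact ⟨x, fun i hi => by rw [hx i hi, hx' i hi, h1]⟩

/-- limits of points related to `y` that agree with `c` on long intervals -/
def FZ (c : ℕ → Fin k) (S : Set ((ℕ → Fin k) × (ℕ → Fin k))) (y : ℕ → Fin k) :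
    Set (ℕ → Fin k) :=
  {z | ∀ m, ∃ y', (y', y) ∈ S ∧ (∀ i < m, y' i = z i) ∧ ∃ x, ∀ i < m, c (x + i) = y' (x + i)}

theorem FZ_nonempty {M : Set (ℕ → Fin k)} (hM : MinimalSubshift M)
    {S : Set ((ℕ → Fin k) × (ℕ → Fin k))} (hS : CIR M S) {c y : ℕ → Fin k} (hy : y ∈ M)
    (h : Exact c S y) : (FZ c S y).Nonempty := by
  obtain ⟨a, ha, hac⟩ := exists_proximal' hM hS hy h
  refine ⟨a, fun m => ⟨a, ha, fun _ _ => rfl, ?_⟩⟩
  obtain ⟨x, hx⟩ := hac m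
  exact ⟨x, fun i hi => (hx i hi).symm⟩

theorem FZ_closed {c y z : ℕ → Fin k} {S : Set ((ℕ → Fin k) × (ℕ → Fin k))}
    (h : ∀ n, ∃ w ∈ FZ c S y, ∀ i < n, w i = z i) : z ∈ FZ c S y := by
  intro m
  obtain ⟨w, hw, hwz⟩ := h m
  obtain ⟨y', h1, h2, h3⟩ := hw m
  exact ⟨y', h1, fun i hi => (h2 i hi).trans (hwz i hi), h3⟩

theorem FZ_rel {M : Set (ℕ → Fin k)} {S : Set ((ℕ → Fin k) × (ℕ → Fin k))} (hS : CIR M S)
    {c y z : ℕ → Fin k} (h : z ∈ FZ c S y) : (z, y) ∈ S :=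
  mem_of_parts2 hS.closed fun l => by
    obtain ⟨y', hy', hyz, -⟩ := h l
    exact ⟨(y', y), hy', fun i hi => ⟨(hyz i hi).symm, rfl⟩⟩

theorem FZ_exact {M : Set (ℕ → Fin k)} {S : Set ((ℕ → Fin k) × (ℕ → Fin k))} (hS : CIR M S)
    {c y z : ℕ → Fin k} (h : z ∈ FZ c S y) : Exact c (isoD S) z := by
  have hzy := FZ_rel hS h
  intro m₀
  choose y' hy' hyz x hx using h
  obtain ⟨w, hw⟩ := exists_limit (α := Fin k × Fin k)
    fun m i => (y' m (x m + i), z (x m + i))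
  have h2 : ((fun i => (w i).1), (fun i => (w i).2)) ∈ isoD S := by
    intro l
    obtain ⟨m, hm, hm'⟩ := hw l l
    refine ⟨y, y' m, z, hy' m, hzy, fun i hi => hyz m i (by omega), x m, fun i hi => ?_⟩
    simp only [← hm' i hi, and_self]
  obtain ⟨m, hm, hm'⟩ := hw m₀ m₀
  refine ⟨x m, _, h2, fun i hi => ?_⟩
  simp only [← hm' i hi, and_true]
  exact (hx m i (by omega)).symm

end Pool.Agent.Work.MP_69fea5_lc.PR
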