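import Pool.Agent.Work.MP_69fea5_lc.PR.Can

set_option autoImplicit false

/-!
# Canonical relations: computability
-/

namespace Pool.Agent.Work.MP_69fea5_lc.PR

open Pool.Agent.Work.MP_69fea5_lc
open Pool.Agent.Work.MP_69fea5_lc.PD

variable {k : ℕ}

/-! ### the next exact point -/

/-- the matrix of extendibility -/
def TZ (c y : ℕ → Fin k) (S : Set ((ℕ → Fin k) × (ℕ → Fin k))) (l w m x L : ℕ) : Prop :=
  ∃ W < k ^ (l + m + x + L), (∃ V < k ^ (l + m + x + L),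
      (∀ i < l + m + x + L, (y i : ℕ) = dig k V i) ∧ LR S (l + m + x + L) W V) ∧
    (∀ i < l, dig k W i = dig k w i) ∧ ∀ i < m, (c (x + i) : ℕ) = dig k W (x + i)

theorem ExtZ_iff {M : Set (ℕ → Fin k)} {S : Set ((ℕ → Fin k) × (ℕ → Fin k))} (hS : CIR M S)
    {c y : ℕ → Fin k} (l w : ℕ) :
    (∀ m, ∃ x, ∀ L, TZ c y S l w m x L) ↔ ∃ z ∈ FZ c S y, ∀ i < l, (z i : ℕ) = dig k w i := by
  constructor
  · intro H
    have h2 : ∀ m, ∃ z, (z, y) ∈ S ∧ (∀ i < l, (z i : ℕ) = dig k w i) ∧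
        ∃ x, ∀ i < m, c (x + i) = z (x + i) := by
      intro m
      obtain ⟨x, hx⟩ := H m
      have h1 : ∀ L, ∃ p ∈ S, (∀ i < L, p.2 i = y i) ∧ (∀ i < l, (p.1 i : ℕ) = dig k w i) ∧
          ∀ i < m, c (x + i) = p.1 (x + i) := by
        intro L
        obtain ⟨W, -, ⟨V, -, h2, p, hp, h3⟩, h4, h5⟩ := hx L
        refine ⟨p, hp, fun i hi => Fin.ext ?_, fun i hi => ?_, fun i hi => Fin.ext ?_⟩
        · rw [(h3 i (by omega)).2, h2 i (by omega)]
        · rw [(h3 i (by omega)).1, h4 i hi]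
        · rw [(h3 (x + i) (by omega)).1, h5 i hi]
      choose p hp hpy hpw hpc using h1
      obtain ⟨z, hz⟩ := exists_limit2 p
      have h3 : z.2 = y := by
        funext i
        obtain ⟨n, hn, hn'⟩ := hz (i + 1) (i + 1)
        rw [(hn' i (by omega)).2, hpy n i (by omega)]
      have h4 : z ∈ S := mem_of_parts2 hS.closed fun l => by
        obtain ⟨n, -, hn⟩ := hz l 0
        exact ⟨p n, hp n, hn⟩
      refine ⟨z.1, ?_, fun i hi => ?_, x, fun i hi => ?_⟩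
      · rw [← h3]
        exact h4
      · obtain ⟨n, -, hn'⟩ := hz l 0
        rw [(hn' i hi).1, hpw n i hi]
      · obtain ⟨n, -, hn'⟩ := hz (x + m) 0
        rw [(hn' (x + i) (by omega)).1, hpc n i hi]
    choose z hz hzw x hx using h2
    obtain ⟨z', hz'⟩ := exists_limit z
    refine ⟨z', fun m => ?_, fun i hi => ?_⟩
    · obtain ⟨n, hn, hn'⟩ := hz' m m
      exact ⟨z n, hz n, hn', x n, fun i hi => hx n i (by omega)⟩
    · obtain ⟨n, -, hn'⟩ := hz' l 0
      rw [← hn' i hi, hzw n i hi]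
  · rintro ⟨z, hz, hzw⟩ m
    obtain ⟨y', hy', hyz, x, hx⟩ := hz (l + m)
    refine ⟨x, fun L => ⟨num k y' _, num_lt _ _, ⟨num k y _, num_lt _ _, fun i hi =>
      (dig_num y hi).symm, (y', y), hy', fun i hi => ⟨(dig_num y' hi).symm,
        (dig_num y hi).symm⟩⟩, fun i hi => ?_, fun i hi => ?_⟩⟩
    · rw [dig_num y' (by omega), hyz i (by omega), hzw i hi]
    · rw [dig_num y' (by omega), hx i (by omega)]

section

variable {α : Type*} [Primcodable α] {c y : ℕ → Fin k} {D : Set ℕ}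
  {S : Set ((ℕ → Fin k) × (ℕ → Fin k))}

theorem RP.TZ {l w m x L : α → ℕ} (hl : Primrec l) (hw : Primrec w) (hm : Primrec m)
    (hx : Primrec x) (hL : Primrec L) :
    RP (g4 (gr c) (gr y) (langRel S) D) fun a =>
      PR.TZ c y S (l a) (w a) (m a) (x a) (L a) := by
  unfold PR.TZ
  have hB : Primrec fun a => l a + m a + x a + L a :=
    Primrec.nat_add.comp (Primrec.nat_add.comp (Primrec.nat_add.comp hl hm) hx) hL
  have hkB : Primrec fun a => k ^ (l a + m a + x a + L a) := (pow_prim k).comp hB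
  refine RP.bex (p := fun W a => (∃ V < k ^ (l a + m a + x a + L a),
      (∀ i < l a + m a + x a + L a, (y i : ℕ) = dig k V i) ∧
        PR.LR S (l a + m a + x a + L a) W V) ∧
    (∀ i < l a, dig k W i = dig k (w a) i) ∧
      ∀ i < m a, (c (x a + i) : ℕ) = dig k W (x a + i)) ?_ hkB
  refine RP.and ?_ (RP.and ?_ ?_)
  · refine RP.bex (α := ℕ × α) (p := fun V u =>
      (∀ i < l u.2 + m u.2 + x u.2 + L u.2, (y i : ℕ) = dig k V i) ∧
        PR.LR S (l u.2 + m u.2 + x u.2 + L u.2) u.1 V) ?_ (hkB.comp Primrec.snd)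
    refine RP.and ?_ ?_
    · refine RP.ball (α := ℕ × ℕ × α) (p := fun i u => (y i : ℕ) = dig k u.1 i) ?_
        (hB.comp (Primrec.snd.comp Primrec.snd))
      exact (RP.m2 (Primrec₂.natPair.comp Primrec.fst ((dig_prim k).comp
        (Primrec.fst.comp Primrec.snd) Primrec.fst))).congr fun _ => mem_gr
    · exact (RP.m3 (Primrec₂.natPair.comp (hB.comp (Primrec.snd.comp Primrec.snd))
        (Primrec₂.natPair.comp (Primrec.fst.comp Primrec.snd) Primrec.fst))).congr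
          fun _ => mem_langRel
  · exact RP.digs0 (hl.comp Primrec.snd) Primrec.fst (hw.comp Primrec.snd)
  · refine RP.ball (α := ℕ × α) (p := fun i u =>
        (c (x u.2 + i) : ℕ) = dig k u.1 (x u.2 + i)) ?_ (hm.comp Primrec.snd)
    have h1 : Primrec fun u : ℕ × ℕ × α => x u.2.2 + u.1 :=
      Primrec.nat_add.comp (hx.comp (Primrec.snd.comp Primrec.snd)) Primrec.fst
    exact (RP.m1 (Primrec₂.natPair.comp h1 ((dig_prim k).comp (Primrec.fst.comp Primrec.snd)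
      h1))).congr fun _ => mem_gr

end

/-- **The canonical isometric step.** -/
theorem can_iso_step {O : Set (ℕ →. ℕ)} {M : Set (ℕ → Fin k)} (hM : MinimalSubshift M)
    {S : Set ((ℕ → Fin k) × (ℕ → Fin k))} (hS : CIR M S) {c y : ℕ → Fin k} (hy : y ∈ M)
    (hyS : Exact c S y) (hc : Nat.RecursiveIn O (charFn (gr c)))
    (hyr : Nat.RecursiveIn O (charFn (gr y))) (hL : Nat.RecursiveIn O (charFn (langRel S))) :
    ∃ z ∈ M, Exact c (isoD S) z ∧ Nat.RecursiveIn (jumpTwo (jumpTwo O)) (charFn (gr z)) := by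
  obtain ⟨z, h1, h2⟩ := exists_lexmin (FZ_nonempty hM hS hy hyS)
  have h3 : z ∈ FZ c S y := FZ_closed h1
  refine ⟨z, (hS.sub (FZ_rel hS h3)).1, FZ_exact hS h3, ?_⟩
  refine graph_rec (S := {n | ∃ m, ∀ x, ∃ L, ¬ TZ c y S n.unpair.1 n.unpair.2 m x L}) ?_
    fun n q => ?_
  · refine sigmaTwo_rec (P := fun n m x => ∃ L, ¬ TZ c y S n.unpair.1 n.unpair.2 m x L) ?_
    refine sigmaOne_rec (P := fun p L => ¬ TZ c y S p.unpair.1.unpair.1 p.unpair.1.unpair.2
      p.unpair.2.unpair.1 p.unpair.2.unpair.2 L) ?_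
    refine RP.recNat (RP.not (RP.TZ ?_ ?_ ?_ ?_ ?_)) (g4_rec hc hyr hL hL)
    · exact Primrec.fst.comp (Primrec.unpair.comp (Primrec.fst.comp (Primrec.unpair.comp
        (Primrec.fst.comp Primrec.unpair))))
    · exact Primrec.snd.comp (Primrec.unpair.comp (Primrec.fst.comp (Primrec.unpair.comp
        (Primrec.fst.comp Primrec.unpair))))
    · exact Primrec.fst.comp (Primrec.unpair.comp (Primrec.snd.comp (Primrec.unpair.comp
        (Primrec.fst.comp Primrec.unpair))))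
    · exact Primrec.snd.comp (Primrec.unpair.comp (Primrec.snd.comp (Primrec.unpair.comp
        (Primrec.fst.comp Primrec.unpair))))
    · exact Primrec.snd.comp Primrec.unpair
  · refine Lm_iff (F := FZ c S y) (fun l w => ?_) h1 h2 n q
    rw [← ExtZ_iff hS]
    simp only [Set.mem_ofPred_eq, Nat.unpair_pair]
    push Not
    rfl

/-! ### the languages -/

/-- the matrix for `isoD` -/
def IM (S : Set ((ℕ → Fin k) × (ℕ → Fin k))) (n v w l x L : ℕ) : Prop :=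
  ∃ A < k ^ (n + l + x + L), ∃ B < k ^ (n + l + x + L),
    (∃ Y < k ^ (n + l + x + L), LR S (n + l + x + L) A Y ∧ LR S (n + l + x + L) B Y) ∧
    (∀ i < l, dig k A i = dig k B i) ∧ (∀ i < n, dig k A (x + i) = dig k v i) ∧
    ∀ i < n, dig k B (x + i) = dig k w i

theorem LR_isoD {M : Set (ℕ → Fin k)} {S : Set ((ℕ → Fin k) × (ℕ → Fin k))} (hS : CIR M S)
    (n v w : ℕ) : LR (isoD S) n v w ↔ ∀ l, ∃ x, ∀ L, IM S n v w l x L := by
  constructor
  · rintro ⟨q, hq, hqv⟩ l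
    obtain ⟨y, a, b, ha, hb, hab, x, hx⟩ := hq (n + l)
    refine ⟨x, fun L => ⟨num k a _, num_lt _ _, num k b _, num_lt _ _, ⟨num k y _, num_lt _ _,
      ⟨(a, y), ha, fun i hi => ⟨(dig_num a hi).symm, (dig_num y hi).symm⟩⟩,
      ⟨(b, y), hb, fun i hi => ⟨(dig_num b hi).symm, (dig_num y hi).symm⟩⟩⟩,
      fun i hi => ?_, fun i hi => ?_, fun i hi => ?_⟩⟩
    · rw [dig_num a (by omega), dig_num b (by omega), hab i (by omega)]
    · rw [dig_num a (by omega), ← (hqv i hi).1]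
      exact congrArg Fin.val (hx i (by omega)).1
    · rw [dig_num b (by omega), ← (hqv i hi).2]
      exact congrArg Fin.val (hx i (by omega)).2
  · intro H
    have h1 : ∀ l, ∃ y a b, (a, y) ∈ S ∧ (b, y) ∈ S ∧ (∀ i < l, a i = b i) ∧
        ∃ x, ∀ i < n, (a (x + i) : ℕ) = dig k v i ∧ (b (x + i) : ℕ) = dig k w i := by
      intro l
      obtain ⟨x, hx⟩ := H l
      have h2 : ∀ L, ∃ p ∈ S, ∃ q ∈ S, (∀ i < L, p.2 i = q.2 i) ∧ (∀ i < l, p.1 i = q.1 i) ∧
          ∀ i < n, (p.1 (x + i) : ℕ) = dig k v i ∧ (q.1 (x + i) : ℕ) = dig k w i := by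
        intro L
        obtain ⟨A, -, B, -, ⟨Y, -, ⟨p, hp, hpA⟩, ⟨q, hq, hqB⟩⟩, h3, h4, h5⟩ := hx L
        refine ⟨p, hp, q, hq, fun i hi => Fin.ext ?_, fun i hi => Fin.ext ?_,
          fun i hi => ⟨?_, ?_⟩⟩
        · rw [(hpA i (by omega)).2, (hqB i (by omega)).2]
        · rw [(hpA i (by omega)).1, (hqB i (by omega)).1, h3 i hi]
        · rw [(hpA (x + i) (by omega)).1, h4 i hi]
        · rw [(hqB (x + i) (by omega)).1, h5 i hi]
      choose p hp q hq h3 h4 h5 using h2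
      obtain ⟨u, hu⟩ := exists_limit (α := (Fin k × Fin k) × (Fin k × Fin k))
        fun L i => (((p L).1 i, (p L).2 i), ((q L).1 i, (q L).2 i))
      have hy : (fun i => (u i).1.2) = fun i => (u i).2.2 := by
        funext i
        obtain ⟨L, hL, hL'⟩ := hu (i + 1) (i + 1)
        rw [← hL' i (by omega)]
        exact h3 L i (by omega)
      refine ⟨fun i => (u i).1.2, fun i => (u i).1.1, fun i => (u i).2.1, ?_, ?_, ?_, x, ?_⟩
      · refine mem_of_parts2 hS.closed fun l => ?_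
        obtain ⟨L, -, hL'⟩ := hu l 0
        refine ⟨p L, hp L, fun i hi => ?_⟩
        simp only [← hL' i hi, and_self]
      · rw [hy]
        refine mem_of_parts2 hS.closed fun l => ?_
        obtain ⟨L, -, hL'⟩ := hu l 0
        refine ⟨q L, hq L, fun i hi => ?_⟩
        simp only [← hL' i hi, and_self]
      · intro i hi
        obtain ⟨L, -, hL'⟩ := hu (i + 1) 0
        simp only [← hL' i (by omega)]
        exact h4 L i hi
      · intro i hi
        obtain ⟨L, -, hL'⟩ := hu (x + n) 0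
        simp only [← hL' (x + i) (by omega)]
        exact h5 L i hi
    choose y a b ha hb hab x hx using h1
    obtain ⟨z, hz⟩ := exists_limit2 fun l =>
      ((fun i => a l (x l + i)), (fun i => b l (x l + i)))
    refine ⟨z, fun l => ?_, fun i hi => ?_⟩
    · obtain ⟨m, hm, hm'⟩ := hz l l
      exact ⟨y m, a m, b m, ha m, hb m, fun i hi => hab m i (by omega), x m,
        fun i hi => ⟨(hm' i hi).1.symm, (hm' i hi).2.symm⟩⟩
    · obtain ⟨m, -, hm'⟩ := hz n 0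
      rw [(hm' i hi).1, (hm' i hi).2]
      exact hx m i hi

/-- the matrix for `apD` -/
def AM (S : Set ((ℕ → Fin k) × (ℕ → Fin k))) (n v w g N : ℕ) : Prop :=
  ∃ V < k ^ N, ∃ W < k ^ N, LR S N V W ∧ ∀ t < N + 1, t + g + n ≤ N → ∃ x < N + 1,
    (t ≤ x ∧ x < t + g) ∧ (∀ i < n, dig k V (x + i) = dig k v i) ∧
      ∀ i < n, dig k W (x + i) = dig k w i

theorem LR_apD {M : Set (ℕ → Fin k)} {S : Set ((ℕ → Fin k) × (ℕ → Fin k))} (hS : CIR M S)
    (n v w : ℕ) : LR (apD S) n v w ↔ ∃ g, ∀ N, AM S n v w g N := by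
  constructor
  · rintro ⟨p, hp, hpv⟩
    obtain ⟨g, q, hq, h⟩ := hp n
    refine ⟨g, fun N => ⟨num k q.1 N, num_lt _ _, num k q.2 N, num_lt _ _,
      ⟨q, hq, fun i hi => ⟨(dig_num _ hi).symm, (dig_num _ hi).symm⟩⟩, fun t ht htN => ?_⟩⟩
    obtain ⟨x, h1, h2, h3⟩ := h t
    refine ⟨x, by omega, ⟨h1, h2⟩, fun i hi => ?_, fun i hi => ?_⟩
    · rw [dig_num q.1 (by omega), (h3 i hi).1, (hpv i hi).1]
    · rw [dig_num q.2 (by omega), (h3 i hi).2, (hpv i hi).2]
  · rintro ⟨g, H⟩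
    have h1 : ∀ N, ∃ q ∈ S, ∀ t, t + g + n ≤ N → ∃ x, t ≤ x ∧ x < t + g ∧
        ∀ i < n, (q.1 (x + i) : ℕ) = dig k v i ∧ (q.2 (x + i) : ℕ) = dig k w i := by
      intro N
      obtain ⟨V, -, W, -, ⟨q, hq, hqV⟩, h⟩ := H N
      refine ⟨q, hq, fun t ht => ?_⟩
      obtain ⟨x, -, ⟨h2, h3⟩, h4, h5⟩ := h t (by omega) ht
      refine ⟨x, h2, h3, fun i hi => ⟨?_, ?_⟩⟩
      · rw [(hqV (x + i) (by omega)).1, h4 i hi]
      · rw [(hqV (x + i) (by omega)).2, h5 i hi]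
    choose q hq hqt using h1
    obtain ⟨z, hz⟩ := exists_limit2 q
    have hzS : z ∈ S := mem_of_parts2 hS.closed fun l => by
      obtain ⟨n, -, hn⟩ := hz l 0
      exact ⟨q n, hq n, hn⟩
    have h2 : ∀ t, ∃ x, t ≤ x ∧ x < t + g ∧
        ∀ i < n, (z.1 (x + i) : ℕ) = dig k v i ∧ (z.2 (x + i) : ℕ) = dig k w i := by
      intro t
      obtain ⟨N, hN, hN'⟩ := hz (t + g + n) (t + g + n)
      obtain ⟨x, h3, h4, h5⟩ := hqt N t hN
      refine ⟨x, h3, h4, fun i hi => ?_⟩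
      rw [(hN' (x + i) (by omega)).1, (hN' (x + i) (by omega)).2]
      exact h5 i hi
    obtain ⟨r, hr, hrz⟩ := exists_UR z
    have hrS : r ∈ S := hS.mem_of_vis fun n => by
      obtain ⟨x, -, hx⟩ := hrz n 0
      exact ⟨z, hzS, x, hx⟩
    obtain ⟨j, -, hj⟩ := hrz (g + n) 0
    obtain ⟨x, h3, h4, h5⟩ := h2 j
    obtain ⟨d, rfl⟩ : ∃ d, x = j + d := ⟨x - j, by omega⟩
    refine ⟨_, (hr.shift d).mem_apD (hS.shift_mem hrS d), fun i hi => ?_⟩
    have h6 := hj (d + i) (by omega)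
    have h7 := h5 i hi
    rw [Nat.add_assoc] at h7
    show (r.1 (d + i) : ℕ) = dig k v i ∧ (r.2 (d + i) : ℕ) = dig k w i
    rw [← h6.1, ← h6.2]
    exact h7

section

variable {α : Type*} [Primcodable α] {S : Set ((ℕ → Fin k) × (ℕ → Fin k))}

theorem RP.IM {n v w l x L : α → ℕ} (hn : Primrec n) (hv : Primrec v) (hw : Primrec w)
    (hl : Primrec l) (hx : Primrec x) (hL : Primrec L) :
    RP (PR.ind (langRel S)) fun a => PR.IM S (n a) (v a) (w a) (l a) (x a) (L a) := by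
  unfold PR.IM
  have hB : Primrec fun a => n a + l a + x a + L a :=
    Primrec.nat_add.comp (Primrec.nat_add.comp (Primrec.nat_add.comp hn hl) hx) hL
  have hkB : Primrec fun a => k ^ (n a + l a + x a + L a) := (pow_prim k).comp hB
  refine RP.bex (p := fun A a => ∃ B < k ^ (n a + l a + x a + L a),
    (∃ Y < k ^ (n a + l a + x a + L a), PR.LR S (n a + l a + x a + L a) A Y ∧
      PR.LR S (n a + l a + x a + L a) B Y) ∧
    (∀ i < l a, dig k A i = dig k B i) ∧ (∀ i < n a, dig k A (x a + i) = dig k (v a) i) ∧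
    ∀ i < n a, dig k B (x a + i) = dig k (w a) i) ?_ hkB
  refine RP.bex (α := ℕ × α) (p := fun B u =>
    (∃ Y < k ^ (n u.2 + l u.2 + x u.2 + L u.2),
      PR.LR S (n u.2 + l u.2 + x u.2 + L u.2) u.1 Y ∧
      PR.LR S (n u.2 + l u.2 + x u.2 + L u.2) B Y) ∧
    (∀ i < l u.2, dig k u.1 i = dig k B i) ∧
    (∀ i < n u.2, dig k u.1 (x u.2 + i) = dig k (v u.2) i) ∧
    ∀ i < n u.2, dig k B (x u.2 + i) = dig k (w u.2) i) ?_ (hkB.comp Primrec.snd)
  have h1 : Primrec fun x : ℕ × ℕ × α => x.2.1 := Primrec.fst.comp Primrec.snd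
  have h2 : Primrec fun x : ℕ × ℕ × α => x.2.2 := Primrec.snd.comp Primrec.snd
  refine RP.and ?_ (RP.and (RP.digs0 (hl.comp h2) h1 Primrec.fst) (RP.and ?_ ?_))
  · refine RP.bex (α := ℕ × ℕ × α) (p := fun Y u =>
      PR.LR S (n u.2.2 + l u.2.2 + x u.2.2 + L u.2.2) u.2.1 Y ∧
      PR.LR S (n u.2.2 + l u.2.2 + x u.2.2 + L u.2.2) u.1 Y) ?_ (hkB.comp h2)
    exact RP.and (RP.LR (hB.comp (h2.comp Primrec.snd)) (h1.comp Primrec.snd) Primrec.fst)
      (RP.LR (hB.comp (h2.comp Primrec.snd)) (Primrec.fst.comp Primrec.snd) Primrec.fst)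
  · exact RP.digs (hn.comp h2) h1 (hv.comp h2) (hx.comp h2)
  · exact RP.digs (hn.comp h2) Primrec.fst (hw.comp h2) (hx.comp h2)

theorem RP.AM {n v w g N : α → ℕ} (hn : Primrec n) (hv : Primrec v) (hw : Primrec w)
    (hg : Primrec g) (hN : Primrec N) :
    RP (PR.ind (langRel S)) fun a => PR.AM S (n a) (v a) (w a) (g a) (N a) := by
  unfold PR.AM
  have hkN : Primrec fun a => k ^ (N a) := (pow_prim k).comp hN
  refine RP.bex (p := fun V a => ∃ W < k ^ (N a), PR.LR S (N a) V W ∧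
    ∀ t < N a + 1, t + g a + n a ≤ N a → ∃ x < N a + 1,
    (t ≤ x ∧ x < t + g a) ∧ (∀ i < n a, dig k V (x + i) = dig k (v a) i) ∧
      ∀ i < n a, dig k W (x + i) = dig k (w a) i) ?_ hkN
  refine RP.bex (α := ℕ × α) (p := fun W u => PR.LR S (N u.2) u.1 W ∧
    ∀ t < N u.2 + 1, t + g u.2 + n u.2 ≤ N u.2 → ∃ x < N u.2 + 1,
    (t ≤ x ∧ x < t + g u.2) ∧ (∀ i < n u.2, dig k u.1 (x + i) = dig k (v u.2) i) ∧
      ∀ i < n u.2, dig k W (x + i) = dig k (w u.2) i) ?_ (hkN.comp Primrec.snd)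
  have h1 : Primrec fun x : ℕ × ℕ × α => x.2.1 := Primrec.fst.comp Primrec.snd
  have h2 : Primrec fun x : ℕ × ℕ × α => x.2.2 := Primrec.snd.comp Primrec.snd
  refine RP.and (RP.LR (hN.comp h2) h1 Primrec.fst) ?_
  refine RP.ball (α := ℕ × ℕ × α) (p := fun t u =>
    t + g u.2.2 + n u.2.2 ≤ N u.2.2 → ∃ x < N u.2.2 + 1,
    (t ≤ x ∧ x < t + g u.2.2) ∧ (∀ i < n u.2.2, dig k u.2.1 (x + i) = dig k (v u.2.2) i) ∧
      ∀ i < n u.2.2, dig k u.1 (x + i) = dig k (w u.2.2) i) ?_ (Primrec.succ.comp (hN.comp h2))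
  have h3 : Primrec fun u : ℕ × ℕ × ℕ × α => u.2.2.2 :=
    Primrec.snd.comp (Primrec.snd.comp Primrec.snd)
  refine RP.imp (RP.le (Primrec.nat_add.comp (Primrec.nat_add.comp Primrec.fst (hg.comp h3))
    (hn.comp h3)) (hN.comp h3)) ?_
  refine RP.bex (α := ℕ × ℕ × ℕ × α) (p := fun x u =>
    (u.1 ≤ x ∧ x < u.1 + g u.2.2.2) ∧
    (∀ i < n u.2.2.2, dig k u.2.2.1 (x + i) = dig k (v u.2.2.2) i) ∧
      ∀ i < n u.2.2.2, dig k u.2.1 (x + i) = dig k (w u.2.2.2) i) ?_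
      (Primrec.succ.comp (hN.comp h3))
  have h4 : Primrec fun u : ℕ × ℕ × ℕ × ℕ × α => u.2.2.2.2 := h3.comp Primrec.snd
  have h5 : Primrec fun u : ℕ × ℕ × ℕ × ℕ × α => u.2.1 := Primrec.fst.comp Primrec.snd
  refine RP.and (RP.and (RP.le h5 Primrec.fst) (RP.lt Primrec.fst (Primrec.nat_add.comp h5
    (hg.comp h4)))) (RP.and ?_ ?_)
  · exact RP.digs (hn.comp h4) (Primrec.fst.comp (Primrec.snd.comp (Primrec.snd.comp
      Primrec.snd))) (hv.comp h4) Primrec.fst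
  · exact RP.digs (hn.comp h4) (Primrec.fst.comp (Primrec.snd.comp Primrec.snd)) (hw.comp h4)
      Primrec.fst

end

theorem isoD_rec {O : Set (ℕ →. ℕ)} {M : Set (ℕ → Fin k)}
    {S : Set ((ℕ → Fin k) × (ℕ → Fin k))} (hS : CIR M S)
    (h : Nat.RecursiveIn O (charFn (langRel S))) :
    Nat.RecursiveIn (jumpTwo (jumpTwo O)) (charFn (langRel (isoD S))) := by
  refine compl_rec ?_
  have h1 : (langRel (isoD S))ᶜ = {n | ∃ l, ∀ x, ∃ L, ¬ IM S n.unpair.1 n.unpair.2.unpair.1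
      n.unpair.2.unpair.2 l x L} := by
    ext n
    show ¬ LR (isoD S) _ _ _ ↔ _
    rw [LR_isoD hS]
    push Not
    rfl
  rw [h1]
  refine sigmaTwo_rec (P := fun n l x => ∃ L, ¬ IM S n.unpair.1 n.unpair.2.unpair.1
      n.unpair.2.unpair.2 l x L) ?_
  refine sigmaOne_rec (P := fun p L => ¬ IM S p.unpair.1.unpair.1 p.unpair.1.unpair.2.unpair.1
      p.unpair.1.unpair.2.unpair.2 p.unpair.2.unpair.1 p.unpair.2.unpair.2 L) ?_
  have f : Primrec fun p : ℕ => p.unpair.1.unpair.1 :=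
    Primrec.fst.comp (Primrec.unpair.comp (Primrec.fst.comp Primrec.unpair))
  have f' : Primrec fun p : ℕ => p.unpair.1.unpair.2 :=
    Primrec.snd.comp (Primrec.unpair.comp (Primrec.fst.comp Primrec.unpair))
  refine RP.recNat (RP.not (RP.IM ?_ ?_ ?_ ?_ ?_ ?_)) (ind_rec.1 h)
  · exact Primrec.fst.comp (Primrec.unpair.comp f)
  · exact Primrec.fst.comp (Primrec.unpair.comp (Primrec.snd.comp (Primrec.unpair.comp f)))
  · exact Primrec.snd.comp (Primrec.unpair.comp (Primrec.snd.comp (Primrec.unpair.comp f)))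
  · exact Primrec.fst.comp (Primrec.unpair.comp f')
  · exact Primrec.snd.comp (Primrec.unpair.comp f')
  · exact Primrec.snd.comp Primrec.unpair

theorem apD_rec {O : Set (ℕ →. ℕ)} {M : Set (ℕ → Fin k)}
    {S : Set ((ℕ → Fin k) × (ℕ → Fin k))} (hS : CIR M S)
    (h : Nat.RecursiveIn O (charFn (langRel S))) :
    Nat.RecursiveIn (jumpTwo O) (charFn (langRel (apD S))) := by
  have h1 : langRel (apD S) = {n | ∃ g, ∀ N, AM S n.unpair.1 n.unpair.2.unpair.1
      n.unpair.2.unpair.2 g N} := by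
    ext n
    exact LR_apD hS _ _ _
  rw [h1]
  refine sigmaTwo_rec (P := fun n g N => AM S n.unpair.1 n.unpair.2.unpair.1
      n.unpair.2.unpair.2 g N) ?_
  have f : Primrec fun p : ℕ => p.unpair.1 := Primrec.fst.comp Primrec.unpair
  have f' : Primrec fun p : ℕ => p.unpair.2 := Primrec.snd.comp Primrec.unpair
  refine RP.recNat (RP.AM ?_ ?_ ?_ ?_ ?_) (ind_rec.1 h)
  · exact f.comp f
  · exact f.comp (f'.comp f)
  · exact f'.comp (f'.comp f)
  · exact f.comp f'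
  · exact f'.comp f'

end Pool.Agent.Work.MP_69fea5_lc.PR
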