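import Pool.Agent.Work.MP_69fea5_lc.PR.CanC

set_option autoImplicit false

/-!
# Minimal limit systems with a finite tower: no effectivity assumption
-/

namespace Pool.Agent.Work.MP_69fea5_lc.PR

open Pool.Agent.Work.MP_69fea5_lc
open Pool.Agent.Work.MP_69fea5_lc.PD

variable {k : ℕ}

open Classical in
/-- the canonical relations; `τ i` tells whether the step `i` is isometric -/
noncomputable def can (M : Set (ℕ → Fin k)) (τ : ℕ → Prop) :
    ℕ → Set ((ℕ → Fin k) × (ℕ → Fin k))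
  | 0 => M ×ˢ M
  | i + 1 => if τ i then isoD (can M τ i) else apD (can M τ i)

open Classical in
theorem can_succ (M : Set (ℕ → Fin k)) (τ : ℕ → Prop) (i : ℕ) :
    can M τ (i + 1) = if τ i then isoD (can M τ i) else apD (can M τ i) := rfl

theorem can_cir {M : Set (ℕ → Fin k)} (hM : IsClosed M)
    (hT : ∀ z ∈ M, (fun n => z (n + 1)) ∈ M) (τ : ℕ → Prop) (i : ℕ) : CIR M (can M τ i) := by
  classical
  induction i with
  | zero => exact (ICER_prod hM hT).cir
  | succ i ih =>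
    rw [can_succ]
    split_ifs with h
    · exact isoD_cir hM hT ih
    · exact apD_cir ih

/-- A tower of height `n` of proximal and isometric steps, with a proximal step at the top. -/
def Tower (M : Set (ℕ → Fin k)) (n : ℕ) : Prop :=
  ∃ R : ℕ → Set ((ℕ → Fin k) × (ℕ → Fin k)), R 0 = M ×ˢ M ∧ (∀ i ≤ n, ICER M (R i)) ∧
    (∀ i < n, IsoStep (R i) (R (i + 1)) ∨ ProxStep (R i) (R (i + 1))) ∧
    ∀ p ∈ R n, Proximal p.1 p.2

theorem Tower.can {M : Set (ℕ → Fin k)} {n : ℕ} (h : Tower M n) :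
    ∃ τ : ℕ → Prop, ∀ p ∈ PR.can M τ n, Proximal p.1 p.2 := by
  classical
  obtain ⟨R, h0, hR, hstep, hn⟩ := h
  refine ⟨fun i => IsoStep (R i) (R (i + 1)), ?_⟩
  have key : ∀ i ≤ n, PR.can M (fun i => IsoStep (R i) (R (i + 1))) i ⊆ R i := by
    intro i
    induction i with
    | zero => intro _; rw [h0]; exact le_rfl
    | succ i ih =>
      intro hi
      rw [can_succ]
      split_ifs with hI
      · exact isoD_sub (hR i (by omega)) hI (ih (by omega))
      · exact apD_sub' (hR (i + 1) hi) ((hstep i (by omega)).resolve_left hI) (ih (by omega))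
  exact fun p hp => hn p (key n le_rfl hp)

/-- **Main theorem.** -/
theorem can_main {O : Set (ℕ →. ℕ)} {c : ℕ → Fin k} {M : Set (ℕ → Fin k)}
    (hM : MinimalSubshift M) (hcM : ∀ z ∈ M, ∀ l N, ∃ x, N ≤ x ∧ ∀ i < l, c (x + i) = z i)
    (hc : Nat.RecursiveIn O (charFn (gr c))) (hL : Nat.RecursiveIn O (charFn (language M)))
    (τ : ℕ → Prop) (n : ℕ) (hn : ∀ p ∈ can M τ n, Proximal p.1 p.2) :
    ∃ X : Set ℕ, (X.Infinite ∧ (∀ x ∈ X, 0 < x) ∧
      ∃ i, ∀ F : Finset ℕ, F.Nonempty → (↑F : Set ℕ) ⊆ X → c (∑ x ∈ F, x) = i) ∧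
      RecursiveIn (jumpTwo^[2 * n] O) (charFn X) := by
  classical
  have hS := fun i => can_cir hM.closed hM.shift τ i
  have key : ∀ i, (∃ y ∈ M, Exact c (can M τ i) y ∧
      Nat.RecursiveIn (jumpTwo^[2 * i] O) (charFn (gr y))) ∧
      Nat.RecursiveIn (jumpTwo^[2 * i] O) (charFn (langRel (can M τ i))) := by
    intro i
    induction i with
    | zero =>
      have hL0 : Nat.RecursiveIn O (charFn (langRel (M ×ˢ M))) := prod_rec hL
      refine ⟨?_, hL0⟩
      obtain ⟨y, hy, hyr⟩ := exists_point (O := O) hM.nonempty hM.closed hL0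
      refine ⟨y, hy, fun m => ?_, hyr⟩
      obtain ⟨z, hz⟩ := hM.nonempty
      obtain ⟨x, -, hx⟩ := hcM z hz m 0
      exact ⟨x, (z, fun n => y (x + n)), ⟨hz, shift_mem hM.shift hy x⟩,
        fun i hi => ⟨(hx i hi).symm, rfl⟩⟩
    | succ i ih =>
      obtain ⟨⟨y, hy, hyS, hyr⟩, hLi⟩ := ih
      have e : jumpTwo^[2 * (i + 1)] O = jumpTwo (jumpTwo (jumpTwo^[2 * i] O)) := by
        have e1 : 2 * (i + 1) = 2 * i + 1 + 1 := by ring
        rw [e1, Function.iterate_succ_apply', Function.iterate_succ_apply']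
      rw [e, can_succ]
      split_ifs with hI
      · exact ⟨can_iso_step hM (hS i) hy hyS (iter_up hc _) hyr hLi, isoD_rec (hS i) hLi⟩
      · exact ⟨⟨y, hy, hyS.prox (hS i).closed (prox_apD (hS i)), up_set (up_set hyr)⟩,
          up_set (apD_rec (hS i) hLi)⟩
  obtain ⟨⟨y, hy, hyS, hyr⟩, -⟩ := key n
  have hyc : Proximal y c := by
    have h1 : Exact c {p : (ℕ → Fin k) × (ℕ → Fin k) | p.1 = p.2} y :=
      hyS.prox (hS n).closed fun p hp m => by
        obtain ⟨x, hx⟩ := hn p hp m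
        exact ⟨x, ((fun n => p.1 (x + n)), (fun n => p.1 (x + n))), rfl,
          fun i hi => ⟨rfl, hx i hi⟩⟩
    intro l
    obtain ⟨x, p, hp, hpx⟩ := h1 l
    refine ⟨x, fun i hi => ?_⟩
    have hp' : p.1 = p.2 := hp
    rw [← (hpx i hi).1, ← (hpx i hi).2, hp']
  refine ⟨XX c y, XX_sol (Sol_of_proximal hM hy hyc), RecursiveIn.iff_nat.2 (XX_rec ?_ hyr)⟩
  exact iter_up hc _

/-- **Colourings whose minimal limit systems have finite towers.** -/
theorem tower_free (c : ℕ → Fin k) (n : ℕ) (h : Tower (MM c) n) :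
    ∃ X : Set ℕ, (X.Infinite ∧ (∀ x ∈ X, 0 < x) ∧
      ∃ i, ∀ F : Finset ℕ, F.Nonempty → (↑F : Set ℕ) ⊆ X → c (∑ x ∈ F, x) = i) ∧
      RecursiveIn (jumpTwo^[2 * n + 1] (orc c)) (charFn X) := by
  obtain ⟨τ, hτ⟩ := h.can
  obtain ⟨X, hX, hr⟩ := can_main (O := jumpTwo (orc c)) (MM_minimal c) (MM_limit c)
    (up_set (gr_rec (orc_rec c))) (MM_language c) τ n hτ
  refine ⟨X, hX, ?_⟩
  rw [Function.iterate_succ_apply]
  exact hr

end Pool.Agent.Work.MP_69fea5_lc.PR
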