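import Pool.Agent.Work.MP_69fea5_lc.PR.GreedyC

set_option autoImplicit false

/-!
# Derived relations (regionally proximal pairs, iterated)
-/

namespace Pool.Agent.Work.MP_69fea5_lc.PR

open Pool.Agent.Work.MP_69fea5_lc Filter Topology
open Pool.Agent.Work.MP_69fea5_lc.PD

variable {k : ℕ}

/-- the points of `R` whose first `n` pairs of values are given by `p` -/
def Agree (n : ℕ) (p q : (ℕ → Fin k) × (ℕ → Fin k)) : Prop :=
  ∀ i < n, p.1 i = q.1 i ∧ p.2 i = q.2 i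

/-- the derived relation: limits of pairs in `R` that agree on longer and longer intervals -/
def der (R : Set ((ℕ → Fin k) × (ℕ → Fin k))) : Set ((ℕ → Fin k) × (ℕ → Fin k)) :=
  {p | ∀ l n, ∃ q ∈ R, Agree n p q ∧ ∃ x, ∀ i < l, q.1 (x + i) = q.2 (x + i)}

/-- the iterated derived relations -/
def derN (M : Set (ℕ → Fin k)) : ℕ → Set ((ℕ → Fin k) × (ℕ → Fin k))
  | 0 => M ×ˢ M
  | j + 1 => der (derN M j)

theorem exists_limit2 (a : ℕ → (ℕ → Fin k) × (ℕ → Fin k)) :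
    ∃ z : (ℕ → Fin k) × (ℕ → Fin k), ∀ l N, ∃ n, N ≤ n ∧ Agree l z (a n) := by
  obtain ⟨z, hz⟩ := exists_limit (α := Fin k × Fin k) fun n i => ((a n).1 i, (a n).2 i)
  refine ⟨(fun i => (z i).1, fun i => (z i).2), fun l N => ?_⟩
  obtain ⟨n, hn, hn'⟩ := hz l N
  refine ⟨n, hn, fun i hi => ?_⟩
  have := hn' i hi
  simp only [← this, and_self]

theorem mem_of_parts2 {R : Set ((ℕ → Fin k) × (ℕ → Fin k))} (hR : IsClosed R)
    {z : (ℕ → Fin k) × (ℕ → Fin k)} (h : ∀ l, ∃ w ∈ R, Agree l z w) : z ∈ R := by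
  choose a ha haz using h
  have ht1 : Tendsto (fun n => (a n).1) atTop (𝓝 z.1) := by
    rw [tendsto_pi_nhds]
    intro i
    refine tendsto_const_nhds.congr' ?_
    filter_upwards [eventually_gt_atTop i] with n hn
    exact (haz n i hn).1
  have ht2 : Tendsto (fun n => (a n).2) atTop (𝓝 z.2) := by
    rw [tendsto_pi_nhds]
    intro i
    refine tendsto_const_nhds.congr' ?_
    filter_upwards [eventually_gt_atTop i] with n hn
    exact (haz n i hn).2
  exact hR.mem_of_tendsto (ht1.prodMk_nhds ht2) (Eventually.of_forall ha)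

theorem isOpen_Agree (n : ℕ) (p : (ℕ → Fin k) × (ℕ → Fin k)) : IsOpen {q | Agree n p q} := by
  have : {q | Agree n p q} = ⋂ i ∈ Finset.range n,
      {q : (ℕ → Fin k) × (ℕ → Fin k) | p.1 i = q.1 i ∧ p.2 i = q.2 i} := by
    ext q; simp [Agree]
  rw [this]
  refine isOpen_biInter_finset fun i _ => ?_
  have h1 : Continuous fun q : (ℕ → Fin k) × (ℕ → Fin k) => q.1 i :=
    (continuous_apply i).comp continuous_fst
  have h2 : Continuous fun q : (ℕ → Fin k) × (ℕ → Fin k) => q.2 i :=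
    (continuous_apply i).comp continuous_snd
  exact ((isOpen_discrete {a : Fin k | p.1 i = a}).preimage h1).inter
    ((isOpen_discrete {a : Fin k | p.2 i = a}).preimage h2)

theorem Agree_self (n : ℕ) (p : (ℕ → Fin k) × (ℕ → Fin k)) : Agree n p p :=
  fun _ _ => ⟨rfl, rfl⟩

theorem Agree_trans {n : ℕ} {p q r : (ℕ → Fin k) × (ℕ → Fin k)} (h : Agree n p q)
    (h' : Agree n q r) : Agree n p r :=
  fun i hi => ⟨(h i hi).1.trans (h' i hi).1, (h i hi).2.trans (h' i hi).2⟩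

theorem der_closed (R : Set ((ℕ → Fin k) × (ℕ → Fin k))) : IsClosed (der R) := by
  refine isClosed_of_closure_subset fun p hp l n => ?_
  obtain ⟨p', hp', hp''⟩ := mem_closure_iff.1 hp _ (isOpen_Agree n p) (Agree_self n p)
  obtain ⟨q, hq, h1, h2⟩ := hp'' l n
  exact ⟨q, hq, Agree_trans hp' h1, h2⟩

theorem derN_closed {M : Set (ℕ → Fin k)} (hM : IsClosed M) (j : ℕ) : IsClosed (derN M j) := by
  cases j with
  | zero => exact hM.prod hM
  | succ j => exact der_closed _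

theorem mem_derN {M : Set (ℕ → Fin k)} {y z : ℕ → Fin k} (hy : y ∈ M) (hz : z ∈ M)
    (h : Proximal y z) (j : ℕ) : (y, z) ∈ derN M j := by
  induction j with
  | zero => exact ⟨hy, hz⟩
  | succ j ih =>
    intro l n
    obtain ⟨x, hx⟩ := h l
    exact ⟨(y, z), ih, Agree_self _ _, x, hx⟩

/-! ### words -/

/-- the pair of words is in the language of the relation -/
def LR (R : Set ((ℕ → Fin k) × (ℕ → Fin k))) (l v w : ℕ) : Prop :=
  ∃ p ∈ R, ∀ i < l, (p.1 i : ℕ) = dig k v i ∧ (p.2 i : ℕ) = dig k w i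

/-- the codes of the pairs of words in the language of a relation -/
def langRel (R : Set ((ℕ → Fin k) × (ℕ → Fin k))) : Set ℕ :=
  {n | LR R n.unpair.1 n.unpair.2.unpair.1 n.unpair.2.unpair.2}

/-- the matrix of the derived relation -/
def DD (R : Set ((ℕ → Fin k) × (ℕ → Fin k))) (n v w l b : ℕ) : Prop :=
  n ≤ b ∧ ∃ V < k ^ b, ∃ W < k ^ b, LR R b V W ∧
    (∀ i < n, dig k V i = dig k v i) ∧ (∀ i < n, dig k W i = dig k w i) ∧
    ∃ x < b + 1, x + l ≤ b ∧ ∀ i < l, dig k V (x + i) = dig k W (x + i)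

theorem LR_der (R : Set ((ℕ → Fin k) × (ℕ → Fin k))) (n v w : ℕ) :
    LR (der R) n v w ↔ ∀ l, ∃ b, DD R n v w l b := by
  constructor
  · rintro ⟨p, hp, hpv⟩ l
    obtain ⟨q, hq, hpq, x, hx⟩ := hp l n
    refine ⟨n + x + l, by omega, num k q.1 (n + x + l), num_lt _ _, num k q.2 (n + x + l),
      num_lt _ _, ⟨q, hq, fun i hi => ⟨(dig_num _ hi).symm, (dig_num _ hi).symm⟩⟩,
      fun i hi => ?_, fun i hi => ?_, x, by omega, by omega, fun i hi => ?_⟩
    · rw [dig_num _ (by omega), ← (hpv i hi).1, (hpq i hi).1]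
    · rw [dig_num _ (by omega), ← (hpv i hi).2, (hpq i hi).2]
    · rw [dig_num _ (by omega), dig_num _ (by omega), hx i hi]
  · intro h
    have h1 : ∀ l, ∃ q ∈ R, (∀ i < n, (q.1 i : ℕ) = dig k v i ∧ (q.2 i : ℕ) = dig k w i) ∧
        ∃ x, ∀ i < l, q.1 (x + i) = q.2 (x + i) := by
      intro l
      obtain ⟨b, hb, V, -, W, -, ⟨q, hq, hqV⟩, h2, h3, x, -, h4, h5⟩ := h l
      refine ⟨q, hq, fun i hi => ⟨?_, ?_⟩, x, fun i hi => Fin.ext ?_⟩
      · rw [(hqV i (by omega)).1, h2 i hi]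
      · rw [(hqV i (by omega)).2, h3 i hi]
      · rw [(hqV _ (by omega)).1, (hqV _ (by omega)).2, h5 i hi]
    choose q hq hqv x hx using h1
    obtain ⟨z, hz⟩ := exists_limit2 q
    refine ⟨z, fun l m => ?_, fun i hi => ?_⟩
    · obtain ⟨l', hl', hzl⟩ := hz m l
      exact ⟨q l', hq l', hzl, x l', fun i hi => hx l' i (by omega)⟩
    · obtain ⟨l', -, hzl⟩ := hz n 0
      rw [(hzl i hi).1, (hzl i hi).2]
      exact hqv l' i hi

/-- the bound `g` for the first interval of length `l` on which the two words agree -/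
def Agr (R : Set ((ℕ → Fin k) × (ℕ → Fin k))) (l g : ℕ) : Prop :=
  ∀ V < k ^ (g + l), ∀ W < k ^ (g + l), LR R (g + l) V W → ∃ x < g, ∀ i < l,
    dig k V (x + i) = dig k W (x + i)

theorem exists_Agr {R : Set ((ℕ → Fin k) × (ℕ → Fin k))} (hR : IsClosed R)
    (h : ∀ p ∈ R, Proximal p.1 p.2) (l : ℕ) : ∃ g, Agr R l g := by
  by_contra hc
  unfold Agr at hc
  push Not at hc
  choose V hV W hW hL hn using hc
  choose p hp hpV using hL
  obtain ⟨z, hz⟩ := exists_limit2 p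
  have hzR : z ∈ R := mem_of_parts2 hR fun l => by
    obtain ⟨n, -, hn⟩ := hz l 0
    exact ⟨p n, hp n, hn⟩
  obtain ⟨x, hx⟩ := h z hzR l
  obtain ⟨n, h1, h2⟩ := hz (x + l) (x + 1)
  obtain ⟨i, hi, h3⟩ := hn n x (by omega)
  apply h3
  rw [← (hpV n (x + i) (by omega)).1, ← (hpV n (x + i) (by omega)).2,
    ← (h2 (x + i) (by omega)).1, ← (h2 (x + i) (by omega)).2, hx i hi]

theorem Agr_spec {R : Set ((ℕ → Fin k) × (ℕ → Fin k))} {l g : ℕ} (h : Agr R l g)
    {y z : ℕ → Fin k} (hyz : (y, z) ∈ R) : ∃ x < g, ∀ i < l, y (x + i) = z (x + i) := by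
  obtain ⟨x, hx, h1⟩ := h (num k y (g + l)) (num_lt _ _) (num k z (g + l)) (num_lt _ _)
    ⟨(y, z), hyz, fun i hi => ⟨(dig_num _ hi).symm, (dig_num _ hi).symm⟩⟩
  refine ⟨x, hx, fun i hi => Fin.ext ?_⟩
  have h2 := h1 i hi
  rwa [dig_num _ (by omega), dig_num _ (by omega)] at h2

/-! ### computability -/

open Classical in
/-- the indicator function of a set -/
noncomputable def ind (S : Set ℕ) (n : ℕ) : ℕ := if n ∈ S then 1 else 0

theorem ind_rec {O : Set (ℕ →. ℕ)} {S : Set ℕ} :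
    Nat.RecursiveIn O (charFn S) ↔ Nat.RecursiveIn O (fun n => Part.some (ind S n)) := by
  have : charFn S = fun n => Part.some (ind S n) := by
    funext n
    simp [charFn, ind]
  rw [this]

section

variable {α : Type*} [Primcodable α] {S : Set ℕ}

theorem RP.ind {f : α → ℕ} (hf : Primrec f) : RP (PR.ind S) fun a => f a ∈ S := by
  refine (RP.oracle (g := PR.ind S) (q := fun _ x => x = 1) (Primrec.eq.comp Primrec.snd
    (Primrec.const 1)) hf).congr fun a => ?_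
  unfold PR.ind
  by_cases h : f a ∈ S <;> simp [h]

variable {R : Set ((ℕ → Fin k) × (ℕ → Fin k))}

theorem RP.LR {l v w : α → ℕ} (hl : Primrec l) (hv : Primrec v) (hw : Primrec w) :
    RP (PR.ind (langRel R)) fun a => PR.LR R (l a) (v a) (w a) := by
  refine (RP.ind (S := langRel R) (Primrec₂.natPair.comp hl
    (Primrec₂.natPair.comp hv hw))).congr fun a => ?_
  simp only [langRel, Set.mem_ofPred_eq, Nat.unpair_pair]

theorem RP.DD {n v w l b : α → ℕ} (hn : Primrec n) (hv : Primrec v) (hw : Primrec w)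
    (hl : Primrec l) (hb : Primrec b) :
    RP (PR.ind (langRel R)) fun a => PR.DD R (n a) (v a) (w a) (l a) (b a) := by
  unfold PR.DD
  refine (RP.le hn hb).and ?_
  refine RP.bex (p := fun V a => ∃ W < k ^ (b a), PR.LR R (b a) V W ∧
    (∀ i < n a, dig k V i = dig k (v a) i) ∧ (∀ i < n a, dig k W i = dig k (w a) i) ∧
    ∃ x < b a + 1, x + l a ≤ b a ∧ ∀ i < l a, dig k V (x + i) = dig k W (x + i)) ?_
    ((pow_prim k).comp hb)
  refine RP.bex (α := ℕ × α) (p := fun W y => PR.LR R (b y.2) y.1 W ∧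
    (∀ i < n y.2, dig k y.1 i = dig k (v y.2) i) ∧ (∀ i < n y.2, dig k W i = dig k (w y.2) i) ∧
    ∃ x < b y.2 + 1, x + l y.2 ≤ b y.2 ∧ ∀ i < l y.2, dig k y.1 (x + i) = dig k W (x + i)) ?_
    ((pow_prim k).comp (hb.comp Primrec.snd))
  have h2 : Primrec fun x : ℕ × ℕ × α => x.2.2 := Primrec.snd.comp Primrec.snd
  have h1 : Primrec fun x : ℕ × ℕ × α => x.2.1 := Primrec.fst.comp Primrec.snd
  refine (RP.LR (hb.comp h2) h1 Primrec.fst).and ((RP.digs0 (hn.comp h2) h1 (hv.comp h2)).and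
    ((RP.digs0 (hn.comp h2) Primrec.fst (hw.comp h2)).and ?_))
  refine RP.bex (α := ℕ × ℕ × α) (p := fun x y => x + l y.2.2 ≤ b y.2.2 ∧
    ∀ i < l y.2.2, dig k y.2.1 (x + i) = dig k y.1 (x + i)) ?_ (Primrec.succ.comp (hb.comp h2))
  have h3 : Primrec fun x : ℕ × ℕ × ℕ × α => x.2.2.2 :=
    Primrec.snd.comp (Primrec.snd.comp Primrec.snd)
  refine (RP.le (Primrec.nat_add.comp Primrec.fst (hl.comp h3)) (hb.comp h3)).and ?_
  refine RP.ball (α := ℕ × ℕ × ℕ × α) (p := fun i y => dig k y.2.2.1 (y.1 + i) =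
    dig k y.2.1 (y.1 + i)) ?_ (hl.comp h3)
  have h4 : Primrec fun x : ℕ × ℕ × ℕ × ℕ × α => x.2.1 + x.1 :=
    Primrec.nat_add.comp (Primrec.fst.comp Primrec.snd) Primrec.fst
  refine RP.eq ((dig_prim k).comp ?_ h4) ((dig_prim k).comp ?_ h4)
  · exact Primrec.fst.comp (Primrec.snd.comp (Primrec.snd.comp Primrec.snd))
  · exact Primrec.fst.comp (Primrec.snd.comp Primrec.snd)

theorem RP.Agr {l g : α → ℕ} (hl : Primrec l) (hg : Primrec g) :
    RP (PR.ind (langRel R)) fun a => PR.Agr R (l a) (g a) := by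
  unfold PR.Agr
  have hgl : Primrec fun a => g a + l a := Primrec.nat_add.comp hg hl
  refine RP.ball (p := fun V a => ∀ W < k ^ (g a + l a), PR.LR R (g a + l a) V W →
    ∃ x < g a, ∀ i < l a, dig k V (x + i) = dig k W (x + i)) ?_ ((pow_prim k).comp hgl)
  refine RP.ball (α := ℕ × α) (p := fun W y => PR.LR R (g y.2 + l y.2) y.1 W →
    ∃ x < g y.2, ∀ i < l y.2, dig k y.1 (x + i) = dig k W (x + i)) ?_
    ((pow_prim k).comp (hgl.comp Primrec.snd))
  have h2 : Primrec fun x : ℕ × ℕ × α => x.2.2 := Primrec.snd.comp Primrec.snd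
  have h1 : Primrec fun x : ℕ × ℕ × α => x.2.1 := Primrec.fst.comp Primrec.snd
  refine (RP.LR (hgl.comp h2) h1 Primrec.fst).imp ?_
  refine RP.bex (α := ℕ × ℕ × α) (p := fun x y => ∀ i < l y.2.2, dig k y.2.1 (x + i) =
    dig k y.1 (x + i)) ?_ (hg.comp h2)
  refine RP.ball (α := ℕ × ℕ × ℕ × α) (p := fun i y => dig k y.2.2.1 (y.1 + i) =
    dig k y.2.1 (y.1 + i)) ?_ (hl.comp (Primrec.snd.comp (Primrec.snd.comp Primrec.snd)))
  have h4 : Primrec fun x : ℕ × ℕ × ℕ × ℕ × α => x.2.1 + x.1 :=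
    Primrec.nat_add.comp (Primrec.fst.comp Primrec.snd) Primrec.fst
  refine RP.eq ((dig_prim k).comp ?_ h4) ((dig_prim k).comp ?_ h4)
  · exact Primrec.fst.comp (Primrec.snd.comp (Primrec.snd.comp Primrec.snd))
  · exact Primrec.fst.comp (Primrec.snd.comp Primrec.snd)

end

theorem compl_rec {O : Set (ℕ →. ℕ)} {S : Set ℕ} (h : Nat.RecursiveIn O (charFn Sᶜ)) :
    Nat.RecursiveIn O (charFn S) := by
  have hQ : Computable fun n : ℕ => 1 - n := (Primrec.nat_sub.comp (Primrec.const 1)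
    Primrec.id).to_comp
  refine (comp_tot (comp_of hQ) (ind_rec.1 h)).of_eq fun n => ?_
  unfold PR.ind
  by_cases hn : n ∈ S <;> simp [charFn, hn]

theorem der_rec {O : Set (ℕ →. ℕ)} {R : Set ((ℕ → Fin k) × (ℕ → Fin k))}
    (h : Nat.RecursiveIn O (charFn (langRel R))) :
    Nat.RecursiveIn (jumpTwo O) (charFn (langRel (der R))) := by
  refine compl_rec (.oracle _ ⟨_, ⟨{p | ¬ DD R p.unpair.1.unpair.1 p.unpair.1.unpair.2.unpair.1
    p.unpair.1.unpair.2.unpair.2 p.unpair.2.unpair.1 p.unpair.2.unpair.2},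
    RecursiveIn.iff_nat.2 (RP.recNat (RP.not (RP.DD ?_ ?_ ?_ ?_ ?_)) (ind_rec.1 h)),
    fun n => ?_⟩, rfl⟩)
  · exact Primrec.fst.comp (Primrec.unpair.comp (Primrec.fst.comp Primrec.unpair))
  · exact Primrec.fst.comp (Primrec.unpair.comp (Primrec.snd.comp (Primrec.unpair.comp
      (Primrec.fst.comp Primrec.unpair))))
  · exact Primrec.snd.comp (Primrec.unpair.comp (Primrec.snd.comp (Primrec.unpair.comp
      (Primrec.fst.comp Primrec.unpair))))
  · exact Primrec.fst.comp (Primrec.unpair.comp (Primrec.snd.comp Primrec.unpair))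
  · exact Primrec.snd.comp (Primrec.unpair.comp (Primrec.snd.comp Primrec.unpair))
  · show ¬ LR (der R) _ _ _ ↔ _
    rw [LR_der]
    simp only [Set.mem_ofPred_eq, Nat.unpair_pair]
    push Not
    rfl

end Pool.Agent.Work.MP_69fea5_lc.PR
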