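import Pool.Agent.Work.MP_69fea5_lc.PR.Der

set_option autoImplicit false

/-!
# Colourings with tame minimal limit systems: main theorem
-/

namespace Pool.Agent.Work.MP_69fea5_lc.PR

open Pool.Agent.Work.MP_69fea5_lc
open Pool.Agent.Work.MP_69fea5_lc.PD

variable {k : ℕ}

theorem jumpTwo_mono {O O' : Set (ℕ →. ℕ)} (h : ∀ f ∈ O, RecursiveIn O' f) :
    jumpTwo O ⊆ jumpTwo O' := by
  rintro f ⟨S, ⟨R, hR, h'⟩, rfl⟩
  exact ⟨S, ⟨R, RecursiveIn.subst hR h, h'⟩, rfl⟩

/-- total functions are computable in the graph -/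
theorem up {O : Set (ℕ →. ℕ)} {F : ℕ → ℕ} (hF : Nat.RecursiveIn O (fun n => Part.some (F n))) :
    Nat.RecursiveIn (jumpTwo O) (fun n => Part.some (F n)) := by
  have h1 : IsSigmaTwoIn O {p | F p.unpair.1 = p.unpair.2} := by
    refine ⟨{p | F p.unpair.1.unpair.1 = p.unpair.1.unpair.2}, RecursiveIn.iff_nat.2
      (RP.recNat (RP.oracle (g := F) (q := fun p x => x = p.unpair.1.unpair.2)
        (Primrec.eq.comp Primrec.snd ?_) ?_) hF), fun n => ?_⟩
    · exact Primrec.snd.comp (Primrec.unpair.comp (Primrec.fst.comp (Primrec.unpair.comp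
        Primrec.fst)))
    · exact Primrec.fst.comp (Primrec.unpair.comp (Primrec.fst.comp Primrec.unpair))
    · simp only [Set.mem_ofPred_eq, Nat.unpair_pair]
      exact ⟨fun h => ⟨0, fun _ => h⟩, fun ⟨_, h⟩ => h 0⟩
  have h2 : Nat.RecursiveIn (jumpTwo O) (charFn {p | F p.unpair.1 = p.unpair.2}) :=
    .oracle _ ⟨_, h1, rfl⟩
  refine find_rec (p := fun p => F p.unpair.1 = p.unpair.2) h2
    fun m => ⟨by simp, fun n hn => ?_⟩
  simp only [Nat.unpair_pair]
  omega

theorem up_set {O : Set (ℕ →. ℕ)} {S : Set ℕ} (h : Nat.RecursiveIn O (charFn S)) :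
    Nat.RecursiveIn (jumpTwo O) (charFn S) :=
  ind_rec.2 (up (ind_rec.1 h))

theorem up_iter {O : Set (ℕ →. ℕ)} {F : ℕ → ℕ} (hF : Nat.RecursiveIn O (fun n => Part.some (F n)))
    (j : ℕ) : Nat.RecursiveIn (jumpTwo^[j] O) (fun n => Part.some (F n)) := by
  induction j with
  | zero => exact hF
  | succ j ih =>
    rw [Function.iterate_succ_apply']
    exact up ih

theorem prod_rec {O : Set (ℕ →. ℕ)} {M : Set (ℕ → Fin k)}
    (h : Nat.RecursiveIn O (charFn (language M))) :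
    Nat.RecursiveIn O (charFn (langRel (M ×ˢ M))) := by
  have h1 : RP (ind (language M)) fun p : ℕ => PD.Lk M p.unpair.1 p.unpair.2.unpair.1 ∧
      PD.Lk M p.unpair.1 p.unpair.2.unpair.2 := by
    have h2 : ∀ {l v : ℕ → ℕ}, Primrec l → Primrec v →
        RP (ind (language M)) fun a => PD.Lk M (l a) (v a) := by
      intro l v hl hv
      refine (RP.ind (S := language M) ((code_prim k).comp hl hv)).congr fun a => ?_
      rw [Lk_iff]
    exact (h2 (Primrec.fst.comp Primrec.unpair) (Primrec.fst.comp (Primrec.unpair.comp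
      (Primrec.snd.comp Primrec.unpair)))).and (h2 (Primrec.fst.comp Primrec.unpair)
      (Primrec.snd.comp (Primrec.unpair.comp (Primrec.snd.comp Primrec.unpair))))
  refine RP.recNat (h1.congr fun p => ?_) (ind_rec.1 h)
  constructor
  · rintro ⟨⟨y, hy, h3⟩, ⟨z, hz, h4⟩⟩
    exact ⟨(y, z), ⟨hy, hz⟩, fun i hi => ⟨h3 i hi, h4 i hi⟩⟩
  · rintro ⟨⟨y, z⟩, ⟨hy, hz⟩, h3⟩
    exact ⟨⟨y, hy, fun i hi => (h3 i hi).1⟩, ⟨z, hz, fun i hi => (h3 i hi).2⟩⟩

theorem derN_rec {O : Set (ℕ →. ℕ)} {M : Set (ℕ → Fin k)}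
    (h : Nat.RecursiveIn O (charFn (language M))) (j : ℕ) :
    Nat.RecursiveIn (jumpTwo^[j] O) (charFn (langRel (derN M j))) := by
  induction j with
  | zero => exact prod_rec h
  | succ j ih =>
    rw [Function.iterate_succ_apply']
    exact der_rec ih

/-- the modulus of a closed relation that consists of proximal pairs -/
theorem exists_modulus {O : Set (ℕ →. ℕ)} {R : Set ((ℕ → Fin k) × (ℕ → Fin k))}
    (hR : IsClosed R) (hp : ∀ p ∈ R, Proximal p.1 p.2)
    (h : Nat.RecursiveIn O (charFn (langRel R))) :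
    ∃ g : ℕ → ℕ, Nat.RecursiveIn O (fun n => Part.some (g n)) ∧
      ∀ y z, (y, z) ∈ R → ∀ l, ∃ x < g l, ∀ i < l, y (x + i) = z (x + i) := by
  classical
  refine ⟨fun l => Nat.find (exists_Agr hR hp l), ?_, fun y z hyz l =>
    Agr_spec (Nat.find_spec (exists_Agr hR hp l)) hyz⟩
  refine find_rec (p := fun q => Agr R q.unpair.1 q.unpair.2)
      (RP.recNat (RP.Agr (Primrec.fst.comp Primrec.unpair) (Primrec.snd.comp Primrec.unpair))
        (ind_rec.1 h)) fun m => ⟨?_, fun n hn => ?_⟩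
  · simp only [Nat.unpair_pair]
    exact Nat.find_spec (exists_Agr hR hp m)
  · simp only [Nat.unpair_pair]
    exact Nat.find_min (exists_Agr hR hp m) hn

/-- **Main theorem.** -/
theorem main_der (c : ℕ → Fin k) (j : ℕ) (h : ∀ p ∈ derN (MM c) j, Proximal p.1 p.2) :
    ∃ X : Set ℕ, (X.Infinite ∧ (∀ x ∈ X, 0 < x) ∧
      ∃ i, ∀ F : Finset ℕ, F.Nonempty → (↑F : Set ℕ) ⊆ X → c (∑ x ∈ F, x) = i) ∧
      RecursiveIn (jumpTwo^[j + 2] (orc c)) (charFn X) := by
  have hM := MM_minimal c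
  obtain ⟨y, hy, hyc⟩ := AE_pf hM.nonempty hM.closed hM.shift (MM_limit c)
  have hc1 : Nat.RecursiveIn (jumpTwo^[j + 1] (orc c)) (fun n => Part.some ((c n : ℕ))) :=
    up_iter (F := fun n => (c n : ℕ)) (orc_rec c) (j + 1)
  have hL1 : Nat.RecursiveIn (jumpTwo^[j + 1] (orc c)) (charFn (language (MM c))) := by
    rw [Function.iterate_succ_apply]
    exact ind_rec.2 (up_iter (ind_rec.1 (MM_language c)) j)
  have hR1 : Nat.RecursiveIn (jumpTwo^[j + 1] (orc c)) (charFn (langRel (derN (MM c) j))) := by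
    rw [Function.iterate_succ_apply]
    exact derN_rec (MM_language c) j
  obtain ⟨g, hg, hg'⟩ := exists_modulus (derN_closed hM.closed j) h hR1
  obtain ⟨X, hX, hr⟩ := main_modulus hM hy hyc (g := g) fun z hz hyz =>
    hg' y z (mem_derN hy hz hyz j)
  refine ⟨X, hX, RecursiveIn.mono ?_ hr⟩
  rw [Function.iterate_succ_apply']
  refine jumpTwo_mono ?_
  rintro f (rfl | rfl | rfl)
  · exact RecursiveIn.iff_nat.2 hc1
  · exact RecursiveIn.iff_nat.2 hL1
  · exact RecursiveIn.iff_nat.2 hg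

end Pool.Agent.Work.MP_69fea5_lc.PR
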