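import Pool.Agent.Work.MP_69fea5_lc.PR.TowerC

set_option autoImplicit false

/-!
# Mixing steps
-/

namespace Pool.Agent.Work.MP_69fea5_lc.PR

open Pool.Agent.Work.MP_69fea5_lc
open Pool.Agent.Work.MP_69fea5_lc.PD

variable {k : ℕ}

/-- for `(y, z₀) ∈ S` and a neighbourhood `U` of `z₀` the shifts of `U ∩ S[y]` by `x` are almost
dense (modulo `S'`) in the `S`-classes near `S[T ^ x y]`, for a syndetic set of `x` -/
def GenStep (S S' : Set ((ℕ → Fin k) × (ℕ → Fin k))) : Prop :=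
  ∀ y z₀, (y, z₀) ∈ S → ∀ l m, ∃ m' g, ∀ t, ∃ x, t ≤ x ∧ x < t + g ∧
    ∀ p ∈ S, (∀ i < m', p.2 i = y (x + i)) → ∃ z, (y, z) ∈ S ∧ (∀ i < l, z i = z₀ i) ∧
      ∃ q ∈ S', ∀ i < m, q.1 i = p.1 i ∧ q.2 i = z (x + i)

theorem gen_ext {M : Set (ℕ → Fin k)} {S S' : Set ((ℕ → Fin k) × (ℕ → Fin k))} (hS : ICER M S)
    (hG : GenStep S S') {c y z₀ : ℕ → Fin k} (hyS : Exact c S y) (hz : (y, z₀) ∈ S) (l m : ℕ) :
    ∃ z, (y, z) ∈ S ∧ (∀ i < l, z i = z₀ i) ∧ ∃ x, Near S' c z x m := by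
  obtain ⟨m', g, h⟩ := hG y z₀ hz l m
  obtain ⟨t, p, hp, hpt⟩ := hyS (g + m' + m)
  obtain ⟨x, h1, h2, h3⟩ := h t
  obtain ⟨d, rfl⟩ : ∃ d, x = t + d := ⟨x - t, by omega⟩
  obtain ⟨z, hz, hzl, q, hq, hqx⟩ := h3 _ (hS.shift_mem hp d) fun i hi => by
    show p.2 (d + i) = y (t + d + i)
    rw [(hpt (d + i) (by omega)).2, Nat.add_assoc]
  refine ⟨z, hz, hzl, t + d, q, hq, fun i hi => ⟨?_, (hqx i hi).2⟩⟩
  rw [(hqx i hi).1]
  show p.1 (d + i) = c (t + d + i)
  rw [(hpt (d + i) (by omega)).1, Nat.add_assoc]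

/-- the word is a prefix of a point of `S[y]` -/
def Vd (S : Set ((ℕ → Fin k) × (ℕ → Fin k))) (y : ℕ → Fin k) (l w : ℕ) : Prop :=
  ∃ z, (y, z) ∈ S ∧ ∀ i < l, (z i : ℕ) = dig k w i

theorem Vd_iff {S : Set ((ℕ → Fin k) × (ℕ → Fin k))} (hS : IsClosed S) (y : ℕ → Fin k)
    (l w : ℕ) : Vd S y l w ↔ ∀ L, ∃ W < k ^ (l + L), (∃ V < k ^ (l + L),
      (∀ i < l + L, (y i : ℕ) = dig k V i) ∧ LR S (l + L) V W) ∧
      ∀ i < l, dig k W i = dig k w i := by
  constructor
  · rintro ⟨z, hz, hzw⟩ L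
    refine ⟨num k z _, num_lt _ _, ⟨num k y _, num_lt _ _, fun i hi => (dig_num y hi).symm,
      (y, z), hz, fun i hi => ⟨(dig_num y hi).symm, (dig_num z hi).symm⟩⟩, fun i hi => ?_⟩
    rw [dig_num z (by omega), hzw i hi]
  · intro h
    have h1 : ∀ L, ∃ p ∈ S, (∀ i < l + L, p.1 i = y i) ∧ ∀ i < l, (p.2 i : ℕ) = dig k w i := by
      intro L
      obtain ⟨W, -, ⟨V, -, hV, p, hp, hpV⟩, hW⟩ := h L
      refine ⟨p, hp, fun i hi => Fin.ext ?_, fun i hi => ?_⟩
      · rw [(hpV i hi).1, hV i hi]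
      · rw [(hpV i (by omega)).2, hW i hi]
    choose p hp hpy hpw using h1
    obtain ⟨z, hz⟩ := exists_limit2 p
    have h3 : z.1 = y := by
      funext i
      obtain ⟨n, hn, hn'⟩ := hz (i + 1) (i + 1)
      rw [(hn' i (by omega)).1, hpy n i (by omega)]
    have h4 : z ∈ S := mem_of_parts2 hS fun l => by
      obtain ⟨n, -, hn⟩ := hz l 0
      exact ⟨p n, hp n, hn⟩
    refine ⟨z.2, ?_, fun i hi => ?_⟩
    · rw [← h3]
      exact h4
    · obtain ⟨n, -, hn'⟩ := hz l 0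
      rw [(hn' i hi).2, hpw n i hi]

/-- the next word -/
def St (c : ℕ → Fin k) (S' : Set ((ℕ → Fin k) × (ℕ → Fin k))) (V : ℕ → ℕ → Prop)
    (s l w l' w' : ℕ) : Prop :=
  V l' w' ∧ l < l' ∧ (∀ i < l, dig k w' i = dig k w i) ∧ ∃ x < l', x + s ≤ l' ∧
    ∃ C < k ^ s, ∃ D < k ^ s, (∀ i < s, (c (x + i) : ℕ) = dig k C i) ∧
      (∀ i < s, dig k w' (x + i) = dig k D i) ∧ LR S' s C D

theorem exists_St {M : Set (ℕ → Fin k)} {S S' : Set ((ℕ → Fin k) × (ℕ → Fin k))} (hS : ICER M S)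
    (hG : GenStep S S') {c y : ℕ → Fin k} (hyS : Exact c S y) (s l w : ℕ) (h : Vd S y l w) :
    ∃ l' w', St c S' (Vd S y) s l w l' w' := by
  obtain ⟨z₀, hz₀, hzw⟩ := h
  obtain ⟨z, hz, hzl, x, q, hq, hqx⟩ := gen_ext hS hG hyS hz₀ l s
  refine ⟨l + x + s + 1, num k z (l + x + s + 1), ⟨z, hz, fun i hi => (dig_num z hi).symm⟩,
    by omega, fun i hi => ?_, x, by omega, by omega, num k (fun i => c (x + i)) s, num_lt _ _,
    num k (fun i => z (x + i)) s, num_lt _ _, fun i hi => (dig_num (fun i => c (x + i)) hi).symm,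
    fun i hi => ?_, q, hq, fun i hi => ?_⟩
  · rw [dig_num z (by omega), hzl i hi, hzw i hi]
  · rw [dig_num z (by omega), dig_num (fun i => z (x + i)) hi]
  · rw [dig_num (fun i => c (x + i)) hi, dig_num (fun i => z (x + i)) hi, (hqx i hi).1,
      (hqx i hi).2]
    exact ⟨rfl, rfl⟩

section

variable {α : Type*} [Primcodable α] {c : ℕ → Fin k} {Vs D : Set ℕ}
  {S' : Set ((ℕ → Fin k) × (ℕ → Fin k))}

theorem RP.St {s l w l' w' : α → ℕ} (hs : Primrec s) (hl : Primrec l) (hw : Primrec w)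
    (hl' : Primrec l') (hw' : Primrec w') :
    RP (g4 (gr c) Vs (langRel S') D) fun a =>
      PR.St c S' (fun l w => Nat.pair l w ∈ Vs) (s a) (l a) (w a) (l' a) (w' a) := by
  unfold PR.St
  have hks : Primrec fun a => k ^ (s a) := (pow_prim k).comp hs
  refine RP.and (RP.m2 (Primrec₂.natPair.comp hl' hw')) (RP.and (RP.lt hl hl')
    (RP.and (RP.digs0 hl hw' hw) ?_))
  refine RP.bex (p := fun x a => x + s a ≤ l' a ∧ ∃ C < k ^ (s a), ∃ D < k ^ (s a),
    (∀ i < s a, (c (x + i) : ℕ) = dig k C i) ∧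
      (∀ i < s a, dig k (w' a) (x + i) = dig k D i) ∧ PR.LR S' (s a) C D) ?_ hl'
  refine RP.and (RP.le (Primrec.nat_add.comp Primrec.fst (hs.comp Primrec.snd))
    (hl'.comp Primrec.snd)) ?_
  refine RP.bex (α := ℕ × α) (p := fun C u => ∃ D < k ^ (s u.2),
    (∀ i < s u.2, (c (u.1 + i) : ℕ) = dig k C i) ∧
      (∀ i < s u.2, dig k (w' u.2) (u.1 + i) = dig k D i) ∧ PR.LR S' (s u.2) C D) ?_
      (hks.comp Primrec.snd)
  refine RP.bex (α := ℕ × ℕ × α) (p := fun D u =>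
    (∀ i < s u.2.2, (c (u.2.1 + i) : ℕ) = dig k u.1 i) ∧
      (∀ i < s u.2.2, dig k (w' u.2.2) (u.2.1 + i) = dig k D i) ∧
        PR.LR S' (s u.2.2) u.1 D) ?_ (hks.comp (Primrec.snd.comp Primrec.snd))
  have h3 : Primrec fun u : ℕ × ℕ × ℕ × α => u.2.2.2 :=
    Primrec.snd.comp (Primrec.snd.comp Primrec.snd)
  have hx : Primrec fun u : ℕ × ℕ × ℕ × α => u.2.2.1 :=
    Primrec.fst.comp (Primrec.snd.comp Primrec.snd)
  refine RP.and ?_ (RP.and ?_ ?_)
  · refine RP.ball (α := ℕ × ℕ × ℕ × α) (p := fun i u =>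
        (c (u.2.2.1 + i) : ℕ) = dig k u.2.1 i) ?_ (hs.comp h3)
    exact (RP.m1 (Primrec₂.natPair.comp (Primrec.nat_add.comp (hx.comp Primrec.snd)
        Primrec.fst) ((dig_prim k).comp (Primrec.fst.comp (Primrec.snd.comp Primrec.snd))
          Primrec.fst))).congr fun _ => mem_gr
  · exact RP.digs (hs.comp h3) (hw'.comp h3) Primrec.fst hx
  · exact (RP.m3 (Primrec₂.natPair.comp (hs.comp h3) (Primrec₂.natPair.comp
        (Primrec.fst.comp Primrec.snd) Primrec.fst))).congr fun _ => mem_langRel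

end

/-- recursion with a step function computable in the oracle -/
theorem rec_step {O : Set (ℕ →. ℕ)} {F : ℕ → ℕ} (hF : Nat.RecursiveIn O (fun n => Part.some (F n)))
    {s : ℕ → ℕ} (h0 : s 0 = 0) (hs : ∀ n, s (n + 1) = F (Nat.pair n (s n))) :
    Nat.RecursiveIn O (fun n => Part.some (s n)) := by
  have hy : Computable (fun p : ℕ => p.unpair.2) := (Primrec.snd.comp Primrec.unpair).to_comp
  have hstep : Nat.RecursiveIn O (fun p : ℕ => Part.some (F p.unpair.2)) :=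
    comp_tot hF (comp_of hy)
  have hbase : Nat.RecursiveIn O (fun _ : ℕ => Part.some 0) := comp_of (Computable.const _)
  have hp := Nat.RecursiveIn.prec hbase hstep
  have hq : Nat.RecursiveIn O (fun n : ℕ => Part.some (Nat.pair 0 n)) :=
    comp_of (Primrec₂.natPair.comp (Primrec.const 0) Primrec.id).to_comp
  refine (Nat.RecursiveIn.comp hp hq).of_eq ?_
  intro n
  simp only [Part.bind_eq_bind, Part.bind_some, Nat.unpair_pair]
  induction n with
  | zero => simp [h0]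
  | succ n ih =>
    simp only [ih, Part.bind_some]
    congr 1
    rw [hs]

theorem choice_rec {O : Set (ℕ →. ℕ)} {P : ℕ → ℕ → Prop} (hP : ∀ q, ∃ b, P q b)
    (h : Nat.RecursiveIn O (charFn {p | P p.unpair.1 p.unpair.2})) :
    ∃ F : ℕ → ℕ, (∀ q, P q (F q)) ∧ Nat.RecursiveIn O (fun n => Part.some (F n)) := by
  classical
  refine ⟨fun q => Nat.find (hP q), fun q => Nat.find_spec (hP q),
    find_rec (p := fun p => P p.unpair.1 p.unpair.2) h fun m => ⟨?_, fun n hn => ?_⟩⟩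
  · simp only [Nat.unpair_pair]
    exact Nat.find_spec (hP m)
  · simp only [Nat.unpair_pair]
    exact Nat.find_min (hP m) hn

theorem exists_iter {O : Set (ℕ →. ℕ)} {F : ℕ → ℕ}
    (hF : Nat.RecursiveIn O (fun n => Part.some (F n))) :
    ∃ a : ℕ → ℕ, a 0 = 0 ∧ (∀ n, a (n + 1) = F (Nat.pair n (a n))) ∧
      Nat.RecursiveIn O (fun n => Part.some (a n)) :=
  ⟨fun n => Nat.rec 0 (fun n r => F (Nat.pair n r)) n, rfl, fun _ => rfl,
    rec_step hF rfl fun _ => rfl⟩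

/-- **The mixing step.** -/
theorem gen_step {O : Set (ℕ →. ℕ)} {M : Set (ℕ → Fin k)}
    {S S' : Set ((ℕ → Fin k) × (ℕ → Fin k))} (hS : ICER M S)
    (hG : GenStep S S') {c y : ℕ → Fin k} (hy : y ∈ M) (hyS : Exact c S y)
    (hc : Nat.RecursiveIn O (charFn (gr c))) (hyr : Nat.RecursiveIn O (charFn (gr y)))
    (hL : Nat.RecursiveIn O (charFn (langRel S))) (hL' : Nat.RecursiveIn O (charFn (langRel S'))) :
    ∃ z ∈ M, Exact c S' z ∧ Nat.RecursiveIn (jumpTwo O) (charFn (gr z)) := by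
  classical
  have hk : 0 < k := lt_of_le_of_lt (Nat.zero_le _) (c 0).2
  let Vs : Set ℕ := {n | Vd S y n.unpair.1 n.unpair.2}
  have hVs : ∀ l w, Nat.pair l w ∈ Vs ↔ Vd S y l w := fun l w => by simp [Vs]
  have hVr : Nat.RecursiveIn (jumpTwo O) (charFn Vs) := by
    refine compl_rec ?_
    have h1 : Vsᶜ = {n | ∃ L, ¬ ∃ W < k ^ (n.unpair.1 + L), (∃ V < k ^ (n.unpair.1 + L),
      (∀ i < n.unpair.1 + L, (y i : ℕ) = dig k V i) ∧ LR S (n.unpair.1 + L) V W) ∧
      ∀ i < n.unpair.1, dig k W i = dig k n.unpair.2 i} := by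
      ext n
      show ¬ Vd S y n.unpair.1 n.unpair.2 ↔ _
      rw [Vd_iff hS.closed, not_forall]
      rfl
    rw [h1]
    refine sigmaOne_rec (P := fun n L => ¬ ∃ W < k ^ (n.unpair.1 + L),
      (∃ V < k ^ (n.unpair.1 + L), (∀ i < n.unpair.1 + L, (y i : ℕ) = dig k V i) ∧
        LR S (n.unpair.1 + L) V W) ∧ ∀ i < n.unpair.1, dig k W i = dig k n.unpair.2 i) ?_
    have f1 : Primrec fun p : ℕ => p.unpair.1.unpair.1 :=
      Primrec.fst.comp (Primrec.unpair.comp (Primrec.fst.comp Primrec.unpair))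
    have f2 : Primrec fun p : ℕ => p.unpair.1.unpair.2 :=
      Primrec.snd.comp (Primrec.unpair.comp (Primrec.fst.comp Primrec.unpair))
    have f3 : Primrec fun p : ℕ => p.unpair.1.unpair.1 + p.unpair.2 :=
      Primrec.nat_add.comp f1 (Primrec.snd.comp Primrec.unpair)
    refine RP.recNat (RP.not ?_) (g4_rec hc hyr hL hL')
    refine RP.bex (α := ℕ) (p := fun W p => (∃ V < k ^ (p.unpair.1.unpair.1 + p.unpair.2),
      (∀ i < p.unpair.1.unpair.1 + p.unpair.2, (y i : ℕ) = dig k V i) ∧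
        LR S (p.unpair.1.unpair.1 + p.unpair.2) V W) ∧
      ∀ i < p.unpair.1.unpair.1, dig k W i = dig k p.unpair.1.unpair.2 i) ?_
      ((pow_prim k).comp f3)
    refine RP.and ?_ (RP.digs0 (f1.comp Primrec.snd) Primrec.fst (f2.comp Primrec.snd))
    refine RP.bex (α := ℕ × ℕ) (p := fun V u =>
      (∀ i < u.2.unpair.1.unpair.1 + u.2.unpair.2, (y i : ℕ) = dig k V i) ∧
        LR S (u.2.unpair.1.unpair.1 + u.2.unpair.2) V u.1) ?_
      ((pow_prim k).comp (f3.comp Primrec.snd))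
    refine RP.and ?_ ?_
    · refine RP.ball (α := ℕ × ℕ × ℕ) (p := fun i u => (y i : ℕ) = dig k u.1 i) ?_
        (f3.comp (Primrec.snd.comp Primrec.snd))
      exact (RP.m2 (Primrec₂.natPair.comp Primrec.fst ((dig_prim k).comp
        (Primrec.fst.comp Primrec.snd) Primrec.fst))).congr fun _ => mem_gr
    · exact (RP.m3 (Primrec₂.natPair.comp (f3.comp (Primrec.snd.comp Primrec.snd))
        (Primrec₂.natPair.comp Primrec.fst (Primrec.fst.comp Primrec.snd)))).congr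
          fun _ => mem_langRel
  -- the step function
  let P : ℕ → ℕ → Prop := fun q b => Nat.pair q.unpair.2.unpair.1 q.unpair.2.unpair.2 ∈ Vs →
    St c S' (fun l w => Nat.pair l w ∈ Vs) q.unpair.1 q.unpair.2.unpair.1 q.unpair.2.unpair.2
      b.unpair.1 b.unpair.2
  have hP : ∀ q, ∃ b, P q b := by
    intro q
    by_cases h : Nat.pair q.unpair.2.unpair.1 q.unpair.2.unpair.2 ∈ Vs
    · obtain ⟨l', w', h1⟩ := exists_St hS hG hyS q.unpair.1 _ _ ((hVs _ _).1 h)
      refine ⟨Nat.pair l' w', fun _ => ?_⟩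
      simp only [Nat.unpair_pair]
      refine ⟨(hVs _ _).2 h1.1, h1.2⟩
    · exact ⟨0, fun h' => absurd h' h⟩
  have hPr : Nat.RecursiveIn (jumpTwo O) (charFn {p | P p.unpair.1 p.unpair.2}) := by
    refine RP.recNat (RP.imp (RP.m2 ?_) (RP.St ?_ ?_ ?_ ?_ ?_))
        (g4_rec (up_set hc) hVr (up_set hL') hVr)
    · exact Primrec₂.natPair.comp (Primrec.fst.comp (Primrec.unpair.comp (Primrec.snd.comp
        (Primrec.unpair.comp (Primrec.fst.comp Primrec.unpair))))) (Primrec.snd.comp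
        (Primrec.unpair.comp (Primrec.snd.comp (Primrec.unpair.comp (Primrec.fst.comp
          Primrec.unpair)))))
    · exact Primrec.fst.comp (Primrec.unpair.comp (Primrec.fst.comp Primrec.unpair))
    · exact Primrec.fst.comp (Primrec.unpair.comp (Primrec.snd.comp
        (Primrec.unpair.comp (Primrec.fst.comp Primrec.unpair))))
    · exact Primrec.snd.comp (Primrec.unpair.comp (Primrec.snd.comp
        (Primrec.unpair.comp (Primrec.fst.comp Primrec.unpair))))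
    · exact Primrec.fst.comp (Primrec.unpair.comp (Primrec.snd.comp Primrec.unpair))
    · exact Primrec.snd.comp (Primrec.unpair.comp (Primrec.snd.comp Primrec.unpair))
  obtain ⟨F, hFP, hF⟩ := choice_rec hP hPr
  -- the sequence of words
  obtain ⟨a, ha0, ha1, ha⟩ := exists_iter hF
  have hspec : ∀ n, P (Nat.pair n (a n)) (a (n + 1)) := fun n => by
    rw [ha1]
    exact hFP _
  have hv : ∀ n, Nat.pair (a n).unpair.1 (a n).unpair.2 ∈ Vs := by
    intro n
    induction n with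
    | zero =>
      rw [hVs]
      refine ⟨y, hS.refl y hy, fun i hi => ?_⟩
      rw [ha0] at hi
      simp at hi
    | succ n ih =>
      have h1 := hspec n
      simp only [P, Nat.unpair_pair] at h1
      simpa using (h1 (by simpa using ih)).1
  have hst : ∀ n, St c S' (fun l w => Nat.pair l w ∈ Vs) n (a n).unpair.1 (a n).unpair.2
      (a (n + 1)).unpair.1 (a (n + 1)).unpair.2 := by
    intro n
    have h1 := hspec n
    simp only [P, Nat.unpair_pair] at h1
    exact h1 (by simpa using hv n)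
  have hlen : ∀ n, n ≤ (a n).unpair.1 := by
    intro n
    induction n with
    | zero => exact Nat.zero_le _
    | succ n ih =>
      have := (hst n).2.1
      omega
  have hmono : ∀ n d, (a n).unpair.1 ≤ (a (n + d)).unpair.1 ∧ ∀ i < (a n).unpair.1,
      dig k (a (n + d)).unpair.2 i = dig k (a n).unpair.2 i := by
    intro n d
    induction d with
    | zero => exact ⟨le_rfl, fun i _ => rfl⟩
    | succ d ih =>
      obtain ⟨-, h1, h2, -⟩ := hst (n + d)
      refine ⟨by rw [← Nat.add_assoc]; omega, fun i hi => ?_⟩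
      rw [← Nat.add_assoc, h2 i (by omega), ih.2 i hi]
  let z : ℕ → Fin k := fun i => ⟨dig k (a (i + 1)).unpair.2 i, Nat.mod_lt _ hk⟩
  have hz : ∀ n, ∀ i < (a n).unpair.1, (z i : ℕ) = dig k (a n).unpair.2 i := by
    intro n i hi
    show dig k (a (i + 1)).unpair.2 i = _
    rcases le_total (i + 1) n with h | h
    · obtain ⟨d, rfl⟩ := Nat.exists_eq_add_of_le h
      exact ((hmono (i + 1) d).2 i (hlen (i + 1))).symm
    · obtain ⟨d, hd⟩ := Nat.exists_eq_add_of_le h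
      rw [hd]
      exact (hmono n d).2 i hi
  have hyz : (y, z) ∈ S := by
    refine mem_of_parts2 hS.closed fun l => ?_
    obtain ⟨z', hz', hzw⟩ := (hVs _ _).1 (hv l)
    refine ⟨(y, z'), hz', fun i hi => ⟨rfl, Fin.ext ?_⟩⟩
    have := hlen l
    rw [hz l i (by omega), hzw i (by omega)]
  refine ⟨z, (hS.sub hyz).2, fun m => ?_, ?_⟩
  · obtain ⟨-, -, -, x, -, hx, C, -, D, -, h1, h2, q, hq, h3⟩ := hst m
    refine ⟨x, q, hq, fun i hi => ⟨Fin.ext ?_, Fin.ext ?_⟩⟩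
    · rw [(h3 i hi).1, h1 i hi]
    · rw [(h3 i hi).2, ← h2 i hi, hz (m + 1) (x + i) (by omega)]
  · have h1 : RP a fun p : ℕ => dig k (a (p.unpair.1 + 1)).unpair.2 p.unpair.1 = p.unpair.2 := by
      refine RP.oracle (g := a) (q := fun p x => dig k x.unpair.2 p.unpair.1 = p.unpair.2) ?_
        (f := fun p : ℕ => p.unpair.1 + 1) (Primrec.succ.comp (Primrec.fst.comp Primrec.unpair))
      refine Primrec.eq.comp ((dig_prim k).comp (Primrec.snd.comp (Primrec.unpair.comp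
        Primrec.snd)) (Primrec.fst.comp (Primrec.unpair.comp Primrec.fst)))
        (Primrec.snd.comp (Primrec.unpair.comp Primrec.fst))
    exact RP.recNat h1 ha

end Pool.Agent.Work.MP_69fea5_lc.PR
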