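import Pool.Agent.Work.MP_69fea5_lc.PR.ModC

set_option autoImplicit false

/-!
# A minimal subshift in the limit set with language computable in the second jump
-/

namespace Pool.Agent.Work.MP_69fea5_lc.PR

open Pool.Agent.Work.MP_69fea5_lc
open Pool.Agent.Work.MP_69fea5_lc.PD

variable {k : ℕ}

/-! ### words -/

/-- the word with code `e` -/
def wd (e : ℕ) : List ℕ := (Encodable.decode (α := List ℕ) e).getD []

theorem wd_encode (l : List ℕ) : wd (Encodable.encode l) = l := by simp [wd]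

theorem encode_wd (e : ℕ) : Encodable.encode (wd e) = e := by
  obtain ⟨l, hl⟩ : ∃ l : List ℕ, Encodable.encode l = e :=
    ⟨Denumerable.ofNat (List ℕ) e, Denumerable.encode_ofNat e⟩
  rw [← hl, wd_encode]

/-- the word with code `e` occurs in `z` at the place `x` -/
def occ (z : ℕ → Fin k) (e x : ℕ) : Prop := ∀ i < (wd e).length, (z (x + i) : ℕ) = (wd e).getD i 0

theorem occ_prefix (z : ℕ → Fin k) (l x : ℕ) (w : ℕ → Fin k) :
    occ w (Encodable.encode ((List.range l).map fun i => (z i : ℕ))) x ↔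
      ∀ i < l, w (x + i) = z i := by
  unfold occ
  rw [wd_encode]
  simp only [List.length_map, List.length_range]
  refine forall_congr' fun i => forall_congr' fun hi => ?_
  have : ((List.range l).map fun i => (z i : ℕ)).getD i 0 = z i := by
    simp [List.getD, hi]
  rw [this]
  exact ⟨fun h => Fin.ext h, fun h => by rw [h]⟩

theorem mem_language_iff {M : Set (ℕ → Fin k)} {e : ℕ} :
    e ∈ language M ↔ ∃ z ∈ M, occ z e 0 := by
  constructor
  · rintro ⟨z, hz, l, h⟩
    refine ⟨z, hz, ?_⟩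
    rw [← h]
    exact (occ_prefix z l 0 z).2 fun i _ => by rw [Nat.zero_add]
  · rintro ⟨z, hz, h⟩
    refine ⟨z, hz, (wd e).length, ?_⟩
    rw [← encode_wd e, wd_encode]
    congr 1
    refine List.ext_getElem (by simp) fun i h1 h2 => ?_
    have h3 := h i h2
    rw [Nat.zero_add] at h3
    simp only [List.getElem_map, List.getElem_range, h3]
    simp [List.getD, h2]

/-- the word of `c` on `[x, x + n)` contains none of the words coded by the digits of `s` -/
def Avoid (c : ℕ → Fin k) (s x n : ℕ) : Prop :=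
  ∀ e < s, dig 2 s e = 1 → ∀ j < n + 1, j + (wd e).length ≤ n → ¬ occ c e (x + j)

/-- the words coded by the digits of `s` can be avoided in the limit set -/
def Av (c : ℕ → Fin k) (s : ℕ) : Prop := ∀ n, ∃ x, n ≤ x ∧ Avoid c s x n

open Classical in
/-- the greedy sequence -/
noncomputable def gs (c : ℕ → Fin k) : ℕ → ℕ
  | 0 => 0
  | n + 1 => if Av c (gs c n + 2 ^ n) then gs c n + 2 ^ n else gs c n

open Classical in
theorem gs_succ (c : ℕ → Fin k) (n : ℕ) :
    gs c (n + 1) = if Av c (gs c n + 2 ^ n) then gs c n + 2 ^ n else gs c n := rfl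

/-- the forbidden words -/
def EE (c : ℕ → Fin k) : Set ℕ := {n | Av c (gs c n + 2 ^ n)}

open Classical in
/-- the characteristic sequence of the forbidden words -/
noncomputable def chi (c : ℕ → Fin k) (n : ℕ) : Fin 2 := if n ∈ EE c then 1 else 0

theorem gs_eq (c : ℕ → Fin k) (n : ℕ) : gs c n = num 2 (chi c) n := by
  induction n with
  | zero => rfl
  | succ n ih =>
    by_cases h : Av c (gs c n + 2 ^ n)
    · have h1 : chi c n = 1 := if_pos h
      show gs c (n + 1) = num 2 (chi c) n + (chi c n : ℕ) * 2 ^ n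
      rw [gs_succ, if_pos h, h1, ← ih]
      simp
    · have h1 : chi c n = 0 := if_neg h
      show gs c (n + 1) = num 2 (chi c) n + (chi c n : ℕ) * 2 ^ n
      rw [gs_succ, if_neg h, h1, ← ih]
      simp

theorem lt_of_dig {s e : ℕ} (h : dig 2 s e = 1) : e < s := by
  by_contra hc
  have h1 : s < 2 ^ e := lt_of_le_of_lt (not_lt.1 hc) Nat.lt_two_pow_self
  unfold dig at h
  rw [Nat.div_eq_of_lt h1] at h
  simp at h

theorem dig_num_iff (z : ℕ → Fin 2) (n e : ℕ) :
    dig 2 (num 2 z n) e = 1 ↔ e < n ∧ z e = 1 := by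
  by_cases h : e < n
  · rw [dig_num z h]
    constructor
    · intro h1
      exact ⟨h, Fin.ext h1⟩
    · rintro ⟨-, h1⟩
      rw [h1]
      rfl
  · constructor
    · intro h1
      have h2 : num 2 z n < 2 ^ n := num_lt z n
      have h3 : 2 ^ n ≤ 2 ^ e := Nat.pow_le_pow_right (by norm_num) (not_lt.1 h)
      unfold dig at h1
      rw [Nat.div_eq_of_lt (lt_of_lt_of_le h2 h3)] at h1
      simp at h1
    · rintro ⟨h1, -⟩
      exact absurd h1 h

theorem dig_gs (c : ℕ → Fin k) (n e : ℕ) : dig 2 (gs c n) e = 1 ↔ e < n ∧ e ∈ EE c := by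
  rw [gs_eq, dig_num_iff]
  unfold chi
  by_cases h : e ∈ EE c <;> simp [h]

theorem dig_gs' (c : ℕ → Fin k) (n e : ℕ) :
    dig 2 (gs c n + 2 ^ n) e = 1 ↔ (e < n ∧ e ∈ EE c) ∨ e = n := by
  classical
  have h1 : gs c n + 2 ^ n = num 2 (Function.update (chi c) n 1) (n + 1) := by
    show _ = num 2 (Function.update (chi c) n 1) n +
      ((Function.update (chi c) n 1 n : Fin 2) : ℕ) * 2 ^ n
    have h2 : ∀ m ≤ n, num 2 (Function.update (chi c) n 1) m = num 2 (chi c) m := by
      intro m hm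
      induction m with
      | zero => rfl
      | succ m ih =>
        show num 2 (Function.update (chi c) n 1) m + _ = num 2 (chi c) m + _
        rw [ih (by omega), Function.update_of_ne (by omega)]
    rw [h2 n le_rfl, gs_eq]
    simp
  rw [h1, dig_num_iff]
  by_cases he : e = n
  · subst he
    simp
  · rw [Function.update_of_ne he]
    unfold chi
    by_cases h : e ∈ EE c <;> simp [h, he]
    omega

theorem Av_gs (c : ℕ → Fin k) (n : ℕ) : Av c (gs c n) := by
  induction n with
  | zero =>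
    intro n
    refine ⟨n, le_rfl, fun e he => ?_⟩
    exact absurd he (Nat.not_lt_zero _)
  | succ n ih =>
    rw [gs_succ]
    by_cases h : Av c (gs c n + 2 ^ n)
    · rw [if_pos h]; exact h
    · rw [if_neg h]; exact ih

/-- the greedy minimal subshift -/
def MM (c : ℕ → Fin k) : Set (ℕ → Fin k) := {z | ∀ e ∈ EE c, ∀ j, ¬ occ z e j}

theorem MM_nonempty (c : ℕ → Fin k) : (MM c).Nonempty := by
  have h := fun n => Av_gs c n n
  choose x hx hxa using h
  obtain ⟨z, hz⟩ := exists_limit fun n i => c (x n + i)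
  refine ⟨z, fun e he j hj => ?_⟩
  obtain ⟨n, hn, hn'⟩ := hz (j + (wd e).length) (e + 1 + j + (wd e).length)
  have h1 : dig 2 (gs c n) e = 1 := (dig_gs c n e).2 ⟨by omega, he⟩
  refine hxa n e (lt_of_dig h1) h1 j (by omega) (by omega) fun i hi => ?_
  have h2 := hn' (j + i) (by omega)
  rw [← hj i hi, ← h2]
  congr 2
  omega

theorem MM_closed (c : ℕ → Fin k) : IsClosed (MM c) := by
  have h1 : MM c = ⋂ e ∈ EE c, ⋂ j, {z : ℕ → Fin k | occ z e j}ᶜ := by
    ext z
    simp [MM]
  rw [h1]
  refine isClosed_biInter fun e _ => isClosed_iInter fun j => isClosed_compl_iff.2 ?_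
  have h2 : {z : ℕ → Fin k | occ z e j} = ⋂ i ∈ Finset.range (wd e).length,
      {z : ℕ → Fin k | (z (j + i) : ℕ) = (wd e).getD i 0} := by
    ext z
    simp [occ]
  rw [h2]
  refine isOpen_biInter_finset fun i _ => ?_
  have hc : Continuous fun z : ℕ → Fin k => z (j + i) := continuous_apply (j + i)
  exact (isOpen_discrete {a : Fin k | (a : ℕ) = (wd e).getD i 0}).preimage hc

theorem occ_shift (z : ℕ → Fin k) (e x j : ℕ) : occ (fun n => z (x + n)) e j ↔ occ z e (x + j) := by
  unfold occ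
  refine forall_congr' fun i => forall_congr' fun _ => ?_
  show (z (x + (j + i)) : ℕ) = _ ↔ _
  rw [← Nat.add_assoc]

theorem MM_shift (c : ℕ → Fin k) : ∀ z ∈ MM c, (fun n => z (n + 1)) ∈ MM c := by
  intro z hz e he j hj
  have e1 : (fun n => z (n + 1)) = fun n => z (1 + n) := by
    funext n
    rw [Nat.add_comm]
  rw [e1, occ_shift] at hj
  exact hz e he _ hj

theorem MM_limit (c : ℕ → Fin k) : ∀ z ∈ MM c, ∀ l N, ∃ x, N ≤ x ∧ ∀ i < l, c (x + i) = z i := by
  intro z hz l N
  set e := Encodable.encode ((List.range l).map fun i => (z i : ℕ)) with he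
  have h1 : occ z e 0 := (occ_prefix z l 0 z).2 fun i _ => by rw [Nat.zero_add]
  have h2 : ¬ Av c (gs c e + 2 ^ e) := fun h => hz e h 0 h1
  unfold Av at h2
  push Not at h2
  obtain ⟨n, hn⟩ := h2
  obtain ⟨x, hx, hxa⟩ := Av_gs c e (n + N)
  have h3 := hn x (by omega)
  unfold Avoid at h3
  push Not at h3
  obtain ⟨e', he', h4, j, hj, h5, h6⟩ := h3
  rcases (dig_gs' c e e').1 h4 with ⟨h7, h8⟩ | h7
  · have h9 : dig 2 (gs c e) e' = 1 := (dig_gs c e e').2 ⟨h7, h8⟩
    exact absurd h6 (hxa e' (lt_of_dig h9) h9 j (by omega) (by omega))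
  · rw [h7, he, occ_prefix] at h6
    exact ⟨x + j, by omega, h6⟩

/-- a word that does not occur in some point of `MM c` is forbidden -/
theorem mem_EE {c w : ℕ → Fin k} (hw : w ∈ MM c) {e : ℕ} (he : ∀ j, ¬ occ w e j) : e ∈ EE c := by
  intro n
  obtain ⟨x, hx, hxw⟩ := MM_limit c w hw n n
  refine ⟨x, hx, fun e' _ h1 j _ h2 h3 => ?_⟩
  have h4 : occ w e' j := fun i hi => by
    rw [← h3 i hi]
    have := hxw (j + i) (by omega)
    rw [← this]
    congr 2
    omega
  rcases (dig_gs' c e e').1 h1 with ⟨h5, h6⟩ | h5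
  · exact hw e' h6 j h4
  · rw [h5] at h4
    exact he j h4

theorem MM_minimal (c : ℕ → Fin k) : MinimalSubshift (MM c) := by
  refine ⟨MM_nonempty c, MM_closed c, MM_shift c, fun N hN hne hcl hT => ?_⟩
  refine Set.Subset.antisymm hN fun z hz => ?_
  by_contra hzN
  have h1 : ∃ l, ∀ w ∈ N, ∃ i < l, w i ≠ z i := by
    by_contra hc
    push Not at hc
    exact hzN (mem_of_parts hcl hc)
  obtain ⟨l, hl⟩ := h1
  obtain ⟨w, hw⟩ := hne
  have h2 : Encodable.encode ((List.range l).map fun i => (z i : ℕ)) ∈ EE c := by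
    refine mem_EE (hN hw) fun j hj => ?_
    rw [occ_prefix] at hj
    obtain ⟨i, hi, h3⟩ := hl _ (shift_mem hT hw j)
    exact h3 (hj i hi)
  exact hz _ h2 0 ((occ_prefix z l 0 z).2 fun i _ => by rw [Nat.zero_add])

theorem language_MM (c : ℕ → Fin k) : language (MM c) = (EE c)ᶜ := by
  ext e
  rw [mem_language_iff]
  constructor
  · rintro ⟨z, hz, h⟩ he
    exact hz e he 0 h
  · intro he
    by_contra hc
    push Not at hc
    obtain ⟨w, hw⟩ := MM_nonempty c
    refine he (mem_EE hw fun j hj => ?_)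
    refine hc _ (shift_mem (MM_shift c) hw j) ?_
    rw [occ_shift]
    exact hj

end Pool.Agent.Work.MP_69fea5_lc.PR
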