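import Pool.Agent.Work.MP_69fea5_lc.PR.Greedy

set_option autoImplicit false

/-!
# The greedy minimal subshift: computability
-/

namespace Pool.Agent.Work.MP_69fea5_lc.PR

open Pool.Agent.Work.MP_69fea5_lc
open Pool.Agent.Work.MP_69fea5_lc.PD

variable {k : ℕ}

/-- A simple recursion. -/
theorem rec_gen {O : Set (ℕ →. ℕ)} {χ : ℕ → ℕ}
    (hχ : Nat.RecursiveIn O (fun n => Part.some (χ n))) {F : ℕ → ℕ} (hF : Computable F)
    {s : ℕ → ℕ} (h0 : s 0 = 0)
    (hs : ∀ n, s (n + 1) = F (Nat.pair n (Nat.pair (s n) (χ (Nat.pair (s n) n))))) :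
    Nat.RecursiveIn O (fun n => Part.some (s n)) := by
  have hy : Computable (fun p : ℕ => p.unpair.2.unpair.1) :=
    (Primrec.fst.comp (Primrec.unpair.comp (Primrec.snd.comp Primrec.unpair))).to_comp
  have hi : Computable (fun p : ℕ => p.unpair.2.unpair.2) :=
    (Primrec.snd.comp (Primrec.unpair.comp (Primrec.snd.comp Primrec.unpair))).to_comp
  have hstep : Nat.RecursiveIn O (fun p : ℕ => Part.some
      (F (Nat.pair p.unpair.2.unpair.1 (Nat.pair p.unpair.2.unpair.2
        (χ (Nat.pair p.unpair.2.unpair.2 p.unpair.2.unpair.1)))))) :=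
    comp_tot (comp_of hF) (pair_tot (comp_of hy) (pair_tot (comp_of hi)
      (comp_tot hχ (pair_tot (comp_of hi) (comp_of hy)))))
  have hbase : Nat.RecursiveIn O (fun _ : ℕ => Part.some 0) := comp_of (Computable.const _)
  have hp := Nat.RecursiveIn.prec hbase hstep
  have hq : Nat.RecursiveIn O (fun n : ℕ => Part.some (Nat.pair 0 n)) :=
    comp_of (Primrec₂.natPair.comp (Primrec.const 0) Primrec.id).to_comp
  refine (Nat.RecursiveIn.comp hp hq).of_eq ?_
  intro n
  simp only [Part.bind_eq_bind, Part.bind_some, Nat.unpair_pair]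
  induction n with
  | zero => simp [h0]
  | succ n ih =>
    simp only [ih, Part.bind_some]
    congr 1
    rw [hs]

theorem wd_prim : Primrec wd := Primrec.option_getD.comp Primrec.decode (Primrec.const [])

section

variable {c : ℕ → Fin k} {α : Type*} [Primcodable α]

theorem RP.col' {f e : α → ℕ} (hf : Primrec f) (he : Primrec e) :
    RP (fun n => (c n : ℕ)) fun a => (c (f a) : ℕ) = e a :=
  RP.oracle (g := fun n => (c n : ℕ)) (q := fun a x => x = e a)
    (Primrec.eq.comp Primrec.snd (he.comp Primrec.fst)) hf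

theorem RP.occ {e x : α → ℕ} (he : Primrec e) (hx : Primrec x) :
    RP (fun n => (c n : ℕ)) fun a => PR.occ c (e a) (x a) := by
  unfold PR.occ
  refine RP.ball (p := fun i a => (c (x a + i) : ℕ) = (wd (e a)).getD i 0) ?_
    (Primrec.list_length.comp (wd_prim.comp he))
  exact RP.col' (Primrec.nat_add.comp (hx.comp Primrec.snd) Primrec.fst)
    ((Primrec.list_getD 0).comp (wd_prim.comp (he.comp Primrec.snd)) Primrec.fst)

theorem RP.Avoid {s x n : α → ℕ} (hs : Primrec s) (hx : Primrec x) (hn : Primrec n) :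
    RP (fun n => (c n : ℕ)) fun a => PR.Avoid c (s a) (x a) (n a) := by
  unfold PR.Avoid
  refine RP.ball (p := fun e a => dig 2 (s a) e = 1 → ∀ j < n a + 1, j + (wd e).length ≤ n a →
    ¬ PR.occ c e (x a + j)) ?_ hs
  refine (RP.eq ((dig_prim 2).comp (hs.comp Primrec.snd) Primrec.fst) (Primrec.const 1)).imp ?_
  refine RP.ball (α := ℕ × α) (p := fun j y => j + (wd y.1).length ≤ n y.2 →
    ¬ PR.occ c y.1 (x y.2 + j)) ?_ (Primrec.succ.comp (hn.comp Primrec.snd))
  refine (RP.le (Primrec.nat_add.comp Primrec.fst (Primrec.list_length.comp (wd_prim.comp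
    (Primrec.fst.comp Primrec.snd)))) (hn.comp (Primrec.snd.comp Primrec.snd))).imp (RP.not ?_)
  exact RP.occ (Primrec.fst.comp Primrec.snd) (Primrec.nat_add.comp
    (hx.comp (Primrec.snd.comp Primrec.snd)) Primrec.fst)

end

/-- the colouring as an oracle -/
def orc (c : ℕ → Fin k) : Set (ℕ →. ℕ) := {fun n => Part.some (c n : ℕ)}

theorem orc_rec (c : ℕ → Fin k) :
    Nat.RecursiveIn (orc c) (fun n => Part.some ((fun n => (c n : ℕ)) n)) :=
  .oracle _ rfl

theorem sigmaTwo_Av (c : ℕ → Fin k) : IsSigmaTwoIn (orc c) {s | ¬ Av c s} := by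
  refine ⟨{p | ¬ (p.unpair.2.unpair.1 ≤ p.unpair.2.unpair.2 ∧
    Avoid c p.unpair.1 p.unpair.2.unpair.2 p.unpair.2.unpair.1)},
    RecursiveIn.iff_nat.2 (RP.recNat (RP.not (RP.and (RP.le ?_ ?_) (RP.Avoid ?_ ?_ ?_)))
      (orc_rec c)), fun n => ?_⟩
  · exact Primrec.fst.comp (Primrec.unpair.comp (Primrec.snd.comp Primrec.unpair))
  · exact Primrec.snd.comp (Primrec.unpair.comp (Primrec.snd.comp Primrec.unpair))
  · exact Primrec.fst.comp Primrec.unpair
  · exact Primrec.snd.comp (Primrec.unpair.comp (Primrec.snd.comp Primrec.unpair))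
  · exact Primrec.fst.comp (Primrec.unpair.comp (Primrec.snd.comp Primrec.unpair))
  · simp only [Av, Set.mem_ofPred_eq, Nat.unpair_pair]
    push Not
    rfl

theorem MM_language (c : ℕ → Fin k) :
    Nat.RecursiveIn (jumpTwo (orc c)) (charFn (language (MM c))) := by
  classical
  let S : Set ℕ := {s | ¬ Av c s}
  have hS : Nat.RecursiveIn (jumpTwo (orc c)) (charFn S) := .oracle _ ⟨_, sigmaTwo_Av c, rfl⟩
  -- `χ (s, n)` tells whether `Av c (s + 2 ^ n)` fails
  let χ : ℕ → ℕ := fun p => if p.unpair.1 + 2 ^ p.unpair.2 ∈ S then 1 else 0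
  have hadd : Computable fun p : ℕ => p.unpair.1 + 2 ^ p.unpair.2 :=
    (Primrec.nat_add.comp (Primrec.fst.comp Primrec.unpair)
      ((pow_prim 2).comp (Primrec.snd.comp Primrec.unpair))).to_comp
  let θ : ℕ → ℕ := fun n => if n ∈ S then 1 else 0
  have hS' : Nat.RecursiveIn (jumpTwo (orc c)) (fun n => Part.some (θ n)) :=
    hS.of_eq fun n => by simp [charFn, θ]
  have hχ : Nat.RecursiveIn (jumpTwo (orc c)) (fun n => Part.some (χ n)) :=
    comp_tot (f := θ) (h := fun p : ℕ => p.unpair.1 + 2 ^ p.unpair.2) hS' (comp_of hadd)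
  let F : ℕ → ℕ := fun p => if p.unpair.2.unpair.2 = 0 then p.unpair.2.unpair.1 + 2 ^ p.unpair.1
    else p.unpair.2.unpair.1
  have hF : Computable F := by
    apply Primrec.to_comp
    refine Primrec.ite ?_ ?_ ?_
    · exact Primrec.eq.comp (Primrec.snd.comp (Primrec.unpair.comp (Primrec.snd.comp
        Primrec.unpair))) (Primrec.const 0)
    · exact Primrec.nat_add.comp (Primrec.fst.comp (Primrec.unpair.comp (Primrec.snd.comp
        Primrec.unpair))) ((pow_prim 2).comp (Primrec.fst.comp Primrec.unpair))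
    · exact Primrec.fst.comp (Primrec.unpair.comp (Primrec.snd.comp Primrec.unpair))
  have hgs : Nat.RecursiveIn (jumpTwo (orc c)) (fun n => Part.some (gs c n)) := by
    refine rec_gen hχ hF rfl fun n => ?_
    rw [gs_succ]
    simp only [F, χ, Nat.unpair_pair]
    by_cases h : Av c (gs c n + 2 ^ n)
    · have h1 : gs c n + 2 ^ n ∉ S := fun h2 => h2 h
      rw [if_pos h, if_neg h1, if_pos rfl]
    · have h1 : gs c n + 2 ^ n ∈ S := h
      rw [if_neg h, if_pos h1, if_neg one_ne_zero]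
  refine (comp_tot hχ (pair_tot hgs (comp_of Computable.id))).of_eq fun n => ?_
  rw [language_MM]
  simp only [χ, Nat.unpair_pair, id]
  by_cases h : Av c (gs c n + 2 ^ n)
  · have h1 : gs c n + 2 ^ n ∉ S := fun h2 => h2 h
    have h2 : n ∉ (EE c)ᶜ := fun h3 => h3 h
    rw [if_neg h1]
    simp only [charFn, if_neg h2]
  · have h1 : gs c n + 2 ^ n ∈ S := h
    have h2 : n ∈ (EE c)ᶜ := h
    rw [if_pos h1]
    simp only [charFn, if_pos h2]

end Pool.Agent.Work.MP_69fea5_lc.PR
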