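import Pool.Agent.Work.MP_69fea5_lc.PD.Main
import Pool.Agent.Work.MP_69fea5_lc.PD.I_AE

set_option autoImplicit false

/-!
# A closed proximal cell with a modulus
-/

namespace Pool.Agent.Work.MP_69fea5_lc.PR

open Pool.Agent.Work.MP_69fea5_lc Filter Topology
open Pool.Agent.Work.MP_69fea5_lc.PD

attribute [local instance] Ultrafilter.add Ultrafilter.addSemigroup

variable {k : ℕ}

/-! ### compactness -/

/-- a sequence of points has a limit point: any finite part of the limit is the finite part of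
points of the sequence with arbitrarily large index -/
theorem exists_limit {α : Type*} [TopologicalSpace α] [CompactSpace α] [DiscreteTopology α]
    (a : ℕ → ℕ → α) : ∃ z : ℕ → α, ∀ l N, ∃ n, N ≤ n ∧ ∀ i < l, a n i = z i := by
  obtain ⟨z, -, hz⟩ := (isCompact_univ (X := ℕ → α)).exists_mapClusterPt (f := atTop) (u := a)
    (by simp)
  refine ⟨z, fun l N => ?_⟩
  have hop : {w : ℕ → α | ∀ i < l, w i = z i} ∈ 𝓝 z := by
    have : {w : ℕ → α | ∀ i < l, w i = z i} = ⋂ i ∈ Finset.range l, {w | w i = z i} := by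
      ext w; simp
    rw [this]
    refine (isOpen_biInter_finset fun i _ => ?_).mem_nhds (by simp)
    have hc : Continuous fun w : ℕ → α => w i := continuous_apply i
    exact (isOpen_discrete ({z i} : Set α)).preimage hc
  have h1 := (mapClusterPt_iff_frequently.1 hz) _ hop
  obtain ⟨n, hn, hn'⟩ := (h1.and_eventually (eventually_ge_atTop N)).exists
  exact ⟨n, hn', hn⟩

/-- closed sets contain points all of whose finite parts are finite parts of points of the set -/
theorem mem_of_parts {α : Type*} [TopologicalSpace α] {M : Set (ℕ → α)}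
    (hM : IsClosed M) {z : ℕ → α} (h : ∀ l, ∃ w ∈ M, ∀ i < l, w i = z i) : z ∈ M := by
  choose a ha haz using h
  have ht : Tendsto a atTop (𝓝 z) := by
    rw [tendsto_pi_nhds]
    intro i
    refine tendsto_const_nhds.congr' ?_
    filter_upwards [eventually_gt_atTop i] with n hn
    exact (haz n i hn).symm
  exact hM.mem_of_tendsto ht (Eventually.of_forall ha)

theorem shift_mem {M : Set (ℕ → Fin k)} (hT : ∀ z ∈ M, (fun n => z (n + 1)) ∈ M)
    {z : ℕ → Fin k} (hz : z ∈ M) (x : ℕ) : (fun n => z (x + n)) ∈ M := by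
  induction x with
  | zero => simpa using hz
  | succ x ih =>
    have := hT _ ih
    convert this using 2
    congr 1
    omega

/-- in a minimal subshift the prefixes of points occur in all points, in a bounded time -/
theorem exists_return {M : Set (ℕ → Fin k)} (hM : MinimalSubshift M) {y : ℕ → Fin k}
    (hy : y ∈ M) (m : ℕ) : ∃ G, ∀ z ∈ M, ∃ t < G, ∀ i < m, z (t + i) = y i := by
  by_contra hc
  push Not at hc
  choose a ha hat using hc
  obtain ⟨z, hz⟩ := exists_limit a
  have hzM : z ∈ M := mem_of_parts hM.closed fun l => by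
    obtain ⟨n, -, hn⟩ := hz l 0
    exact ⟨a n, ha n, hn⟩
  have hzn : ∀ t, ∃ i < m, z (t + i) ≠ y i := by
    intro t
    obtain ⟨n, hn, hn'⟩ := hz (t + m) (t + 1)
    obtain ⟨i, hi, hi'⟩ := hat n t (by omega)
    exact ⟨i, hi, by rwa [← hn' (t + i) (by omega)]⟩
  let N : Set (ℕ → Fin k) := {w | w ∈ M ∧ ∀ t, ∃ i < m, w (t + i) ≠ y i}
  have hN : N = M := by
    refine hM.minimal N (fun w hw => hw.1) ⟨z, hzM, hzn⟩ ?_ ?_
    · have : N = M ∩ ⋂ t, ⋃ i, ⋃ _ : i < m, {w : ℕ → Fin k | w (t + i) ≠ y i} := by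
        ext w
        simp [N]
      rw [this]
      refine hM.closed.inter (isClosed_iInter fun t => ?_)
      have h2 : (⋃ i, ⋃ _ : i < m, {w : ℕ → Fin k | w (t + i) ≠ y i}) =
          ⋃ i ∈ Finset.range m, {w : ℕ → Fin k | w (t + i) ≠ y i} := by
        ext w; simp
      rw [h2]
      refine isClosed_biUnion_finset fun i _ => ?_
      have hc : Continuous fun w : ℕ → Fin k => w (t + i) := continuous_apply (t + i)
      exact (isClosed_discrete ({y i}ᶜ : Set (Fin k))).preimage hc
    · rintro w ⟨hw, hw'⟩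
      refine ⟨hM.shift w hw, fun t => ?_⟩
      obtain ⟨i, hi, h3⟩ := hw' (t + 1)
      refine ⟨i, hi, ?_⟩
      have e : t + 1 + i = t + i + 1 := by omega
      rwa [e] at h3
  obtain ⟨-, h4⟩ : y ∈ N := hN ▸ hy
  obtain ⟨i, -, hi'⟩ := h4 0
  simp at hi'

theorem HypM_of_modulus {c : ℕ → Fin k} {M : Set (ℕ → Fin k)} (hM : MinimalSubshift M)
    {y : ℕ → Fin k} (hy : y ∈ M) (hyc : Proximal y c) {g G : ℕ → ℕ}
    (hg : ∀ z ∈ M, Proximal y z → ∀ l, ∃ x < g l, ∀ i < l, y (x + i) = z (x + i))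
    (hG : ∀ m, ∀ z ∈ M, ∃ t < G m, ∀ i < m, z (t + i) = y i) :
    HypM c M (fun m => g (G m + m) + (G m + m)) y := by
  intro m z hz hzy N
  obtain ⟨u, huu, h1, h2, h3⟩ := exists_idem hM hyc hz
  have hy'M : lm u y ∈ M := lm_mem hM.closed hM.shift u hy
  have hy' : Proximal y (lm u y) := by
    intro n
    have e : lm u (lm u y) = lm u y := by rw [← lm_add, huu]
    obtain ⟨x, hx, hx'⟩ := ((lm_spec_lt u y n).and (lm_spec_lt u (lm u y) n)).exists
    refine ⟨x, fun i hi => ?_⟩
    rw [hx i hi, hx' i hi, e]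
  obtain ⟨x', hx', hxx⟩ := hg _ hy'M hy' (G m + m)
  obtain ⟨t, ht, hty⟩ := hG m _ (shift_mem hM.shift hy x')
  have hyc' : ∀ᶠ x in (u : Filter ℕ), ∀ i < x' + (G m + m), y (x + i) = c (x + i) :=
    (eventually_all_finset (Finset.range (x' + (G m + m)))).2 (fun i _ => h2 i) |>.mono
      fun _ hx i hi => hx i (Finset.mem_range.2 hi)
  obtain ⟨x, hx1, hx2, hx3, hx4⟩ := ((h1 N).and (hyc'.and
    ((lm_spec_lt u y (x' + (G m + m))).and (lm_spec_lt u z (x' + (G m + m)))))).exists
  refine ⟨x + (x' + t), by omega, fun i hi => ?_, fun i hi => ?_⟩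
  · have e : x + (x' + t) + i = x + (x' + (t + i)) := by omega
    rw [e, ← hx2 _ (by omega), hx3 _ (by omega), ← hxx _ (by omega)]
    exact hty i hi
  · have e : x + (x' + t) + i = x + (x' + (t + i)) := by omega
    rw [e, hx4 _ (by omega), h3, hzy _ (show _ < g (G m + m) + (G m + m) by omega)]
    exact hty i hi

/-- the proximal cell of `y` is closed if and only if it has a modulus -/
theorem isClosed_iff_modulus {M : Set (ℕ → Fin k)} (hM : IsClosed M) (y : ℕ → Fin k) :
    IsClosed {z | z ∈ M ∧ Proximal y z} ↔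
      ∃ g : ℕ → ℕ, ∀ z ∈ M, Proximal y z → ∀ l, ∃ x < g l, ∀ i < l, y (x + i) = z (x + i) := by
  constructor
  · intro h
    have h1 : ∀ l, ∃ g, ∀ z ∈ M, Proximal y z → ∃ x < g, ∀ i < l, y (x + i) = z (x + i) := by
      intro l
      by_contra hc
      push Not at hc
      choose a ha hay hat using hc
      obtain ⟨z, hz⟩ := exists_limit a
      have hz' : z ∈ {z | z ∈ M ∧ Proximal y z} := mem_of_parts h fun l => by
        obtain ⟨n, -, hn⟩ := hz l 0
        exact ⟨a n, ⟨ha n, hay n⟩, hn⟩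
      obtain ⟨x, hx⟩ := hz'.2 l
      obtain ⟨n, hn, hn'⟩ := hz (x + l) (x + 1)
      obtain ⟨i, hi, hi'⟩ := hat n x (by omega)
      exact hi' (by rw [hx i hi, hn' (x + i) (by omega)])
    choose g hg using h1
    exact ⟨g, fun z hz hzy l => hg l z hz hzy⟩
  · rintro ⟨g, hg⟩
    have : {z | z ∈ M ∧ Proximal y z} = M ∩ ⋂ l, ⋃ x ∈ Finset.range (g l),
        ⋂ i ∈ Finset.range l, {z : ℕ → Fin k | y (x + i) = z (x + i)} := by
      ext z
      simp only [Set.mem_ofPred_eq, Set.mem_inter_iff, Set.mem_iInter, Set.mem_iUnion,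
        Finset.mem_range, exists_prop]
      constructor
      · rintro ⟨h1, h2⟩
        exact ⟨h1, hg z h1 h2⟩
      · rintro ⟨h1, h2⟩
        refine ⟨h1, fun l => ?_⟩
        obtain ⟨x, -, hx⟩ := h2 l
        exact ⟨x, hx⟩
    rw [this]
    refine hM.inter (isClosed_iInter fun l => isClosed_biUnion_finset fun x _ =>
      isClosed_biInter fun i _ => ?_)
    exact isClosed_eq continuous_const (continuous_apply (x + i))

end Pool.Agent.Work.MP_69fea5_lc.PR
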