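import Pool.Agent.Work.MP_69fea5_lc.PR.Mod

set_option autoImplicit false

/-!
# A closed proximal cell with a modulus: computability
-/

namespace Pool.Agent.Work.MP_69fea5_lc.PR

open Pool.Agent.Work.MP_69fea5_lc
open Pool.Agent.Work.MP_69fea5_lc.PD

variable {k : ℕ}

theorem find_rec {O : Set (ℕ →. ℕ)} {p : ℕ → Prop} (hp : Nat.RecursiveIn O (charFn {n | p n}))
    {f : ℕ → ℕ} (hf : ∀ m, p (Nat.pair m (f m)) ∧ ∀ n < f m, ¬ p (Nat.pair m n)) :
    Nat.RecursiveIn O (fun m => Part.some (f m)) := by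
  classical
  let χ : ℕ → ℕ := fun n => if p n then 1 else 0
  have hχ : Nat.RecursiveIn O (fun n => Part.some (χ n)) := hp.of_eq fun n => by
    simp [charFn, χ]
  have hQ : Computable fun n : ℕ => 1 - n := (Primrec.nat_sub.comp (Primrec.const 1)
    Primrec.id).to_comp
  refine (Nat.RecursiveIn.rfind (comp_tot (comp_of hQ) hχ)).of_eq fun m => ?_
  apply Part.eq_some_iff.2
  obtain ⟨h1, h2⟩ := hf m
  refine Nat.mem_rfind.2 ⟨?_, fun {n} hn => ?_⟩
  · simp only [Part.map_eq_map, Part.map_some, Part.mem_some_iff, χ, if_pos h1]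
    simp
  · simp only [Part.map_eq_map, Part.map_some, Part.mem_some_iff, χ, if_neg (h2 n hn)]
    simp

/-- the bound `G` works for all words of length `m` -/
def Ret (M : Set (ℕ → Fin k)) (m G : ℕ) : Prop :=
  ∀ V < k ^ (G + m), Lk M (G + m) V → ∀ v < k ^ m, Lk M m v → ∃ t < G, ∀ i < m,
    dig k V (t + i) = dig k v i

theorem exists_Ret {M : Set (ℕ → Fin k)} (hM : MinimalSubshift M) (m : ℕ) : ∃ G, Ret M m G := by
  have h1 : ∀ v, ∃ G, Lk M m v → ∀ z ∈ M, ∃ t < G, ∀ i < m, (z (t + i) : ℕ) = dig k v i := by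
    intro v
    by_cases hv : Lk M m v
    · obtain ⟨y, hy, hyv⟩ := hv
      obtain ⟨G, hG⟩ := exists_return hM hy m
      refine ⟨G, fun _ z hz => ?_⟩
      obtain ⟨t, ht, h⟩ := hG z hz
      exact ⟨t, ht, fun i hi => by rw [h i hi, hyv i hi]⟩
    · exact ⟨0, fun h => absurd h hv⟩
  choose G hG using h1
  refine ⟨(Finset.range (k ^ m)).sup G, fun V hV hVM v hv hvM => ?_⟩
  obtain ⟨z, hz, hzV⟩ := hVM
  obtain ⟨t, ht, h⟩ := hG v hvM z hz
  have h2 : G v ≤ (Finset.range (k ^ m)).sup G := Finset.le_sup (Finset.mem_range.2 hv)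
  exact ⟨t, by omega, fun i hi => by rw [← hzV (t + i) (by omega), h i hi]⟩

theorem Ret_spec {M : Set (ℕ → Fin k)} {m G : ℕ} (h : Ret M m G) {y z : ℕ → Fin k} (hy : y ∈ M)
    (hz : z ∈ M) : ∃ t < G, ∀ i < m, z (t + i) = y i := by
  obtain ⟨t, ht, h1⟩ := h (num k z (G + m)) (num_lt z _) ⟨z, hz, fun i hi => (dig_num z hi).symm⟩
    (num k y m) (num_lt y _) ⟨y, hy, fun i hi => (dig_num y hi).symm⟩
  refine ⟨t, ht, fun i hi => Fin.ext ?_⟩
  rw [← dig_num z (show t + i < G + m by omega), h1 i hi, dig_num y hi]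

theorem RP.Ret {c : ℕ → Fin k} {M : Set (ℕ → Fin k)} {h : ℕ → ℕ} {α : Type*} [Primcodable α]
    {m G : α → ℕ} (hm : Primrec m) (hG : Primrec G) :
    RP (g0 c M h) fun a => PR.Ret M (m a) (G a) := by
  unfold PR.Ret
  have hl : Primrec fun a => G a + m a := Primrec.nat_add.comp hG hm
  refine RP.ball (p := fun V a => PD.Lk M (G a + m a) V → ∀ v < k ^ (m a), PD.Lk M (m a) v →
    ∃ t < G a, ∀ i < m a, dig k V (t + i) = dig k v i) ?_ ((pow_prim k).comp hl)
  refine (RP.Lk (hl.comp Primrec.snd) Primrec.fst).imp ?_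
  refine RP.ball (α := ℕ × α) (p := fun v y => PD.Lk M (m y.2) v →
    ∃ t < G y.2, ∀ i < m y.2, dig k y.1 (t + i) = dig k v i) ?_
    ((pow_prim k).comp (hm.comp Primrec.snd))
  refine (RP.Lk (hm.comp (Primrec.snd.comp Primrec.snd)) Primrec.fst).imp ?_
  refine RP.bex (α := ℕ × ℕ × α) (p := fun t y => ∀ i < m y.2.2,
    dig k y.2.1 (t + i) = dig k y.1 i) ?_ (hG.comp (Primrec.snd.comp Primrec.snd))
  exact RP.digs (hm.comp (Primrec.snd.comp (Primrec.snd.comp Primrec.snd)))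
    (Primrec.fst.comp (Primrec.snd.comp Primrec.snd)) (Primrec.fst.comp Primrec.snd) Primrec.fst

/-- **Closed proximal cell with a modulus.** -/
theorem main_modulus {c : ℕ → Fin k} {M : Set (ℕ → Fin k)} (hM : MinimalSubshift M)
    {y : ℕ → Fin k} (hy : y ∈ M) (hyc : Proximal y c) {g : ℕ → ℕ}
    (hg : ∀ z ∈ M, Proximal y z → ∀ l, ∃ x < g l, ∀ i < l, y (x + i) = z (x + i)) :
    ∃ X : Set ℕ, (X.Infinite ∧ (∀ x ∈ X, 0 < x) ∧
      ∃ i, ∀ F : Finset ℕ, F.Nonempty → (↑F : Set ℕ) ⊆ X → c (∑ x ∈ F, x) = i) ∧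
      RecursiveIn (jumpTwo (oracles c M g)) (charFn X) := by
  classical
  let G : ℕ → ℕ := fun m => Nat.find (exists_Ret hM m)
  have hG : ∀ m, Ret M m (G m) := fun m => Nat.find_spec (exists_Ret hM m)
  have hGr : Nat.RecursiveIn (oracles c M g) (fun m => Part.some (G m)) := by
    refine find_rec (p := fun q => Ret M q.unpair.1 q.unpair.2)
      (RP.recNat (RP.Ret (Primrec.fst.comp Primrec.unpair) (Primrec.snd.comp Primrec.unpair))
        (g0_rec c M g)) fun m => ⟨?_, fun n hn => ?_⟩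
    · simp only [Nat.unpair_pair]
      exact hG m
    · simp only [Nat.unpair_pair]
      exact Nat.find_min (exists_Ret hM m) hn
  have hgr : Nat.RecursiveIn (oracles c M g) (fun m => Part.some (g m)) :=
    .oracle _ (Or.inr (Or.inr rfl))
  have hadd : Computable fun p : ℕ => p.unpair.1 + p.unpair.2 :=
    (Primrec.nat_add.comp (Primrec.fst.comp Primrec.unpair)
      (Primrec.snd.comp Primrec.unpair)).to_comp
  have h1 : Nat.RecursiveIn (oracles c M g) (fun m => Part.some (G m + m)) :=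
    (comp_tot (comp_of hadd) (pair_tot hGr (comp_of Computable.id))).of_eq fun n => by simp
  have h2 : Nat.RecursiveIn (oracles c M g)
      (fun m => Part.some (g (G m + m) + (G m + m))) :=
    (comp_tot (comp_of hadd) (pair_tot (comp_tot hgr h1) h1)).of_eq fun n => by simp
  obtain ⟨X, hX, hr⟩ := PD.main (h := fun m => g (G m + m) + (G m + m)) (fun m => by
    show m ≤ g (G m + m) + (G m + m)
    omega) hM.closed hy
    (HypM_of_modulus hM hy hyc hg fun m z hz => Ret_spec (hG m) hy hz)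
  refine ⟨X, hX, RecursiveIn.mono ?_ hr⟩
  rintro f ⟨S, ⟨R, hR, h⟩, rfl⟩
  refine ⟨S, ⟨R, RecursiveIn.subst hR ?_, h⟩, rfl⟩
  rintro f (rfl | rfl | rfl)
  · exact RecursiveIn.oracle _ (Or.inl rfl)
  · exact RecursiveIn.oracle _ (Or.inr (Or.inl rfl))
  · exact RecursiveIn.iff_nat.2 h2

end Pool.Agent.Work.MP_69fea5_lc.PR
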