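import Pool.Agent.Work.MP_69fea5_lc.PR.Fin

set_option autoImplicit false

/-!
# Finite towers of proximal and isometric steps: dynamics
-/

namespace Pool.Agent.Work.MP_69fea5_lc.PR

open Pool.Agent.Work.MP_69fea5_lc Filter Topology
open Pool.Agent.Work.MP_69fea5_lc.PD

attribute [local instance] Ultrafilter.add Ultrafilter.addSemigroup

variable {k : ℕ}

/-- a closed shift invariant equivalence relation on `M` -/
structure ICER (M : Set (ℕ → Fin k)) (S : Set ((ℕ → Fin k) × (ℕ → Fin k))) : Prop where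
  sub : S ⊆ M ×ˢ M
  closed : IsClosed S
  shift : ∀ p ∈ S, ((fun n => p.1 (n + 1)), (fun n => p.2 (n + 1))) ∈ S
  refl : ∀ z ∈ M, (z, z) ∈ S
  symm : ∀ y z, (y, z) ∈ S → (z, y) ∈ S
  trans : ∀ x y z, (x, y) ∈ S → (y, z) ∈ S → (x, z) ∈ S

/-- `T ^ x (a, b)` is `m`-close to a pair in `S` -/
def Near (S : Set ((ℕ → Fin k) × (ℕ → Fin k))) (a b : ℕ → Fin k) (x m : ℕ) : Prop :=
  ∃ p ∈ S, ∀ i < m, p.1 i = a (x + i) ∧ p.2 i = b (x + i)

/-- `y` is proximal to `c` modulo `S` -/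
def Exact (c : ℕ → Fin k) (S : Set ((ℕ → Fin k) × (ℕ → Fin k))) (y : ℕ → Fin k) : Prop :=
  ∀ m, ∃ x, Near S c y x m

/-- every pair in `S` is proximal modulo `S'` -/
def ProxStep (S S' : Set ((ℕ → Fin k) × (ℕ → Fin k))) : Prop :=
  ∀ p ∈ S, ∀ m, ∃ x, Near S' p.1 p.2 x m

/-- limits of `T ^ x (a, b)`, where `(a, b) ∈ S` tends to the diagonal, are in `S'` -/
def IsoStep (S S' : Set ((ℕ → Fin k) × (ℕ → Fin k))) : Prop :=
  ∀ q : (ℕ → Fin k) × (ℕ → Fin k), (∀ l, ∃ p ∈ S, (∀ i < l, p.1 i = p.2 i) ∧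
    ∃ x, ∀ i < l, p.1 (x + i) = q.1 i ∧ p.2 (x + i) = q.2 i) → q ∈ S'

theorem Near.mono {S : Set ((ℕ → Fin k) × (ℕ → Fin k))} {a b : ℕ → Fin k} {x m m' : ℕ}
    (h : Near S a b x m) (hm : m' ≤ m) : Near S a b x m' := by
  obtain ⟨p, hp, h⟩ := h
  exact ⟨p, hp, fun i hi => h i (by omega)⟩

theorem ICER.shift_mem {M : Set (ℕ → Fin k)} {S : Set ((ℕ → Fin k) × (ℕ → Fin k))}
    (hS : ICER M S) {p : (ℕ → Fin k) × (ℕ → Fin k)} (hp : p ∈ S) (x : ℕ) :
    ((fun n => p.1 (x + n)), (fun n => p.2 (x + n))) ∈ S := by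
  induction x with
  | zero => simpa using hp
  | succ x ih =>
    have h1 := hS.shift _ ih
    have e : ((fun n => p.1 (x + 1 + n)), (fun n => p.2 (x + 1 + n))) =
        ((fun n => p.1 (x + (n + 1))), (fun n => p.2 (x + (n + 1)))) := by
      refine Prod.ext (funext fun n => ?_) (funext fun n => ?_)
      · exact congrArg p.1 (by omega)
      · exact congrArg p.2 (by omega)
    rw [e]
    exact h1

theorem Near.shift {M : Set (ℕ → Fin k)} {S : Set ((ℕ → Fin k) × (ℕ → Fin k))}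
    (hS : ICER M S) {a b : ℕ → Fin k} {x m n : ℕ} (h : Near S a b x (n + m)) :
    Near S a b (x + n) m := by
  obtain ⟨p, hp, h⟩ := h
  refine ⟨_, hS.shift_mem hp n, fun i hi => ?_⟩
  have := h (n + i) (by omega)
  rwa [← Nat.add_assoc] at this

theorem Exact.ge {M : Set (ℕ → Fin k)} {S : Set ((ℕ → Fin k) × (ℕ → Fin k))}
    (hS : ICER M S) {c y : ℕ → Fin k} (h : Exact c S y) (m N : ℕ) :
    ∃ x, N ≤ x ∧ Near S c y x m := by
  obtain ⟨x, hx⟩ := h (N + m)
  exact ⟨x + N, by omega, hx.shift hS⟩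

theorem Exact.prox {S S' : Set ((ℕ → Fin k) × (ℕ → Fin k))} (hS : IsClosed S)
    {c y : ℕ → Fin k} (h : Exact c S y) (hs : ProxStep S S') : Exact c S' y := by
  intro m
  choose x p hp hpx using h
  obtain ⟨z, hz⟩ := exists_limit2 p
  have hzS : z ∈ S := mem_of_parts2 hS fun l => by
    obtain ⟨n, -, hn⟩ := hz l 0
    exact ⟨p n, hp n, hn⟩
  obtain ⟨x', q, hq, hqx⟩ := hs z hzS m
  obtain ⟨n, hn, hn'⟩ := hz (x' + m) (x' + m)
  refine ⟨x n + x', q, hq, fun i hi => ?_⟩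
  obtain ⟨h1, h2⟩ := hqx i hi
  obtain ⟨h3, h4⟩ := hn' (x' + i) (by omega)
  obtain ⟨h5, h6⟩ := hpx n (x' + i) (by omega)
  rw [Nat.add_assoc]
  exact ⟨h1.trans (h3.trans h5), h2.trans (h4.trans h6)⟩

theorem lm_near {c y : ℕ → Fin k} {p : Ultrafilter ℕ} (l : ℕ) :
    ∀ᶠ x in (p : Filter ℕ), ∀ i < l, lm p c i = c (x + i) ∧ lm p y i = y (x + i) := by
  filter_upwards [lm_spec_lt p c l, lm_spec_lt p y l] with x h1 h2 i hi
  exact ⟨(h1 i hi).symm, (h2 i hi).symm⟩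

/-- an exact point is equivalent to a point proximal to `c` -/
theorem exists_proximal {M : Set (ℕ → Fin k)} (hM : MinimalSubshift M)
    {S : Set ((ℕ → Fin k) × (ℕ → Fin k))} (hS : ICER M S) {c y : ℕ → Fin k} (hy : y ∈ M)
    (h : Exact c S y) : ∃ a, (y, a) ∈ S ∧ Proximal a c := by
  let L : Set (Ultrafilter ℕ) := {p | (lm p c, lm p y) ∈ S}
  have hLc : IsClosed L := hS.closed.preimage ((continuous_lm c).prodMk (continuous_lm y))
  have hLl : ∀ q : Ultrafilter ℕ, ∀ p ∈ L, q + p ∈ L := by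
    intro q p hp
    show (lm (q + p) c, lm (q + p) y) ∈ S
    rw [lm_add, lm_add]
    refine mem_of_parts2 hS.closed fun l => ?_
    obtain ⟨x, hx⟩ := (lm_near (c := lm p c) (y := lm p y) (p := q) l).exists
    exact ⟨_, hS.shift_mem hp x, fun i hi => hx i hi⟩
  have hLn : L.Nonempty := by
    let G : ℕ → Set ℕ := fun m => {x | Near S c y x m}
    have hG : Antitone G := fun a b hab x hx => Near.mono hx hab
    have hne : (⨅ n, 𝓟 (G n)).NeBot := by
      refine iInf_neBot_of_directed' ?_ fun n => principal_neBot_iff.2 (h n)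
      intro a b
      exact ⟨max a b, principal_mono.2 (hG (le_max_left _ _)),
        principal_mono.2 (hG (le_max_right _ _))⟩
    refine ⟨Ultrafilter.of (⨅ n, 𝓟 (G n)), ?_⟩
    refine mem_of_parts2 hS.closed fun l => ?_
    have h1 : G l ∈ Ultrafilter.of (⨅ n, 𝓟 (G n)) :=
      Ultrafilter.of_le _ (mem_iInf_of_mem l (mem_principal_self _))
    obtain ⟨x, hx, p, hp, hpx⟩ := ((lm_near (c := c) (y := y)
      (p := Ultrafilter.of (⨅ n, 𝓟 (G n))) l).and h1).exists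
    refine ⟨p, hp, fun i hi => ?_⟩
    rw [(hpx i hi).1, (hpx i hi).2]
    exact hx i hi
  have hLy : (fun p : Ultrafilter ℕ => lm p y) '' L = M := by
    refine hM.minimal _ ?_ (hLn.image _) (hLc.isCompact.image (continuous_lm y)).isClosed ?_
    · rintro _ ⟨p, _, rfl⟩
      exact lm_mem hM.closed hM.shift p hy
    · rintro _ ⟨p, hp, rfl⟩
      refine ⟨pure 1 + p, hLl _ p hp, ?_⟩
      simp only
      rw [lm_add, lm_pure_one]
  obtain ⟨p0, hp0, hp0y⟩ : y ∈ (fun p : Ultrafilter ℕ => lm p y) '' L := hLy ▸ hy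
  let S' : Set (Ultrafilter ℕ) := L ∩ {p | lm p y = y}
  have hSc : IsClosed S' := hLc.inter (isClosed_eq (continuous_lm y) continuous_const)
  obtain ⟨u, hu, huu⟩ := exists_idempotent_in_compact_add_subsemigroup
    (fun r : Ultrafilter ℕ => Ultrafilter.continuous_add_left r) S' ⟨p0, hp0, hp0y⟩
    hSc.isCompact (by
      rintro p ⟨h1, h2⟩ q ⟨h3, h4⟩
      refine ⟨hLl p q h3, ?_⟩
      simp only [Set.mem_ofPred_eq] at h2 h4 ⊢
      rw [lm_add, h4, h2])
  refine ⟨lm u c, ?_, fun l => ?_⟩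
  · have h1 : (lm u c, lm u y) ∈ S := hu.1
    have h2 : lm u y = y := hu.2
    rw [h2] at h1
    exact hS.symm _ _ h1
  · have h1 : lm u (lm u c) = lm u c := by rw [← lm_add, huu]
    obtain ⟨x, hx, hx'⟩ := ((lm_spec_lt u c l).and (lm_spec_lt u (lm u c) l)).exists
    exact ⟨x, fun i hi => by rw [hx i hi, hx' i hi, h1]⟩

/-- the exact points modulo `S'` in the `S`-class of `y` -/
def FY (c : ℕ → Fin k) (S S' : Set ((ℕ → Fin k) × (ℕ → Fin k))) (y : ℕ → Fin k) :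
    Set (ℕ → Fin k) := {z | (y, z) ∈ S ∧ Exact c S' z}

theorem FY_nonempty {M : Set (ℕ → Fin k)} (hM : MinimalSubshift M)
    {S S' : Set ((ℕ → Fin k) × (ℕ → Fin k))} (hS : ICER M S) (hS' : ICER M S') {c y : ℕ → Fin k}
    (hy : y ∈ M) (h : Exact c S y) : (FY c S S' y).Nonempty := by
  obtain ⟨a, ha, hac⟩ := exists_proximal hM hS hy h
  refine ⟨a, ha, fun m => ?_⟩
  obtain ⟨x, hx⟩ := hac m
  have haM : a ∈ M := (hS.sub ha).2
  exact ⟨x, _, hS'.refl _ (shift_mem hM.shift haM x), fun i hi => ⟨hx i hi, rfl⟩⟩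

/-- the closure property that makes the isometric step work -/
theorem mem_FY {M : Set (ℕ → Fin k)}
    {S S' : Set ((ℕ → Fin k) × (ℕ → Fin k))} (hS : ICER M S) (hS' : ICER M S') {c y z : ℕ → Fin k}
    (hI : IsoStep S S')
    (h : ∀ m, ∃ y', (y, y') ∈ S ∧ (∀ i < m, y' i = z i) ∧ ∃ x, Near S' c y' x m) :
    z ∈ FY c S S' y := by
  choose y' hy' hyz x hx using h
  have hyz' : (y, z) ∈ S := mem_of_parts2 hS.closed fun l =>
    ⟨(y, y' l), hy' l, fun i hi => ⟨rfl, (hyz l i hi).symm⟩⟩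
  refine ⟨hyz', fun m₀ => ?_⟩
  obtain ⟨w, hw⟩ := exists_limit (α := Fin k × Fin k × Fin k)
    fun m i => (c (x m + i), y' m (x m + i), z (x m + i))
  have h1 : ((fun i => (w i).1), (fun i => (w i).2.1)) ∈ S' := by
    refine mem_of_parts2 hS'.closed fun l => ?_
    obtain ⟨m, hm, hm'⟩ := hw l l
    obtain ⟨p, hp, hpx⟩ := hx m
    refine ⟨p, hp, fun i hi => ?_⟩
    rw [(hpx i (by omega)).1, (hpx i (by omega)).2]
    show (w i).1 = _ ∧ (w i).2.1 = _
    rw [← hm' i hi]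
    exact ⟨rfl, rfl⟩
  have h2 : ((fun i => (w i).2.1), (fun i => (w i).2.2)) ∈ S' := by
    refine hI _ fun l => ?_
    obtain ⟨m, hm, hm'⟩ := hw l l
    refine ⟨(y' m, z), hS.trans _ _ _ (hS.symm _ _ (hy' m)) hyz',
      fun i hi => hyz m i (by omega), x m, fun i hi => ?_⟩
    simp only [← hm' i hi, and_self]
  have h3 := hS'.trans _ _ _ h1 h2
  obtain ⟨m, hm, hm'⟩ := hw m₀ m₀
  refine ⟨x m, _, h3, fun i hi => ?_⟩
  simp only [← hm' i hi, and_self]

/-- a point of `M` that is proximal to `c` is a solution point -/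
theorem Sol_of_proximal {M : Set (ℕ → Fin k)} (hM : MinimalSubshift M) {c y : ℕ → Fin k}
    (hy : y ∈ M) (h : Proximal y c) : Sol c y := by
  intro m N
  obtain ⟨G, hG⟩ := exists_return hM hy m
  obtain ⟨x, hx, hx'⟩ := Proximal_ge h (G + m) N
  obtain ⟨t, ht, hty⟩ := hG _ (shift_mem hM.shift hy x)
  refine ⟨x + t, by omega, fun i hi => ?_, fun i hi => ?_⟩
  · rw [Nat.add_assoc, ← hx' (t + i) (by omega)]
    exact hty i hi
  · rw [Nat.add_assoc]
    exact hty i hi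

end Pool.Agent.Work.MP_69fea5_lc.PR
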