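import Pool.Agent.Work.MP_69fea5_lc.PR.Tower

set_option autoImplicit false

/-!
# Finite towers of proximal and isometric steps: computability
-/

namespace Pool.Agent.Work.MP_69fea5_lc.PR

open Pool.Agent.Work.MP_69fea5_lc
open Pool.Agent.Work.MP_69fea5_lc.PD

variable {k : ℕ}

/-- the matrix of extendibility -/
def TM (c y : ℕ → Fin k) (S S' : Set ((ℕ → Fin k) × (ℕ → Fin k))) (l w m x L : ℕ) : Prop :=
  ∃ W < k ^ (l + m + x + L), (∃ V < k ^ (l + m + x + L),
      (∀ i < l + m + x + L, (y i : ℕ) = dig k V i) ∧ LR S (l + m + x + L) V W) ∧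
    (∀ i < l, dig k W i = dig k w i) ∧
    ∃ C < k ^ m, ∃ D < k ^ m, (∀ i < m, (c (x + i) : ℕ) = dig k C i) ∧
      (∀ i < m, dig k W (x + i) = dig k D i) ∧ LR S' m C D

theorem ExtT_iff {M : Set (ℕ → Fin k)} {S S' : Set ((ℕ → Fin k) × (ℕ → Fin k))} (hS : ICER M S)
    (hS' : ICER M S') {c y : ℕ → Fin k} (hI : IsoStep S S') (l w : ℕ) :
    (∀ m, ∃ x, ∀ L, TM c y S S' l w m x L) ↔
      ∃ z ∈ FY c S S' y, ∀ i < l, (z i : ℕ) = dig k w i := by
  constructor
  · intro H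
    have h1 : ∀ m, ∃ x, ∀ L, ∃ p ∈ S, (∀ i < L, p.1 i = y i) ∧ (∀ i < l, (p.2 i : ℕ) = dig k w i) ∧
        Near S' c p.2 x m := by
      intro m
      obtain ⟨x, hx⟩ := H m
      refine ⟨x, fun L => ?_⟩
      obtain ⟨W, -, ⟨V, -, h2, p, hp, h3⟩, h4, C, -, D, -, h5, h6, q, hq, h7⟩ := hx L
      refine ⟨p, hp, fun i hi => Fin.ext ?_, fun i hi => ?_, q, hq, fun i hi => ⟨Fin.ext ?_,
        Fin.ext ?_⟩⟩
      · rw [(h3 i (by omega)).1, h2 i (by omega)]
      · rw [(h3 i (by omega)).2, h4 i hi]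
      · rw [(h7 i hi).1, h5 i hi]
      · rw [(h7 i hi).2, ← h6 i hi, (h3 (x + i) (by omega)).2]
    have h2 : ∀ m, ∃ z, (y, z) ∈ S ∧ (∀ i < l, (z i : ℕ) = dig k w i) ∧ ∃ x, Near S' c z x m := by
      intro m
      obtain ⟨x, hx⟩ := h1 m
      choose p hp hpy hpw hpn using hx
      obtain ⟨z, hz⟩ := exists_limit2 p
      have h3 : z.1 = y := by
        funext i
        obtain ⟨n, hn, hn'⟩ := hz (i + 1) (i + 1)
        rw [(hn' i (by omega)).1, hpy n i (by omega)]
      have h4 : z ∈ S := mem_of_parts2 hS.closed fun l => by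
        obtain ⟨n, -, hn⟩ := hz l 0
        exact ⟨p n, hp n, hn⟩
      refine ⟨z.2, ?_, fun i hi => ?_, x, ?_⟩
      · rw [← h3]
        exact h4
      · obtain ⟨n, -, hn'⟩ := hz l 0
        rw [(hn' i hi).2, hpw n i hi]
      · obtain ⟨n, -, hn'⟩ := hz (x + m) 0
        obtain ⟨q, hq, hqx⟩ := hpn n
        refine ⟨q, hq, fun i hi => ?_⟩
        rw [(hn' (x + i) (by omega)).2]
        exact hqx i hi
    choose z hz hzw x hx using h2
    obtain ⟨z', hz'⟩ := exists_limit z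
    refine ⟨z', mem_FY hS hS' hI fun m => ?_, fun i hi => ?_⟩
    · obtain ⟨n, hn, hn'⟩ := hz' m m
      exact ⟨z n, hz n, hn', x n, (hx n).mono hn⟩
    · obtain ⟨n, -, hn'⟩ := hz' l 0
      rw [← hn' i hi, hzw n i hi]
  · rintro ⟨z, ⟨hyz, hz⟩, hzw⟩ m
    obtain ⟨x, p, hp, hpx⟩ := hz m
    refine ⟨x, fun L => ⟨num k z _, num_lt _ _, ⟨num k y _, num_lt _ _, fun i hi =>
      (dig_num y hi).symm, (y, z), hyz, fun i hi => ⟨(dig_num y hi).symm, (dig_num z hi).symm⟩⟩,
      fun i hi => ?_, num k (fun i => c (x + i)) m, num_lt _ _, num k (fun i => z (x + i)) m,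
      num_lt _ _, fun i hi => (dig_num (fun i => c (x + i)) hi).symm, fun i hi => ?_, p, hp,
      fun i hi => ?_⟩⟩
    · rw [dig_num z (by omega), hzw i hi]
    · rw [dig_num z (by omega), dig_num (fun i => z (x + i)) hi]
    · rw [dig_num (fun i => c (x + i)) hi, dig_num (fun i => z (x + i)) hi, (hpx i hi).1,
        (hpx i hi).2]
      exact ⟨rfl, rfl⟩

/-! ### computability -/

/-- four sets as an oracle function -/
noncomputable def g4 (A B C D : Set ℕ) (n : ℕ) : ℕ :=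
  Nat.pair (ind A n) (Nat.pair (ind B n) (Nat.pair (ind C n) (ind D n)))

theorem g4_rec {O : Set (ℕ →. ℕ)} {A B C D : Set ℕ} (hA : Nat.RecursiveIn O (charFn A))
    (hB : Nat.RecursiveIn O (charFn B)) (hC : Nat.RecursiveIn O (charFn C))
    (hD : Nat.RecursiveIn O (charFn D)) :
    Nat.RecursiveIn O (fun n => Part.some (g4 A B C D n)) :=
  pair_tot (ind_rec.1 hA) (pair_tot (ind_rec.1 hB) (pair_tot (ind_rec.1 hC) (ind_rec.1 hD)))

/-- the graph of a colouring -/
def gr (c : ℕ → Fin k) : Set ℕ := {p | (c p.unpair.1 : ℕ) = p.unpair.2}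

section

variable {α : Type*} [Primcodable α] {A B C D : Set ℕ}

theorem ind_eq_one {A : Set ℕ} {n : ℕ} : ind A n = 1 ↔ n ∈ A := by
  unfold ind
  by_cases h : n ∈ A <;> simp [h]

theorem RP.m1 {f : α → ℕ} (hf : Primrec f) : RP (g4 A B C D) fun a => f a ∈ A := by
  refine (RP.oracle (g := g4 A B C D) (q := fun _ x => x.unpair.1 = 1)
    (Primrec.eq.comp (Primrec.fst.comp (Primrec.unpair.comp Primrec.snd)) (Primrec.const 1))
    hf).congr fun a => ?_
  simp only [g4, Nat.unpair_pair, ind_eq_one]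

theorem RP.m2 {f : α → ℕ} (hf : Primrec f) : RP (g4 A B C D) fun a => f a ∈ B := by
  refine (RP.oracle (g := g4 A B C D) (q := fun _ x => x.unpair.2.unpair.1 = 1)
    (Primrec.eq.comp (Primrec.fst.comp (Primrec.unpair.comp (Primrec.snd.comp
      (Primrec.unpair.comp Primrec.snd)))) (Primrec.const 1)) hf).congr fun a => ?_
  simp only [g4, Nat.unpair_pair, ind_eq_one]

theorem RP.m3 {f : α → ℕ} (hf : Primrec f) : RP (g4 A B C D) fun a => f a ∈ C := by
  refine (RP.oracle (g := g4 A B C D) (q := fun _ x => x.unpair.2.unpair.2.unpair.1 = 1)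
    (Primrec.eq.comp (Primrec.fst.comp (Primrec.unpair.comp (Primrec.snd.comp
      (Primrec.unpair.comp (Primrec.snd.comp (Primrec.unpair.comp Primrec.snd))))))
      (Primrec.const 1)) hf).congr fun a => ?_
  simp only [g4, Nat.unpair_pair, ind_eq_one]

theorem RP.m4 {f : α → ℕ} (hf : Primrec f) : RP (g4 A B C D) fun a => f a ∈ D := by
  refine (RP.oracle (g := g4 A B C D) (q := fun _ x => x.unpair.2.unpair.2.unpair.2 = 1)
    (Primrec.eq.comp (Primrec.snd.comp (Primrec.unpair.comp (Primrec.snd.comp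
      (Primrec.unpair.comp (Primrec.snd.comp (Primrec.unpair.comp Primrec.snd))))))
      (Primrec.const 1)) hf).congr fun a => ?_
  simp only [g4, Nat.unpair_pair, ind_eq_one]

variable {c y : ℕ → Fin k} {S S' : Set ((ℕ → Fin k) × (ℕ → Fin k))}

theorem mem_gr {c : ℕ → Fin k} {i v : ℕ} : Nat.pair i v ∈ gr c ↔ (c i : ℕ) = v := by
  simp [gr]

theorem mem_langRel {l v w : ℕ} : Nat.pair l (Nat.pair v w) ∈ langRel S ↔ LR S l v w := by
  simp [langRel]

theorem RP.TM {l w m x L : α → ℕ} (hl : Primrec l) (hw : Primrec w) (hm : Primrec m)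
    (hx : Primrec x) (hL : Primrec L) :
    RP (g4 (gr c) (gr y) (langRel S) (langRel S')) fun a =>
      PR.TM c y S S' (l a) (w a) (m a) (x a) (L a) := by
  unfold PR.TM
  have hB : Primrec fun a => l a + m a + x a + L a :=
    Primrec.nat_add.comp (Primrec.nat_add.comp (Primrec.nat_add.comp hl hm) hx) hL
  have hkB : Primrec fun a => k ^ (l a + m a + x a + L a) := (pow_prim k).comp hB
  have hkm : Primrec fun a => k ^ (m a) := (pow_prim k).comp hm
  refine RP.bex (p := fun W a => (∃ V < k ^ (l a + m a + x a + L a),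
      (∀ i < l a + m a + x a + L a, (y i : ℕ) = dig k V i) ∧
        PR.LR S (l a + m a + x a + L a) V W) ∧
    (∀ i < l a, dig k W i = dig k (w a) i) ∧
    ∃ C < k ^ (m a), ∃ D < k ^ (m a), (∀ i < m a, (c (x a + i) : ℕ) = dig k C i) ∧
      (∀ i < m a, dig k W (x a + i) = dig k D i) ∧ PR.LR S' (m a) C D) ?_ hkB
  refine RP.and ?_ (RP.and ?_ ?_)
  · refine RP.bex (α := ℕ × α) (p := fun V u =>
      (∀ i < l u.2 + m u.2 + x u.2 + L u.2, (y i : ℕ) = dig k V i) ∧
        PR.LR S (l u.2 + m u.2 + x u.2 + L u.2) V u.1) ?_ (hkB.comp Primrec.snd)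
    refine RP.and ?_ ?_
    · refine RP.ball (α := ℕ × ℕ × α) (p := fun i u => (y i : ℕ) = dig k u.1 i) ?_
        (hB.comp (Primrec.snd.comp Primrec.snd))
      exact (RP.m2 (Primrec₂.natPair.comp Primrec.fst ((dig_prim k).comp
        (Primrec.fst.comp Primrec.snd) Primrec.fst))).congr fun _ => mem_gr
    · exact (RP.m3 (Primrec₂.natPair.comp (hB.comp (Primrec.snd.comp Primrec.snd))
        (Primrec₂.natPair.comp Primrec.fst (Primrec.fst.comp Primrec.snd)))).congr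
          fun _ => mem_langRel
  · exact RP.digs0 (hl.comp Primrec.snd) Primrec.fst (hw.comp Primrec.snd)
  · refine RP.bex (α := ℕ × α) (p := fun C u => ∃ D < k ^ (m u.2),
      (∀ i < m u.2, (c (x u.2 + i) : ℕ) = dig k C i) ∧
      (∀ i < m u.2, dig k u.1 (x u.2 + i) = dig k D i) ∧ PR.LR S' (m u.2) C D) ?_
      (hkm.comp Primrec.snd)
    refine RP.bex (α := ℕ × ℕ × α) (p := fun D u =>
      (∀ i < m u.2.2, (c (x u.2.2 + i) : ℕ) = dig k u.1 i) ∧
      (∀ i < m u.2.2, dig k u.2.1 (x u.2.2 + i) = dig k D i) ∧ PR.LR S' (m u.2.2) u.1 D) ?_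
      (hkm.comp (Primrec.snd.comp Primrec.snd))
    have h3 : Primrec fun u : ℕ × ℕ × ℕ × α => u.2.2.2 :=
      Primrec.snd.comp (Primrec.snd.comp Primrec.snd)
    refine RP.and ?_ (RP.and ?_ ?_)
    · refine RP.ball (α := ℕ × ℕ × ℕ × α) (p := fun i u =>
        (c (x u.2.2.2 + i) : ℕ) = dig k u.2.1 i) ?_ (hm.comp h3)
      exact (RP.m1 (Primrec₂.natPair.comp (Primrec.nat_add.comp (hx.comp (h3.comp Primrec.snd))
        Primrec.fst) ((dig_prim k).comp (Primrec.fst.comp (Primrec.snd.comp Primrec.snd))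
          Primrec.fst))).congr fun _ => mem_gr
    · exact RP.digs (hm.comp h3) (Primrec.fst.comp (Primrec.snd.comp Primrec.snd)) Primrec.fst
        (hx.comp h3)
    · exact (RP.m4 (Primrec₂.natPair.comp (hm.comp h3) (Primrec₂.natPair.comp
        (Primrec.fst.comp Primrec.snd) Primrec.fst))).congr fun _ => mem_langRel

end

/-- a set whose complement is `∃` of a computable relation -/
theorem sigmaOne_rec {O : Set (ℕ →. ℕ)} {P : ℕ → ℕ → Prop}
    (h : Nat.RecursiveIn O (charFn {p | P p.unpair.1 p.unpair.2})) :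
    Nat.RecursiveIn (jumpTwo O) (charFn {n | ∃ a, P n a}) := by
  refine .oracle _ ⟨_, ⟨{p | P p.unpair.1 p.unpair.2.unpair.1}, RecursiveIn.iff_nat.2 ?_,
    fun n => ?_⟩, rfl⟩
  · have h1 : RP (ind {p | P p.unpair.1 p.unpair.2})
        fun p : ℕ => P p.unpair.1 p.unpair.2.unpair.1 := by
      refine (RP.ind (S := {p | P p.unpair.1 p.unpair.2}) (f := fun p : ℕ =>
        Nat.pair p.unpair.1 p.unpair.2.unpair.1) (Primrec₂.natPair.comp
        (Primrec.fst.comp Primrec.unpair) (Primrec.fst.comp (Primrec.unpair.comp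
          (Primrec.snd.comp Primrec.unpair))))).congr fun p => ?_
      simp
    exact RP.recNat h1 (ind_rec.1 h)
  · simp only [Set.mem_ofPred_eq, Nat.unpair_pair]
    exact ⟨fun ⟨a, h⟩ => ⟨a, fun _ => h⟩, fun ⟨a, h⟩ => ⟨a, h 0⟩⟩

theorem sigmaTwo_rec {O : Set (ℕ →. ℕ)} {P : ℕ → ℕ → ℕ → Prop}
    (h : Nat.RecursiveIn O (charFn {p | P p.unpair.1 p.unpair.2.unpair.1 p.unpair.2.unpair.2})) :
    Nat.RecursiveIn (jumpTwo O) (charFn {n | ∃ a, ∀ b, P n a b}) := by
  refine .oracle _ ⟨_, ⟨_, RecursiveIn.iff_nat.2 h, fun n => ?_⟩, rfl⟩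
  simp only [Set.mem_ofPred_eq, Nat.unpair_pair]

/-- **The isometric step.** -/
theorem iso_step {O : Set (ℕ →. ℕ)} {M : Set (ℕ → Fin k)} (hM : MinimalSubshift M)
    {S S' : Set ((ℕ → Fin k) × (ℕ → Fin k))} (hS : ICER M S) (hS' : ICER M S')
    (hI : IsoStep S S') {c y : ℕ → Fin k} (hy : y ∈ M) (hyS : Exact c S y)
    (hc : Nat.RecursiveIn O (charFn (gr c))) (hyr : Nat.RecursiveIn O (charFn (gr y)))
    (hL : Nat.RecursiveIn O (charFn (langRel S))) (hL' : Nat.RecursiveIn O (charFn (langRel S'))) :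
    ∃ z ∈ M, Exact c S' z ∧ Nat.RecursiveIn (jumpTwo (jumpTwo O)) (charFn (gr z)) := by
  obtain ⟨z, h1, h2⟩ := exists_lexmin (FY_nonempty hM hS hS' hy hyS)
  have h3 : z ∈ FY c S S' y := mem_FY hS hS' hI fun m => by
    obtain ⟨y', hy', hyz⟩ := h1 m
    exact ⟨y', hy'.1, hyz, hy'.2 m⟩
  refine ⟨z, (hS.sub h3.1).2, h3.2, ?_⟩
  refine graph_rec (S := {n | ∃ m, ∀ x, ∃ L, ¬ TM c y S S' n.unpair.1 n.unpair.2 m x L}) ?_
    fun n q => ?_
  · refine sigmaTwo_rec (P := fun n m x => ∃ L, ¬ TM c y S S' n.unpair.1 n.unpair.2 m x L) ?_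
    refine sigmaOne_rec (P := fun p L => ¬ TM c y S S' p.unpair.1.unpair.1 p.unpair.1.unpair.2
      p.unpair.2.unpair.1 p.unpair.2.unpair.2 L) ?_
    refine RP.recNat (RP.not (RP.TM ?_ ?_ ?_ ?_ ?_)) (g4_rec hc hyr hL hL')
    · exact Primrec.fst.comp (Primrec.unpair.comp (Primrec.fst.comp (Primrec.unpair.comp
        (Primrec.fst.comp Primrec.unpair))))
    · exact Primrec.snd.comp (Primrec.unpair.comp (Primrec.fst.comp (Primrec.unpair.comp
        (Primrec.fst.comp Primrec.unpair))))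
    · exact Primrec.fst.comp (Primrec.unpair.comp (Primrec.snd.comp (Primrec.unpair.comp
        (Primrec.fst.comp Primrec.unpair))))
    · exact Primrec.snd.comp (Primrec.unpair.comp (Primrec.snd.comp (Primrec.unpair.comp
        (Primrec.fst.comp Primrec.unpair))))
    · exact Primrec.snd.comp Primrec.unpair
  · refine Lm_iff (F := FY c S S' y) (fun l w => ?_) h1 h2 n q
    rw [← ExtT_iff hS hS' hI]
    simp only [Set.mem_ofPred_eq, Nat.unpair_pair]
    push Not
    rfl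

end Pool.Agent.Work.MP_69fea5_lc.PR
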