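import Pool.Agent.Work.MP_69fea5_lc.PR.TowerC

set_option autoImplicit false

/-!
# Finite towers of proximal and isometric steps: main theorem
-/

namespace Pool.Agent.Work.MP_69fea5_lc.PR

open Pool.Agent.Work.MP_69fea5_lc
open Pool.Agent.Work.MP_69fea5_lc.PD

variable {k : ℕ}

theorem gr_rec {O : Set (ℕ →. ℕ)} {c : ℕ → Fin k}
    (h : Nat.RecursiveIn O (fun n => Part.some (c n : ℕ))) :
    Nat.RecursiveIn O (charFn (gr c)) := by
  refine RP.recNat (RP.oracle (g := fun n => (c n : ℕ)) (q := fun p x => x = p.unpair.2)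
    (Primrec.eq.comp Primrec.snd (Primrec.snd.comp (Primrec.unpair.comp Primrec.fst)))
    (f := fun p : ℕ => p.unpair.1) (Primrec.fst.comp Primrec.unpair)) h

theorem iter_up {O : Set (ℕ →. ℕ)} {A : Set ℕ} (h : Nat.RecursiveIn O (charFn A)) (j : ℕ) :
    Nat.RecursiveIn (jumpTwo^[j] O) (charFn A) :=
  ind_rec.2 (up_iter (ind_rec.1 h) j)

/-- the leftmost point of `M` -/
theorem exists_point {O : Set (ℕ →. ℕ)} {M : Set (ℕ → Fin k)} (hne : M.Nonempty)
    (hM : IsClosed M) (hL : Nat.RecursiveIn O (charFn (langRel (M ×ˢ M)))) :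
    ∃ y ∈ M, Nat.RecursiveIn O (charFn (gr y)) := by
  obtain ⟨y, h1, h2⟩ := exists_lexmin hne
  refine ⟨y, mem_of_parts hM h1, ?_⟩
  have h3 : ∀ l w, LR (M ×ˢ M) l w w ↔ PD.Lk M l w := by
    intro l w
    constructor
    · rintro ⟨p, hp, h⟩
      exact ⟨p.1, hp.1, fun i hi => (h i hi).1⟩
    · rintro ⟨z, hz, h⟩
      exact ⟨(z, z), ⟨hz, hz⟩, fun i hi => ⟨h i hi, h i hi⟩⟩
  refine graph_rec (S := {n | ¬ LR (M ×ˢ M) n.unpair.1 n.unpair.2 n.unpair.2}) ?_ fun n q => ?_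
  · exact RP.recNat (RP.not (RP.LR (R := M ×ˢ M) (Primrec.fst.comp Primrec.unpair)
      (Primrec.snd.comp Primrec.unpair) (Primrec.snd.comp Primrec.unpair))) (ind_rec.1 hL)
  · refine Lm_iff (F := M) (fun l w => ?_) h1 h2 n q
    simp only [Set.mem_ofPred_eq, Nat.unpair_pair, not_not]
    exact h3 l w

/-- **Finite towers.** -/
theorem tower_main {O : Set (ℕ →. ℕ)} {c : ℕ → Fin k} {M : Set (ℕ → Fin k)}
    (hM : MinimalSubshift M) (hcM : ∀ z ∈ M, ∀ l N, ∃ x, N ≤ x ∧ ∀ i < l, c (x + i) = z i)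
    (n : ℕ) (S : ℕ → Set ((ℕ → Fin k) × (ℕ → Fin k))) (h0 : S 0 = M ×ˢ M)
    (hS : ∀ i ≤ n, ICER M (S i))
    (hstep : ∀ i < n, ProxStep (S i) (S (i + 1)) ∨ IsoStep (S i) (S (i + 1)))
    (hn : ∀ p ∈ S n, Proximal p.1 p.2) (hc : Nat.RecursiveIn O (charFn (gr c)))
    (hL : ∀ i ≤ n, Nat.RecursiveIn O (charFn (langRel (S i)))) :
    ∃ X : Set ℕ, (X.Infinite ∧ (∀ x ∈ X, 0 < x) ∧
      ∃ i, ∀ F : Finset ℕ, F.Nonempty → (↑F : Set ℕ) ⊆ X → c (∑ x ∈ F, x) = i) ∧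
      RecursiveIn (jumpTwo^[2 * n] O) (charFn X) := by
  have key : ∀ i ≤ n, ∃ y ∈ M, Exact c (S i) y ∧
      Nat.RecursiveIn (jumpTwo^[2 * i] O) (charFn (gr y)) := by
    intro i
    induction i with
    | zero =>
      intro _
      obtain ⟨y, hy, hyr⟩ := exists_point (O := O) hM.nonempty hM.closed (h0 ▸ hL 0 (by omega))
      refine ⟨y, hy, fun m => ?_, hyr⟩
      obtain ⟨z, hz⟩ := hM.nonempty
      obtain ⟨x, -, hx⟩ := hcM z hz m 0
      rw [h0]
      exact ⟨x, (z, fun n => y (x + n)), ⟨hz, shift_mem hM.shift hy x⟩,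
        fun i hi => ⟨(hx i hi).symm, rfl⟩⟩
    | succ i ih =>
      intro hi
      obtain ⟨y, hy, hyS, hyr⟩ := ih (by omega)
      have e : jumpTwo^[2 * (i + 1)] O = jumpTwo (jumpTwo (jumpTwo^[2 * i] O)) := by
        have e1 : 2 * (i + 1) = 2 * i + 1 + 1 := by ring
        rw [e1, Function.iterate_succ_apply', Function.iterate_succ_apply']
      rw [e]
      rcases hstep i (by omega) with hp | hI
      · refine ⟨y, hy, hyS.prox (hS i (by omega)).closed hp, up_set (up_set hyr)⟩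
      · exact iso_step hM (hS i (by omega)) (hS (i + 1) hi) hI hy hyS (iter_up hc _) hyr
          (iter_up (hL i (by omega)) _) (iter_up (hL (i + 1) hi) _)
  obtain ⟨y, hy, hyS, hyr⟩ := key n le_rfl
  have hyc : Proximal y c := by
    have h1 : Exact c {p : (ℕ → Fin k) × (ℕ → Fin k) | p.1 = p.2} y :=
      hyS.prox (hS n le_rfl).closed fun p hp m => by
        obtain ⟨x, hx⟩ := hn p hp m
        exact ⟨x, ((fun n => p.1 (x + n)), (fun n => p.1 (x + n))), rfl,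
          fun i hi => ⟨rfl, hx i hi⟩⟩
    intro l
    obtain ⟨x, p, hp, hpx⟩ := h1 l
    refine ⟨x, fun i hi => ?_⟩
    have hp' : p.1 = p.2 := hp
    rw [← (hpx i hi).1, ← (hpx i hi).2, hp']
  refine ⟨XX c y, XX_sol (Sol_of_proximal hM hy hyc), RecursiveIn.iff_nat.2 (XX_rec ?_ hyr)⟩
  exact iter_up hc _

end Pool.Agent.Work.MP_69fea5_lc.PR
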