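import Pool.Agent.Work.MP_69fea5_lc.PR.Gen
import Pool.Agent.Work.MP_69fea5_lc.PR.TowerM

set_option autoImplicit false

/-!
# Weakly mixing subshifts; towers with proximal, isometric and mixing steps
-/

namespace Pool.Agent.Work.MP_69fea5_lc.PR

open Pool.Agent.Work.MP_69fea5_lc
open Pool.Agent.Work.MP_69fea5_lc.PD

variable {k : ℕ}

/-- `M × M` is topologically transitive -/
def WeakMixing (M : Set (ℕ → Fin k)) : Prop :=
  ∀ a ∈ M, ∀ b ∈ M, ∀ a' ∈ M, ∀ b' ∈ M, ∀ l, ∃ x,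
    (∃ z ∈ M, (∀ i < l, z i = a i) ∧ ∀ i < l, z (x + i) = b i) ∧
    ∃ z ∈ M, (∀ i < l, z i = a' i) ∧ ∀ i < l, z (x + i) = b' i

/-- the diagonal -/
def diag (M : Set (ℕ → Fin k)) : Set ((ℕ → Fin k) × (ℕ → Fin k)) := {p | p.1 ∈ M ∧ p.1 = p.2}

theorem ICER_diag {M : Set (ℕ → Fin k)} (hM : IsClosed M)
    (hT : ∀ z ∈ M, (fun n => z (n + 1)) ∈ M) : ICER M (diag M) := by
  refine ⟨?_, ?_, ?_, fun z hz => ⟨hz, rfl⟩, ?_, ?_⟩
  · rintro ⟨y, z⟩ ⟨h1, h2⟩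
    exact ⟨h1, by rw [← h2]; exact h1⟩
  · exact (hM.preimage continuous_fst).inter (isClosed_eq continuous_fst continuous_snd)
  · rintro ⟨y, z⟩ ⟨h1, h2⟩
    simp only at h1 h2 ⊢
    rw [← h2]
    exact ⟨hT y h1, rfl⟩
  · rintro y z ⟨h1, h2⟩
    simp only at h1 h2 ⊢
    rw [← h2]
    exact ⟨h1, rfl⟩
  · rintro x y z ⟨h1, h2⟩ ⟨h3, h4⟩
    exact ⟨h1, h2.trans h4⟩

theorem ICER_prod {M : Set (ℕ → Fin k)} (hM : IsClosed M)
    (hT : ∀ z ∈ M, (fun n => z (n + 1)) ∈ M) : ICER M (M ×ˢ M) :=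
  ⟨le_rfl, hM.prod hM, fun _ hp => ⟨hT _ hp.1, hT _ hp.2⟩, fun _ hz => ⟨hz, hz⟩,
    fun _ _ h => ⟨h.2, h.1⟩, fun _ _ _ h h' => ⟨h.1, h'.2⟩⟩

/-- the Furstenberg intersection lemma -/
theorem WM_inter {M : Set (ℕ → Fin k)} (hT : ∀ z ∈ M, (fun n => z (n + 1)) ∈ M)
    (hW : WeakMixing M) {z₀ : ℕ → Fin k} (hz₀ : z₀ ∈ M)
    (l m n : ℕ) : ∃ a ∈ M, ∃ b ∈ M, ∃ L, l ≤ L ∧ m ≤ L ∧ ∀ x,
      (∃ w ∈ M, (∀ i < L, w i = a i) ∧ ∀ i < L, w (x + i) = b i) →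
      ∀ v < n, Lk M m v → ∃ w ∈ M, (∀ i < l, w i = z₀ i) ∧
        ∀ i < m, (w (x + i) : ℕ) = dig k v i := by
  induction n with
  | zero => exact ⟨z₀, hz₀, z₀, hz₀, max l m, le_max_left _ _, le_max_right _ _,
      fun x _ v hv => absurd hv (Nat.not_lt_zero _)⟩
  | succ n ih =>
    obtain ⟨a, ha, b, hb, L, hl, hm, H⟩ := ih
    by_cases hn : Lk M m n
    · obtain ⟨b', hb', hbn⟩ := hn
      obtain ⟨d, ⟨z, hz, hz1, hz2⟩, z', hz', hz1', hz2'⟩ := hW a ha z₀ hz₀ b hb b' hb' L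
      refine ⟨z, hz, z', hz', d + L, by omega, by omega, fun x hx v hv hvM => ?_⟩
      obtain ⟨w, hw, hw1, hw2⟩ := hx
      by_cases hvn : v = n
      · subst hvn
        refine ⟨_, shift_mem hT hw d, fun i hi => ?_, fun i hi => ?_⟩
        · show w (d + i) = z₀ i
          rw [hw1 (d + i) (by omega), hz2 i (by omega)]
        · show (w (d + (x + i)) : ℕ) = dig k v i
          have e : d + (x + i) = x + (d + i) := by omega
          rw [e, hw2 (d + i) (by omega), hz2' i (by omega), hbn i hi]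
      · refine H x ⟨w, hw, fun i hi => ?_, fun i hi => ?_⟩ v (by omega) hvM
        · rw [hw1 i (by omega), hz1 i hi]
        · rw [hw2 i (by omega), hz1' i hi]
    · refine ⟨a, ha, b, hb, L, hl, hm, fun x hx v hv hvM => ?_⟩
      by_cases hvn : v = n
      · exact absurd (hvn ▸ hvM) hn
      · exact H x hx v (by omega) hvM

/-- a weakly mixing minimal subshift is a mixing step over the one point system -/
theorem WM_gen {M : Set (ℕ → Fin k)} (hM : MinimalSubshift M) (hW : WeakMixing M) :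
    GenStep (M ×ˢ M) (diag M) := by
  rintro y z₀ ⟨hy, hz₀⟩ l m
  obtain ⟨a, ha, b, hb, L, hl, hm, H⟩ := WM_inter hM.shift hW hz₀ l m (k ^ m)
  obtain ⟨G, hG⟩ := exists_return hM hb L
  refine ⟨0, G, fun t => ?_⟩
  obtain ⟨s, hs, hsb⟩ := hG _ (shift_mem hM.shift ha t)
  refine ⟨t + s, by omega, by omega, fun p hp _ => ?_⟩
  obtain ⟨w, hw, hw1, hw2⟩ := H (t + s) ⟨a, ha, fun _ _ => rfl, fun i hi => by
    rw [Nat.add_assoc]; exact hsb i hi⟩ (num k p.1 m) (num_lt _ _)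
    ⟨p.1, hp.1, fun i hi => (dig_num _ hi).symm⟩
  refine ⟨w, ⟨hy, hw⟩, hw1, (_, _), ⟨shift_mem hM.shift hw (t + s), rfl⟩, fun i hi =>
    ⟨Fin.ext ?_, rfl⟩⟩
  show (w (t + s + i) : ℕ) = p.1 i
  rw [hw2 i hi, dig_num _ hi]

/-- **Finite towers of proximal, isometric and mixing steps.** -/
theorem tower_all {O : Set (ℕ →. ℕ)} {c : ℕ → Fin k} {M : Set (ℕ → Fin k)}
    (hM : MinimalSubshift M) (hcM : ∀ z ∈ M, ∀ l N, ∃ x, N ≤ x ∧ ∀ i < l, c (x + i) = z i)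
    (n : ℕ) (S : ℕ → Set ((ℕ → Fin k) × (ℕ → Fin k))) (h0 : S 0 = M ×ˢ M)
    (hS : ∀ i ≤ n, ICER M (S i))
    (hstep : ∀ i < n, ProxStep (S i) (S (i + 1)) ∨ IsoStep (S i) (S (i + 1)) ∨
      GenStep (S i) (S (i + 1)))
    (hn : ∀ p ∈ S n, Proximal p.1 p.2) (hc : Nat.RecursiveIn O (charFn (gr c)))
    (hL : ∀ i ≤ n, Nat.RecursiveIn O (charFn (langRel (S i)))) :
    ∃ X : Set ℕ, (X.Infinite ∧ (∀ x ∈ X, 0 < x) ∧
      ∃ i, ∀ F : Finset ℕ, F.Nonempty → (↑F : Set ℕ) ⊆ X → c (∑ x ∈ F, x) = i) ∧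
      RecursiveIn (jumpTwo^[2 * n] O) (charFn X) := by
  have key : ∀ i ≤ n, ∃ y ∈ M, Exact c (S i) y ∧
      Nat.RecursiveIn (jumpTwo^[2 * i] O) (charFn (gr y)) := by
    intro i
    induction i with
    | zero =>
      intro _
      obtain ⟨y, hy, hyr⟩ := exists_point (O := O) hM.nonempty hM.closed (h0 ▸ hL 0 (by omega))
      refine ⟨y, hy, fun m => ?_, hyr⟩
      obtain ⟨z, hz⟩ := hM.nonempty
      obtain ⟨x, -, hx⟩ := hcM z hz m 0
      rw [h0]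
      exact ⟨x, (z, fun n => y (x + n)), ⟨hz, shift_mem hM.shift hy x⟩,
        fun i hi => ⟨(hx i hi).symm, rfl⟩⟩
    | succ i ih =>
      intro hi
      obtain ⟨y, hy, hyS, hyr⟩ := ih (by omega)
      have e : jumpTwo^[2 * (i + 1)] O = jumpTwo (jumpTwo (jumpTwo^[2 * i] O)) := by
        have e1 : 2 * (i + 1) = 2 * i + 1 + 1 := by ring
        rw [e1, Function.iterate_succ_apply', Function.iterate_succ_apply']
      rw [e]
      rcases hstep i (by omega) with hp | hI | hG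
      · refine ⟨y, hy, hyS.prox (hS i (by omega)).closed hp, up_set (up_set hyr)⟩
      · exact iso_step hM (hS i (by omega)) (hS (i + 1) hi) hI hy hyS (iter_up hc _) hyr
          (iter_up (hL i (by omega)) _) (iter_up (hL (i + 1) hi) _)
      · obtain ⟨z, hz, hzS, hzr⟩ := gen_step (hS i (by omega)) hG hy hyS (iter_up hc _) hyr
          (iter_up (hL i (by omega)) _) (iter_up (hL (i + 1) hi) _)
        exact ⟨z, hz, hzS, up_set hzr⟩
  obtain ⟨y, hy, hyS, hyr⟩ := key n le_rfl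
  have hyc : Proximal y c := by
    have h1 : Exact c {p : (ℕ → Fin k) × (ℕ → Fin k) | p.1 = p.2} y :=
      hyS.prox (hS n le_rfl).closed fun p hp m => by
        obtain ⟨x, hx⟩ := hn p hp m
        exact ⟨x, ((fun n => p.1 (x + n)), (fun n => p.1 (x + n))), rfl,
          fun i hi => ⟨rfl, hx i hi⟩⟩
    intro l
    obtain ⟨x, p, hp, hpx⟩ := h1 l
    refine ⟨x, fun i hi => ?_⟩
    have hp' : p.1 = p.2 := hp
    rw [← (hpx i hi).1, ← (hpx i hi).2, hp']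
  refine ⟨XX c y, XX_sol (Sol_of_proximal hM hy hyc), RecursiveIn.iff_nat.2 (XX_rec ?_ hyr)⟩
  exact iter_up hc _

theorem diag_rec {O : Set (ℕ →. ℕ)} {M : Set (ℕ → Fin k)}
    (h : Nat.RecursiveIn O (charFn (language M))) :
    Nat.RecursiveIn O (charFn (langRel (diag M))) := by
  have h1 : RP (ind (language M)) fun p : ℕ => PD.Lk M p.unpair.1 p.unpair.2.unpair.1 ∧
      ∀ i < p.unpair.1, dig k p.unpair.2.unpair.1 i = dig k p.unpair.2.unpair.2 i := by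
    refine RP.and ((RP.ind (S := language M) ((code_prim k).comp (Primrec.fst.comp Primrec.unpair)
      (Primrec.fst.comp (Primrec.unpair.comp (Primrec.snd.comp Primrec.unpair))))).congr
        fun a => ?_) (RP.digs0 (Primrec.fst.comp Primrec.unpair) (Primrec.fst.comp
        (Primrec.unpair.comp (Primrec.snd.comp Primrec.unpair))) (Primrec.snd.comp
        (Primrec.unpair.comp (Primrec.snd.comp Primrec.unpair))))
    rw [Lk_iff]
  refine RP.recNat (h1.congr fun p => ?_) (ind_rec.1 h)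
  constructor
  · rintro ⟨⟨y, hy, h3⟩, h4⟩
    exact ⟨(y, y), ⟨hy, rfl⟩, fun i hi => ⟨h3 i hi, (h3 i hi).trans (h4 i hi)⟩⟩
  · rintro ⟨⟨y, z⟩, ⟨hy, hz⟩, h3⟩
    have hz' : y = z := hz
    subst hz'
    exact ⟨⟨y, hy, fun i hi => (h3 i hi).1⟩, fun i hi => (h3 i hi).1.symm.trans (h3 i hi).2⟩

end Pool.Agent.Work.MP_69fea5_lc.PR
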